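import Pool.Agent.P.MP_029dcd_co.F.T.Base

/-! Layer T: the law of mark and offset under the macroscopic line measure.
Hints. Push `τ.p1 i` forward by ` (d, x) ↦ ((d.1, d.2.1), x)`. Left side: `mh` of the pull-back is
` (D.μ.prod count).restrict Can`; under ` (x, j) ↦ ((π x, j), X x)` its restriction to `pullS π A` goes to
` ((S.mh i).restrict A).prod unif` by `τ.law` (test with `lintegral_map`, `lintegral_prod`, `Sys.lintegral_mh`), so the left
side is the image of ` (mA).prod ((vol Q)⁻¹ • vol.restrict Q)` under ` (a, X) ↦ ((a, X.2 - a 1 * X.1), X.1)`; by translation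
invariance of Lebesgue measure (`lintegral_sub_right_eq_self`) this is
` (vol Q)⁻¹ • ((mA.prod vol).prod vol).restrict {(x, S + t x) ∈ Q}`. Integrate `x` out: with
`len (a, S) = vol {x | (x, S + a 1 * x) ∈ Q q}` (measurable, `≤ 2 q`, positive exactly on the open set in the statement)
` (vol Q)⁻¹ • (mA.prod vol).withDensity len = c • N.withDensity (len * ρ)`, `N` the image of `nm i`. `ρ` is positive and
finite a.e. for both measures (`τ.nm_supp`, `hν.slope` with `Ax.slope` at the cell `0`, `rho_bounds`). Cancel the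
densities (`withDensity_inv_same`, `withDensity_mul`, `prod_withDensity_left`). -/

set_option autoImplicit false

namespace ECub.Tn

open CubicStab MeasureTheory Filter Topology Finset
open scoped ENNReal

namespace RMarg

theorem isOpen_Q (q : ℝ) : IsOpen (Q q) := isOpen_Ioo.prod isOpen_Ioo

/-- the pairs of a line and an abscissa at which the line is in the square -/
def W (n : ℕ) (q : ℝ) : Set ((E n × ℝ) × ℝ) := {y | (y.2, y.1.2 + y.1.1 1 * y.2) ∈ Q q}

theorem isOpen_W (n : ℕ) (q : ℝ) : IsOpen (W n q) :=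
  (isOpen_Q q).preimage (f := fun y : (E n × ℝ) × ℝ => (y.2, y.1.2 + y.1.1 1 * y.2)) (by fun_prop)

noncomputable def len {n : ℕ} (q : ℝ) (y : E n × ℝ) : ℝ≥0∞ := volume (Prod.mk y ⁻¹' W n q)

theorem len_meas {n : ℕ} (q : ℝ) : Measurable (len (n := n) q) :=
  measurable_measure_prodMk_left (isOpen_W n q).measurableSet

theorem len_ne_top {n : ℕ} (q : ℝ) (y : E n × ℝ) : len q y ≠ ∞ :=
  ((measure_mono (t := Set.Ioo (-q) q) fun _ hx => hx.1).trans_lt measure_Ioo_lt_top).ne

theorem len_ne_zero {n : ℕ} {q : ℝ} {y : E n × ℝ} (h : ∃ x : ℝ, (x, y.2 + y.1 1 * x) ∈ Q q) :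
    len q y ≠ 0 :=
  ((isOpen_W n q).preimage (Continuous.prodMk_right y)).measure_ne_zero volume h

theorem rho_cont (Λ : (ℝ × ℝ) ≃L[ℝ] (ℝ × ℝ)) (i : Fin 3) : Continuous (rho Λ i) := by
  unfold rho
  split_ifs <;> fun_prop

theorem shear {n : ℕ} (q : ℝ) (G : E n × ℝ → ℝ≥0∞) (hG : Measurable G) (a : E n) :
    ∫⁻ X in Q q, G (a, X.2 - a 1 * X.1) = ∫⁻ s : ℝ, G (a, s) * len q (a, s) := by
  have hW := (isOpen_W n q).measurableSet
  have h1 : Measurable fun X : ℝ × ℝ => G (a, X.2 - a 1 * X.1) := hG.comp (by fun_prop)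
  have h2 : Measurable fun z : ℝ × ℝ => G (a, z.2) * (W n q).indicator 1 ((a, z.2), z.1) :=
    (hG.comp (by fun_prop)).mul ((measurable_one.indicator hW).comp (by fun_prop))
  rw [← lintegral_indicator (isOpen_Q q).measurableSet, Measure.volume_eq_prod,
    lintegral_prod _ (h1.indicator (isOpen_Q q).measurableSet).aemeasurable]
  have e : ∀ x : ℝ, ∫⁻ y : ℝ, (Q q).indicator (fun X : ℝ × ℝ => G (a, X.2 - a 1 * X.1)) (x, y) =
      ∫⁻ s : ℝ, G (a, s) * (W n q).indicator 1 ((a, s), x) := by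
    intro x
    rw [← lintegral_add_right_eq_self _ (a 1 * x)]
    refine lintegral_congr fun s => ?_
    by_cases h : (x, s + a 1 * x) ∈ Q q
    · rw [Set.indicator_of_mem h, Set.indicator_of_mem (show ((a, s), x) ∈ W n q from h)]
      simp
    · rw [Set.indicator_of_notMem h, Set.indicator_of_notMem (show ((a, s), x) ∉ W n q from h),
        mul_zero]
  simp only [e]
  rw [lintegral_lintegral_swap h2.aemeasurable]
  refine lintegral_congr fun s => ?_
  have h3 : Measurable fun x : ℝ => (W n q).indicator (1 : (E n × ℝ) × ℝ → ℝ≥0∞) ((a, s), x) :=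
    (measurable_one.indicator hW).comp measurable_prodMk_left
  rw [lintegral_const_mul _ h3, len, ← lintegral_indicator_one (measurable_prodMk_left hW)]
  rfl

variable {S : Sys} {Λ : (ℝ × ℝ) ≃L[ℝ] (ℝ × ℝ)} {A : Set (S.Ω × ℕ)} {n : ℕ}
  {ν : S.Ω × ℕ → E n} {q : ℝ}

theorem vol_ne_zero (hq : 0 < q) : volume (Q q) ≠ 0 :=
  (isOpen_Q q).measure_ne_zero volume ⟨(0, 0), ⟨neg_lt_zero.2 hq, hq⟩, ⟨neg_lt_zero.2 hq, hq⟩⟩

theorem vol_ne_top (q : ℝ) : volume (Q q) ≠ ∞ := by
  rw [Q, Measure.volume_eq_prod, Measure.prod_prod]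
  exact ENNReal.mul_ne_top measure_Ioo_lt_top.ne measure_Ioo_lt_top.ne

theorem meas_can (S : Sys) (i : Fin 3) :
    MeasurableSet {x : S.Ω × ℕ | (S.Γ x.1).Can i (0, x.2)} := by
  refine measurableSet_setOfPred.2 (measurable_from_prod_countable_left fun j => ?_)
  have h1 : Measurable fun ω => j < (S.Γ ω).g 0 :=
    (measurable_of_countable fun n : ℕ => j < n).comp (S.meas.g 0)
  have h2 : Measurable fun ω => (S.Γ ω).fam (0, j) = i :=
    (measurable_of_countable fun n : Fin 3 => n = i).comp (S.meas.fam (0, j))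
  have h3 : Measurable fun ω => (S.Γ ω).can (0, j) = true :=
    (measurable_of_countable fun n : Bool => n = true).comp (S.meas.can (0, j))
  exact h1.and (h2.and h3)

theorem mp_lab (hA : MeasurableSet A) (τ : Tan S Λ A ν q) (i : Fin 3) :
    MeasurePreserving (fun x : τ.D.Ω × ℕ => ((τ.π x.1, x.2), τ.X x.1))
      (((S.pull τ.D τ.π τ.fac).mh i).restrict (pullS τ.π A))
      (((S.mh i).restrict A).prod ((volume (Q q))⁻¹ • volume.restrict (Q q))) := by
  set U : Measure (ℝ × ℝ) := (volume (Q q))⁻¹ • volume.restrict (Q q) with hU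
  have h1 : MeasurePreserving (fun ω => (τ.π ω, τ.X ω)) τ.D.μ (S.μ.prod U) :=
    ⟨τ.fac.mp.measurable.prodMk τ.X_meas, τ.law⟩
  have h2 := ((measurePreserving_prodAssoc S.μ (Measure.count : Measure ℕ) U).symm _).comp
    (((MeasurePreserving.id S.μ).prod
      (Measure.measurePreserving_swap (μ := U) (ν := (Measure.count : Measure ℕ)))).comp
    ((measurePreserving_prodAssoc S.μ U (Measure.count : Measure ℕ)).comp
      (h1.prod (MeasurePreserving.id (Measure.count : Measure ℕ)))))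
  have h3 := h2.restrict_preimage ((hA.inter (meas_can S i)).prod (MeasurableSet.univ (α := ℝ × ℝ)))
  rw [← Measure.restrict_prod_eq_prod_univ] at h3
  have hA' : MeasurableSet (pullS τ.π A) :=
    ((τ.fac.mp.measurable.comp measurable_fst).prodMk measurable_snd) hA
  have e : ((S.pull τ.D τ.π τ.fac).mh i).restrict (pullS τ.π A) =
      (τ.D.μ.prod Measure.count).restrict ((fun x : τ.D.Ω × ℕ => ((τ.π x.1, x.2), τ.X x.1)) ⁻¹'
        (A ∩ {x | (S.Γ x.1).Can i (0, x.2)}) ×ˢ Set.univ) := by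
    refine (Measure.restrict_restrict (μ := τ.D.μ.prod Measure.count) hA').trans ?_
    congr 1
    ext x
    simp only [Set.mem_preimage, Set.mem_prod, Set.mem_univ, and_true]
    rfl
  rw [e, Sys.mh, Measure.restrict_restrict hA]
  exact h3

theorem key (hA : MeasurableSet A) (hν : Measurable ν) (τ : Tan S Λ A ν q) (i : Fin 3)
    (G : E n × ℝ → ℝ≥0∞) (hG : Measurable G) :
    ∫⁻ a, (volume (Q q))⁻¹ * ∫⁻ s : ℝ, G (a, s) * len q (a, s) ∂volume ∂(S.mA A ν i) =
      τ.c * ∫⁻ d, ENNReal.ofReal (rho Λ i (d.1 1)) * G (d.1, d.2.1) * len q (d.1, d.2.1)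
        ∂(τ.nm i) := by
  have := τ.nm_fin i
  have hW := (isOpen_W n q).measurableSet
  have hπ : Measurable fun x : τ.D.Ω × ℕ => ν (τ.π x.1, x.2) :=
    hν.comp ((τ.fac.mp.measurable.comp measurable_fst).prodMk measurable_snd)
  have hX : Measurable fun x : τ.D.Ω × ℕ => τ.X x.1 := τ.X_meas.comp measurable_fst
  have hd : Measurable fun x : τ.D.Ω × ℕ => (dat τ.π ν τ.X τ.h x, (τ.X x.1).1) :=
    (hπ.prodMk ((hX.snd.sub (((measurable_pi_apply 1).comp hπ).mul hX.fst)).prodMk
      τ.h_meas)).prodMk hX.fst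
  have hp : Measurable fun y : Dt n × ℝ => (y.1.1, y.1.2.1) := by fun_prop
  have hr : Measurable fun y : Dt n × ℝ => ENNReal.ofReal (rho Λ i (y.1.1 1)) :=
    ((rho_cont Λ i).measurable.comp (by fun_prop)).ennreal_ofReal
  have hW' : MeasurableSet {y : Dt n × ℝ | (y.2, y.1.2.1 + y.1.1 1 * y.2) ∈ Q q} :=
    (hp.prodMk measurable_snd) hW
  have hF : Measurable fun z : (S.Ω × ℕ) × (ℝ × ℝ) => G (ν z.1, z.2.2 - ν z.1 1 * z.2.1) :=
    hG.comp ((hν.comp measurable_fst).prodMk (measurable_snd.snd.sub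
      (((measurable_pi_apply 1).comp (hν.comp measurable_fst)).mul measurable_snd.fst)))
  have hG' : Measurable fun y : Dt n × ℝ => G (y.1.1, y.1.2.1) := hG.comp hp
  have h := (lintegral_map hG' hd).symm.trans
    (congrArg (fun m => ∫⁻ y, G (y.1.1, y.1.2.1) ∂m) (τ.p1 i))
  rw [lintegral_smul_measure,
    lintegral_withDensity_eq_lintegral_mul _ hr hG', ← lintegral_indicator hW',
    lintegral_prod _ ((hr.mul hG').indicator hW').aemeasurable] at h
  have h2 := (mp_lab hA τ i).lintegral_comp hF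
  rw [lintegral_prod _ hF.aemeasurable] at h2
  simp only [lintegral_smul_measure, shear q G hG, smul_eq_mul] at h2
  have hI : Measurable fun a : E n => (volume (Q q))⁻¹ * ∫⁻ s : ℝ, G (a, s) * len q (a, s) :=
    ((hG.mul (len_meas q)).lintegral_prod_right').const_mul _
  rw [Sys.mA, lintegral_map hI hν]
  refine h2.symm.trans (h.trans ?_)
  rw [ENNReal.smul_def, smul_eq_mul]
  congr 1
  refine lintegral_congr fun d => ?_
  rw [len, ← lintegral_indicator_one (measurable_prodMk_left hW), ← lintegral_const_mul _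
    (measurable_one.indicator (measurable_prodMk_left hW))]
  refine lintegral_congr fun x => ?_
  by_cases hx : (x, d.2.1 + d.1 1 * x) ∈ Q q
  · rw [Set.indicator_of_mem (by exact hx), Set.indicator_of_mem (by exact hx)]
    simp
  · rw [Set.indicator_of_notMem (by exact hx), Set.indicator_of_notMem (by exact hx), mul_zero]

end RMarg

open RMarg in
/-- the law of mark and offset under the macroscopic line measure -/
theorem marg {S : Sys} {Λ : (ℝ × ℝ) ≃L[ℝ] (ℝ × ℝ)} (hΛ : S.Lin Λ) {A : Set (S.Ω × ℕ)}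
    (hA : S.LineSet A) {n : ℕ} {ν : S.Ω × ℕ → E n} (hν : S.Marks0 ν) {q : ℝ} (hq : 0 < q)
    (τ : Tan S Λ A ν q) (i : Fin 3) :
    ((τ.nm i).map fun d => (d.1, d.2.1)).restrict
        {y : E n × ℝ | ∃ x : ℝ, (x, y.2 + y.1 1 * x) ∈ Q q}
      = (((S.mA A ν i).withDensity fun a =>
          ((τ.c : ℝ≥0∞) * volume (Q q) * ENNReal.ofReal (rho Λ i (a 1)))⁻¹).prod volume).restrict
        {y : E n × ℝ | ∃ x : ℝ, (x, y.2 + y.1 1 * x) ∈ Q q} := by
  obtain ⟨r1, r2, hr1, hr⟩ := rho_bounds hΛ.ok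
  set U := {y : E n × ℝ | ∃ x : ℝ, (x, y.2 + y.1 1 * x) ∈ Q q} with hU
  have hr' : Measurable fun a : E n => ENNReal.ofReal (rho Λ i (a 1)) :=
    ((rho_cont Λ i).measurable.comp (measurable_pi_apply 1)).ennreal_ofReal
  have hp : Measurable fun d : Dt n => (d.1, d.2.1) := by fun_prop
  have hc : (τ.c : ℝ≥0∞) ≠ 0 := by exact_mod_cast τ.c_pos.ne'
  have hUm : MeasurableSet U := by
    have : U = ⋃ x : ℝ, (fun y => (y, x)) ⁻¹' W n q := by
      ext y
      simp [hU, W]
    rw [this]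
    exact (isOpen_iUnion fun x => (isOpen_W n q).preimage (by fun_prop)).measurableSet
  refine Measure.ext fun B hB => ?_
  have hB' := hB.inter hUm
  have hG : Measurable fun y : E n × ℝ => (B ∩ U).indicator 1 y *
      (ENNReal.ofReal (rho Λ i (y.1 1)))⁻¹ * (len q y)⁻¹ :=
    ((measurable_one.indicator hB').mul (hr'.comp measurable_fst).inv).mul (len_meas q).inv
  have h := key hA.1 hν.meas τ i _ hG
  have e1 : ∀ y : E n × ℝ, (B ∩ U).indicator 1 y * (ENNReal.ofReal (rho Λ i (y.1 1)))⁻¹ *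
      (len q y)⁻¹ * len q y = (ENNReal.ofReal (rho Λ i (y.1 1)))⁻¹ * (B ∩ U).indicator 1 y := by
    intro y
    by_cases hy : y ∈ B ∩ U
    · rw [mul_assoc, ENNReal.inv_mul_cancel (len_ne_zero hy.2) (len_ne_top q y), mul_one, mul_comm]
    · simp [Set.indicator_of_notMem hy]
  have e2 : ∫⁻ d, ENNReal.ofReal (rho Λ i (d.1 1)) * ((B ∩ U).indicator 1 (d.1, d.2.1) *
      (ENNReal.ofReal (rho Λ i (d.1 1)))⁻¹ * (len q (d.1, d.2.1))⁻¹) * len q (d.1, d.2.1)
      ∂(τ.nm i) = ∫⁻ d, (B ∩ U).indicator 1 (d.1, d.2.1) ∂(τ.nm i) := by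
    obtain ⟨B0, hB0⟩ := τ.nm_supp
    refine lintegral_congr_ae ((hB0 i).mono fun d hd => ?_)
    have h0 : ENNReal.ofReal (rho Λ i (d.1 1)) ≠ 0 :=
      (ENNReal.ofReal_pos.2 (hr1.trans_le (hr i _ hd.2.2.1).1)).ne'
    simp only
    rw [mul_assoc, e1 (d.1, d.2.1), ← mul_assoc,
      ENNReal.mul_inv_cancel h0 ENNReal.ofReal_ne_top, one_mul]
  simp only [e1] at h
  rw [e2] at h
  have hf : Measurable fun a : E n =>
      ((τ.c : ℝ≥0∞) * volume (Q q) * ENNReal.ofReal (rho Λ i (a 1)))⁻¹ := (hr'.const_mul _).inv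
  rw [Measure.restrict_apply hB, Measure.restrict_apply hB, ← lintegral_indicator_one hB',
    lintegral_map (measurable_one.indicator hB') hp, Measure.prod_apply hB',
    lintegral_withDensity_eq_lintegral_mul _ hf (measurable_measure_prodMk_left hB')]
  refine (ENNReal.mul_right_inj hc ENNReal.coe_ne_top).1 (h.symm.trans ?_)
  rw [← lintegral_const_mul _ (hf.mul (measurable_measure_prodMk_left hB'))]
  refine lintegral_congr fun a => ?_
  have h3 : Measurable fun s : ℝ => (B ∩ U).indicator (1 : E n × ℝ → ℝ≥0∞) (a, s) :=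
    (measurable_one.indicator hB').comp measurable_prodMk_left
  rw [lintegral_const_mul _ h3, Pi.mul_apply, ← lintegral_indicator_one (measurable_prodMk_left hB'), mul_assoc (τ.c : ℝ≥0∞),
    ENNReal.mul_inv (Or.inl hc) (Or.inl ENNReal.coe_ne_top),
    ENNReal.mul_inv (Or.inl (vol_ne_zero hq)) (Or.inl (vol_ne_top q)), ← mul_assoc, ← mul_assoc,
    ← mul_assoc, ENNReal.mul_inv_cancel hc ENNReal.coe_ne_top, one_mul]
  rfl

end ECub.Tn
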