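import Pool.Agent.P.MP_029dcd_co.F.T.TanEx
import Pool.Agent.P.MP_029dcd_co.F.T.Marg

/-! Layer T: equidistribution of marks and offsets. -/

set_option autoImplicit false

namespace ECub.Tn

open CubicStab MeasureTheory Filter Topology Finset
open scoped ENNReal

namespace REqui

theorem ae_slope (S : Sys) (A : Set (S.Ω × ℕ)) {n : ℕ} {ν : S.Ω × ℕ → E n} (hν : S.Marks0 ν)
    (i : Fin 3) : ∀ᵐ a ∂(S.mA A ν i), |a 1 - ctr i| ≤ 1 / 100 := by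
  have hm : MeasurableSet {a : E n | |a 1 - ctr i| ≤ 1 / 100} :=
    (isClosed_le (by fun_prop) continuous_const).measurableSet
  unfold Sys.mA
  rw [ae_map_iff hν.meas.aemeasurable hm]
  refine ae_restrict_of_ae ?_
  unfold Sys.mh
  rw [ae_iff]
  have hm' : MeasurableSet {x : S.Ω × ℕ | ¬ |ν x 1 - ctr i| ≤ 1 / 100} := (hν.meas hm).compl
  rw [Measure.restrict_apply hm']
  have : {x : S.Ω × ℕ | ¬ |ν x 1 - ctr i| ≤ 1 / 100} ∩ {x | (S.Γ x.1).Can i (0, x.2)} = ∅ := by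
    ext x
    simp only [Set.mem_inter_iff, Set.mem_ofPred_eq, Set.mem_empty_iff_false, iff_false]
    rintro ⟨h1, h2⟩
    apply h1
    have h3 := (S.ax x.1).slope _ h2.1
    rw [h2.2.1] at h3
    rw [hν.slope x h2.1]
    exact h3
  rw [this, measure_empty]

theorem rho_cont (Λ : (ℝ × ℝ) ≃L[ℝ] (ℝ × ℝ)) (i : Fin 3) : Continuous (rho Λ i) := by
  unfold rho
  by_cases h : i = 1
  · simp only [h, if_true]
    fun_prop
  · simp only [h, if_false]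
    fun_prop

/-- the inverse of the Jacobian -/
noncomputable def kk (Λ : (ℝ × ℝ) ≃L[ℝ] (ℝ × ℝ)) : ℝ≥0∞ :=
  ENNReal.ofReal |LinearMap.det (Λ.symm : (ℝ × ℝ) →ₗ[ℝ] (ℝ × ℝ))|

theorem kk_ne_top (Λ : (ℝ × ℝ) ≃L[ℝ] (ℝ × ℝ)) : kk Λ ≠ ∞ := ENNReal.ofReal_ne_top

theorem kk_ne_zero (Λ : (ℝ × ℝ) ≃L[ℝ] (ℝ × ℝ)) : kk Λ ≠ 0 := by
  have h : LinearMap.det (Λ.symm : (ℝ × ℝ) →ₗ[ℝ] (ℝ × ℝ)) ≠ 0 :=
    (LinearEquiv.isUnit_det' Λ.symm.toLinearEquiv).ne_zero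
  simpa [kk] using h

theorem c_vol {S : Sys} {Λ : (ℝ × ℝ) ≃L[ℝ] (ℝ × ℝ)} {A : Set (S.Ω × ℕ)} {n : ℕ}
    {ν : S.Ω × ℕ → E n} {q : ℝ} (τ : Tan S Λ A ν q) :
    (τ.c : ℝ≥0∞) * volume (Q q) = (kk Λ)⁻¹ := by
  have h := τ.c_eq
  rw [Measure.addHaar_preimage_continuousLinearEquiv] at h
  refine ENNReal.eq_inv_of_mul_eq_one_left ?_
  rw [← h]
  unfold kk
  ring

theorem int_eq {n : ℕ} (μ : Measure (E n × ℝ)) {B q : ℝ} (hB : B ≤ q) (hq : 0 < q)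
    (F : E n × ℝ → ℝ) (hF : ∀ y, B ≤ |y.2| → F y = 0) :
    ∫ y, F y ∂(μ.restrict {y : E n × ℝ | ∃ x : ℝ, (x, y.2 + y.1 1 * x) ∈ Q q}) = ∫ y, F y ∂μ := by
  refine setIntegral_eq_integral_of_forall_compl_eq_zero fun y hy => hF y ?_
  by_contra h
  have h1 := abs_lt.1 ((not_le.1 h).trans_le hB)
  exact hy ⟨0, ⟨by linarith, hq⟩, by simpa using h1⟩

end REqui

open REqui in
/-- equidistribution of marks and offsets of lines -/
theorem equi (S : Sys) (hS : S.toDyn.Erg) {Λ : (ℝ × ℝ) ≃L[ℝ] (ℝ × ℝ)} (hΛ : S.Lin Λ)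
    {A : Set (S.Ω × ℕ)} (hA : S.LineSet A) {n : ℕ} {ν : S.Ω × ℕ → E n} (hν : S.Marks0 ν)
    (i : Fin 3) : ∃ m : Measure (E n), IsFiniteMeasure m ∧ m ≪ S.mA A ν i ∧ S.mA A ν i ≪ m ∧
      ∀ᵐ ω ∂S.μ, ∀ B : ℝ, 0 < B → ∀ F : BoundedContinuousFunction (E n × ℝ) ℝ,
        (∀ y, B ≤ |y.2| → F y = 0) →
        Tendsto (fun u : ℕ => (∑ l ∈ S.lnsA A ω i (B * (S.Γ ω).R u),
          F (S.ev ν ω l, (S.Γ ω).s l / (S.Γ ω).R u)) / (u : ℝ)) atTop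
          (𝓝 (∫ y, F y ∂(m.prod volume))) := by
  classical
  obtain ⟨r1, r2, hr1, hr⟩ := rho_bounds hΛ.ok
  have hsl := ae_slope S A hν i
  have : IsFiniteMeasure (S.mA A ν i) := by unfold Sys.mA; infer_instance
  have hfm : Measurable fun a : E n => ((kk Λ)⁻¹ * ENNReal.ofReal (rho Λ i (a 1)))⁻¹ :=
    (measurable_const.mul (((rho_cont Λ i).comp (continuous_apply 1)).measurable.ennreal_ofReal)).inv
  refine ⟨(S.mA A ν i).withDensity fun a => ((kk Λ)⁻¹ * ENNReal.ofReal (rho Λ i (a 1)))⁻¹,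
    ?_, withDensity_absolutelyContinuous _ _, ?_, ?_⟩
  · refine isFiniteMeasure_withDensity (ne_top_of_le_ne_top
      (b := ∫⁻ _, ((kk Λ)⁻¹ * ENNReal.ofReal r1)⁻¹ ∂(S.mA A ν i)) ?_ (lintegral_mono_ae ?_))
    · rw [lintegral_const]
      refine ENNReal.mul_ne_top (ENNReal.inv_ne_top.2 (mul_ne_zero ?_ ?_)) (measure_ne_top _ _)
      · exact ENNReal.inv_ne_zero.2 (kk_ne_top Λ)
      · simpa using hr1
    · filter_upwards [hsl] with a ha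
      exact ENNReal.inv_le_inv.2
        (mul_le_mul_right (ENNReal.ofReal_le_ofReal (hr i _ ha).1) _)
  · refine withDensity_absolutelyContinuous' hfm.aemeasurable (Eventually.of_forall fun a => ?_)
    exact ENNReal.inv_ne_zero.2
      (ENNReal.mul_ne_top (ENNReal.inv_ne_top.2 (kk_ne_zero Λ)) ENNReal.ofReal_ne_top)
  have hall := ae_all_iff.2 fun N : ℕ =>
    tan_ex S hS hΛ hA hν ((N : ℝ) + 1) (Nat.cast_add_one_pos N)
  filter_upwards [hall, hΛ.lin] with ω hω hL B hB F hF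
  obtain ⟨N, hN⟩ := exists_nat_ge B
  have hq : (0 : ℝ) < (N : ℝ) + 1 := Nat.cast_add_one_pos N
  have hBq : B ≤ (N : ℝ) + 1 := by linarith
  rw [tendsto_iff_ultrafilter]
  intro 𝒰 h𝒰
  obtain ⟨τ, hτ⟩ := hω N 𝒰 h𝒰 (fun _ _ => 0) (fun _ _ => by simp) fun _ _ _ _ _ _ => rfl
  let pr : C(Dt n, E n × ℝ) := ⟨fun d => (d.1, d.2.1), by fun_prop⟩
  have h4 := hτ.p4 i (F.compContinuous pr)
  have hint : ∫ d, (F.compContinuous pr) d ∂(τ.nm i) =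
      ∫ y, F y ∂(((S.mA A ν i).withDensity fun a =>
        ((kk Λ)⁻¹ * ENNReal.ofReal (rho Λ i (a 1)))⁻¹).prod volume) := by
    have h1 : ∫ d, (F.compContinuous pr) d ∂(τ.nm i) =
        ∫ y, F y ∂((τ.nm i).map fun d => (d.1, d.2.1)) :=
      (integral_map pr.continuous.measurable.aemeasurable
        F.continuous.aestronglyMeasurable).symm
    rw [h1, ← int_eq _ hBq hq F hF, marg hΛ hA hν hq τ i, c_vol τ, int_eq _ hBq hq F hF]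
  rw [hint] at h4
  refine h4.congr' ?_
  filter_upwards [h𝒰 (hL 1 1 one_pos)] with u hu
  have hR : 0 < (S.Γ ω).R u := hu.1
  congr 1
  symm
  refine sum_subset (fun l hl => ?_) fun l hl hl' => ?_
  · obtain ⟨h1, h2⟩ := mem_filter.1 hl
    rw [Gal.mem_lns (S.ax ω) hΛ.ok hL] at h1
    refine mem_filter.2 ⟨(Gal.mem_lns (S.ax ω) hΛ.ok hL _ _ _).2 ⟨h1.1, h1.2.trans ?_⟩, h2⟩
    exact mul_le_mul_of_nonneg_right (by linarith) hR.le
  · obtain ⟨h1, h2⟩ := mem_filter.1 hl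
    rw [Gal.mem_lns (S.ax ω) hΛ.ok hL] at h1
    refine hF _ ?_
    by_contra h3
    apply hl'
    refine mem_filter.2 ⟨(Gal.mem_lns (S.ax ω) hΛ.ok hL _ _ _).2 ⟨h1.1, ?_⟩, h2⟩
    have h5 : |(S.Γ ω).s l / (S.Γ ω).R u| < B := not_le.1 h3
    rw [abs_div, abs_of_pos hR, div_lt_iff₀ hR] at h5
    exact h5.le

end ECub.Tn
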