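import Pool.Agent.P.MP_029dcd_co.F.LayU

/-! Layer T: shared definitions. -/

set_option autoImplicit false

namespace ECub.Tn

open CubicStab MeasureTheory Filter Topology Finset
open scoped ENNReal

/-- the half open box of radius `r` -/
noncomputable def hb (r : ℕ) : Finset Z2 := Ico (-(r : ℤ)) r ×ˢ Ico (-(r : ℤ)) r

/-- the macroscopic position of a cell -/
noncomputable def pos (u : ℕ) (w : Z2) : ℝ × ℝ := ((w.1 : ℝ) / u, (w.2 : ℝ) / u)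

/-- the closed square of radius `M` -/
def sqr (M : ℕ) : Set (ℝ × ℝ) := Set.Icc (-(M : ℝ)) M ×ˢ Set.Icc (-(M : ℝ)) M

/-- the action on the extension -/
def TT (D : Dyn) {Z : Type} (w : Z2) (x : D.Ω × (Z2 → Z) × (ℝ × ℝ)) :
    D.Ω × (Z2 → Z) × (ℝ × ℝ) := (D.T w x.1, sh w x.2.1, x.2.2)

theorem mem_hb {r : ℕ} {w : Z2} :
    w ∈ hb r ↔ (-(r : ℤ) ≤ w.1 ∧ w.1 < r) ∧ (-(r : ℤ) ≤ w.2 ∧ w.2 < r) := by
  simp [hb]

theorem mem_box {y w : Z2} {r : ℕ} :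
    w ∈ box y r ↔ (y.1 - r ≤ w.1 ∧ w.1 ≤ y.1 + r) ∧ (y.2 - r ≤ w.2 ∧ w.2 ≤ y.2 + r) := by
  simp [box]

theorem hb_subset_box (r : ℕ) : hb r ⊆ box 0 r := fun w hw => by
  rw [mem_hb] at hw
  rw [mem_box]
  simp only [Prod.fst_zero, Prod.snd_zero]
  omega

theorem box_subset_hb {r r' : ℕ} (h : r < r') : box 0 r ⊆ hb r' := fun w hw => by
  rw [mem_box] at hw
  rw [mem_hb]
  simp only [Prod.fst_zero, Prod.snd_zero] at hw
  omega

theorem card_hb (r : ℕ) : ((hb r).card : ℝ) = 4 * (r : ℝ) ^ 2 := by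
  have : ((r : ℤ) - -(r : ℤ)).toNat = 2 * r := by omega
  rw [hb, card_product, Int.card_Ico, this]
  push_cast
  ring

end ECub.Tn
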