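import Pool.Agent.P.MP_029dcd_co.F.T.Base

/-! Layer T: sums over cells and labels are sums over lines. -/

set_option autoImplicit false

namespace ECub.Tn

open CubicStab MeasureTheory Filter Topology Finset
open scoped ENNReal

section Defs

variable (S : Sys) (A : Set (S.Ω × ℕ))

open Classical in
/-- the canonical labels of family `i` in `A` at the cell `0` -/
noncomputable def sec1 (i : Fin 3) (ω : S.Ω) : Finset ℕ :=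
  (range ((S.Γ ω).g 0)).filter fun j => (S.Γ ω).Can i (0, j) ∧ (ω, j) ∈ A

open Classical in
/-- the crossing pairs of families `i`, `i'` in `A` at the cell `0` -/
noncomputable def sec2 (i i' : Fin 3) (ω : S.Ω) : Finset (ℕ × ℕ) :=
  (range ((S.Γ ω).g 0) ×ˢ range ((S.Γ ω).g 0)).filter fun p =>
    ((S.Γ ω).cr 0 p.1 p.2 = true ∧ (S.Γ ω).fam (0, p.1) = i ∧ (S.Γ ω).fam (0, p.2) = i' ∧
      (S.Γ ω).t (0, p.1) ≠ (S.Γ ω).t (0, p.2)) ∧ (ω, p.1) ∈ A ∧ (ω, p.2) ∈ A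

/-- the data of a line at scale `u` -/
noncomputable def du {n : ℕ} (ν : S.Ω × ℕ → E n) (ω : S.Ω) (hu : ℕ → Lb → H n) (u : ℕ) (l : Lb) :
    Dt n := (S.ev ν ω l, (S.Γ ω).s l / (S.Γ ω).R u, hu u l)

/-- the data of a label at scale `u`, with the offset read off from the cell -/
noncomputable def dw (Λ : (ℝ × ℝ) ≃L[ℝ] (ℝ × ℝ)) {n : ℕ} (ν : S.Ω × ℕ → E n) (ω : S.Ω)
    (hu : ℕ → Lb → H n) (u : ℕ) (l : Lb) : Dt n :=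
  (S.ev ν ω l, (Λ (pos u l.1)).2 - S.ev ν ω l 1 * (Λ (pos u l.1)).1, hu u l)

variable {S A}

theorem valid_T (ω : S.Ω) (w x : Z2) (j : ℕ) :
    (S.Γ (S.T w ω)).valid (x, j) ↔ (S.Γ ω).valid (w + x, j) := by
  simp only [Gal.valid, (S.shift ω w).g]

theorem can_T (ω : S.Ω) (w : Z2) (i : Fin 3) (j : ℕ) :
    (S.Γ (S.T w ω)).Can i (0, j) ↔ (S.Γ ω).Can i (w, j) := by
  simp only [Gal.Can, valid_T, (S.shift ω w).fam, (S.shift ω w).can, add_zero]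

theorem mem_sec1 {i : Fin 3} {ω : S.Ω} {j : ℕ} :
    j ∈ sec1 S A i ω ↔ (S.Γ ω).Can i (0, j) ∧ (ω, j) ∈ A := by
  simp only [sec1, mem_filter, mem_range, and_iff_right_iff_imp]
  exact fun h => h.1.1

theorem mem_sec2 {i i' : Fin 3} {ω : S.Ω} {p : ℕ × ℕ} :
    p ∈ sec2 S A i i' ω ↔
      ((S.Γ ω).cr 0 p.1 p.2 = true ∧ (S.Γ ω).fam (0, p.1) = i ∧ (S.Γ ω).fam (0, p.2) = i' ∧
        (S.Γ ω).t (0, p.1) ≠ (S.Γ ω).t (0, p.2)) ∧ (ω, p.1) ∈ A ∧ (ω, p.2) ∈ A := by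
  simp only [sec2, mem_filter, mem_product, mem_range, and_iff_right_iff_imp]
  exact fun h => ⟨((S.ax ω).cr_valid _ _ _ h.1.1).1, ((S.ax ω).cr_valid _ _ _ h.1.1).2.1⟩

theorem mem_sec1_T {i : Fin 3} {ω : S.Ω} {w : Z2} {j : ℕ} :
    j ∈ sec1 S A i (S.T w ω) ↔ (S.Γ ω).Can i (w, j) ∧ (S.T w ω, j) ∈ A := by
  rw [mem_sec1, can_T]

theorem mem_sec2_T {i i' : Fin 3} {ω : S.Ω} {w : Z2} {p : ℕ × ℕ} :
    p ∈ sec2 S A i i' (S.T w ω) ↔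
      ((S.Γ ω).cr w p.1 p.2 = true ∧ (S.Γ ω).fam (w, p.1) = i ∧ (S.Γ ω).fam (w, p.2) = i' ∧
        (S.Γ ω).t (w, p.1) ≠ (S.Γ ω).t (w, p.2)) ∧
        (S.T w ω, p.1) ∈ A ∧ (S.T w ω, p.2) ∈ A := by
  simp only [mem_sec2, (S.shift ω w).cr, (S.shift ω w).fam, (S.shift ω w).t, add_zero]

theorem ev_one {n : ℕ} {ν : S.Ω × ℕ → E n} (hν : S.Marks0 ν) {ω : S.Ω} {l : Lb}
    (hl : (S.Γ ω).valid l) : S.ev ν ω l 1 = (S.Γ ω).t l := by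
  rw [Sys.ev, hν.slope _ (by rw [valid_T, add_zero]; exact hl), Sys.sl, (S.shift ω l.1).t, add_zero]

end Defs

section Sums

variable {S : Sys} {A : Set (S.Ω × ℕ)} {Λ : (ℝ × ℝ) ≃L[ℝ] (ℝ × ℝ)} {ω : S.Ω}

theorem rep_spec {l : Lb} (hl : (S.Γ ω).valid l) :
    (S.Γ ω).Ln ((S.Γ ω).fam l) ((S.Γ ω).rep l) ∧ (S.Γ ω).same l ((S.Γ ω).rep l) = true :=
  ⟨⟨(Gal.at'_spec (S.ax ω) hl 0).1, (Gal.at'_spec (S.ax ω) hl 0).2.2⟩,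
    (Gal.at'_spec (S.ax ω) hl 0).2.1⟩

theorem rep_eq {i : Fin 3} {l l' : Lb} (hl : (S.Γ ω).Ln i l) (hl' : (S.Γ ω).valid l')
    (h : (S.Γ ω).same l l' = true) : (S.Γ ω).rep l' = l := by
  rw [Gal.rep, ← Gal.at'_congr (S.ax ω) hl.1.1 hl' h, ← hl.2, Gal.at'_self (S.ax ω) hl.1]

theorem mem_lnsA (hΛ : LamOK Λ) (hL : (S.Γ ω).Lin Λ) {i : Fin 3} {ρ : ℝ} {l : Lb} :
    l ∈ S.lnsA A ω i ρ ↔ ((S.Γ ω).Ln i l ∧ |(S.Γ ω).s l| ≤ ρ) ∧ (S.T l.1 ω, l.2) ∈ A := by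
  simp only [Sys.lnsA, mem_filter, Gal.mem_lns (S.ax ω) hΛ hL]

theorem rep_mem (hΛ : LamOK Λ) (hL : (S.Γ ω).Lin Λ)
    (hA : (S.Γ ω).LineC (S.ev (fun x => x ∈ A) ω)) {ρ : ℝ} {l : Lb} (hl : (S.Γ ω).valid l)
    (hs : |(S.Γ ω).s l| ≤ ρ) (hlA : (S.T l.1 ω, l.2) ∈ A) :
    (S.Γ ω).rep l ∈ S.lnsA A ω ((S.Γ ω).fam l) ρ := by
  obtain ⟨h1, h2⟩ := rep_spec hl
  refine (mem_lnsA hΛ hL).2 ⟨⟨h1, ?_⟩, ?_⟩
  · rwa [← (S.ax ω).same_s _ _ hl h1.1.1 h2]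
  · exact (hA _ _ hl h1.1.1 h2).mp hlA

/-- canonical labels are pairs of a line and an index -/
theorem sum1 (hΛ : LamOK Λ) (hL : (S.Γ ω).Lin Λ) (hA : (S.Γ ω).LineC (S.ev (fun x => x ∈ A) ω))
    (i : Fin 3) (ρ : ℝ) (N r : ℕ) (f : Lb → ℤ → ℝ) (hf : (S.Γ ω).LineC f)
    (h0 : ∀ l b, (S.Γ ω).valid l → (S.Γ ω).fam l = i → f l b ≠ 0 →
      |(S.Γ ω).s l| ≤ ρ ∧ -(N : ℤ) ≤ b ∧ b < N)
    (hv : ∀ l, (S.Γ ω).valid l → |(S.Γ ω).s l| ≤ ρ → ∀ b : ℤ, |b| ≤ N →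
      ((S.Γ ω).at' l b).1 ∈ hb r) :
    ∑ w ∈ hb r, ∑ j ∈ sec1 S A i (S.T w ω), f (w, j) (idx i w) =
      ∑ l ∈ S.lnsA A ω i ρ, ∑ b ∈ Ico (-(N : ℤ)) N, f l b := by
  have hG := S.ax ω
  rw [sum_sigma', ← sum_product']
  refine sum_bij_ne_zero (fun a _ _ => ((S.Γ ω).rep (a.1, a.2), idx i a.1)) ?_ ?_ ?_ ?_
  · rintro ⟨w, j⟩ h1 h2
    obtain ⟨-, h3⟩ := mem_sigma.1 h1
    obtain ⟨h3, h4⟩ := mem_sec1_T.1 h3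
    obtain ⟨h5, h6⟩ := h0 _ _ h3.1 h3.2.1 h2
    have := rep_mem hΛ hL hA h3.1 h5 h4
    rw [h3.2.1] at this
    exact mem_product.2 ⟨this, mem_Ico.2 h6⟩
  · rintro ⟨w, j⟩ h1 - ⟨w', j'⟩ h2 - h
    obtain ⟨h3, -⟩ := mem_sec1_T.1 (mem_sigma.1 h1).2
    obtain ⟨h4, -⟩ := mem_sec1_T.1 (mem_sigma.1 h2).2
    obtain ⟨h5, h6⟩ := Prod.mk.inj h
    obtain ⟨rfl, rfl⟩ := Prod.mk.inj
      (hG.can_uniq i _ _ h3 h4 ((Gal.rep_eq_iff hG h3.1 h4.1).1 h5) h6)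
    rfl
  · rintro ⟨l, b⟩ h1 h2
    obtain ⟨h3, h4⟩ := mem_product.1 h1
    obtain ⟨⟨h5, h6⟩, h7⟩ := (mem_lnsA hΛ hL).1 h3
    obtain ⟨e1, e2, e3⟩ := Gal.at'_spec hG h5.1.1 b
    rw [h5.1.2.1] at e1 e3
    have h8 := mem_Ico.1 h4
    refine ⟨⟨((S.Γ ω).at' l b).1, ((S.Γ ω).at' l b).2⟩, mem_sigma.2
      ⟨hv l h5.1.1 h6 b (abs_le.2 ⟨h8.1, h8.2.le⟩), mem_sec1_T.2
        ⟨e1, (hA _ _ h5.1.1 e1.1 e2).mp h7⟩⟩, ?_, ?_⟩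
    · simp only [Prod.mk.eta, e3]
      rwa [← hf _ _ h5.1.1 e1.1 e2]
    · simp only [Prod.mk.eta, e3, rep_eq h5 e1.1 e2]
  · rintro ⟨w, j⟩ h1 -
    obtain ⟨h3, -⟩ := mem_sec1_T.1 (mem_sigma.1 h1).2
    simp only [← hf _ _ h3.1 (rep_spec h3.1).1.1.1 (rep_spec h3.1).2]

/-- crossing pairs of labels are pairs of lines -/
theorem sum2 (hΛ : LamOK Λ) (hL : (S.Γ ω).Lin Λ) (hA : (S.Γ ω).LineC (S.ev (fun x => x ∈ A) ω))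
    (i i' : Fin 3) (ρ : ℝ) (r : ℕ) {β : Type} (d : Lb → β) (hd : (S.Γ ω).LineC d) (f : β × β → ℝ)
    (h0 : ∀ l l', (S.Γ ω).valid l → (S.Γ ω).valid l' → f (d l, d l') ≠ 0 →
      |(S.Γ ω).s l| ≤ ρ ∧ |(S.Γ ω).s l'| ≤ ρ ∧ (S.Γ ω).t l ≠ (S.Γ ω).t l')
    (hv : ∀ w j j', (S.Γ ω).cr w j j' = true → f (d (w, j), d (w, j')) ≠ 0 → w ∈ hb r) :
    ∑ w ∈ hb r, ∑ p ∈ sec2 S A i i' (S.T w ω), f (d (w, p.1), d (w, p.2)) =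
      ∑ l ∈ S.lnsA A ω i ρ, ∑ l' ∈ S.lnsA A ω i' ρ, f (d l, d l') := by
  have hG := S.ax ω
  rw [sum_sigma', ← sum_product']
  refine sum_bij_ne_zero
    (fun a _ _ => ((S.Γ ω).rep (a.1, a.2.1), (S.Γ ω).rep (a.1, a.2.2))) ?_ ?_ ?_ ?_
  · rintro ⟨w, j, j'⟩ h1 h2
    obtain ⟨⟨c1, c2, c3, -⟩, c4, c5⟩ := mem_sec2_T.1 (mem_sigma.1 h1).2
    obtain ⟨v1, v2, -⟩ := hG.cr_valid _ _ _ c1
    obtain ⟨h5, h6, -⟩ := h0 _ _ v1 v2 h2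
    have e1 := rep_mem hΛ hL hA v1 h5 c4
    have e2 := rep_mem hΛ hL hA v2 h6 c5
    rw [c2] at e1
    rw [c3] at e2
    exact mem_product.2 ⟨e1, e2⟩
  · rintro ⟨w, j, j'⟩ h1 - ⟨w', m, m'⟩ h2 - h
    obtain ⟨⟨c1, -⟩, -⟩ := mem_sec2_T.1 (mem_sigma.1 h1).2
    obtain ⟨⟨c2, -⟩, -⟩ := mem_sec2_T.1 (mem_sigma.1 h2).2
    obtain ⟨v1, v2, -⟩ := hG.cr_valid _ _ _ c1
    obtain ⟨v3, v4, -⟩ := hG.cr_valid _ _ _ c2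
    obtain ⟨h5, h6⟩ := Prod.mk.inj h
    have e1 := (Gal.rep_eq_iff hG v1 v3).1 h5
    have e2 := (Gal.rep_eq_iff hG v2 v4).1 h6
    obtain rfl := hG.cr_uniq _ _ _ _ _ _ c1 c2 e1 e2
    obtain rfl := hG.same_cell _ _ _ v1 v3 e1
    obtain rfl := hG.same_cell _ _ _ v2 v4 e2
    rfl
  · rintro ⟨l, l'⟩ h1 h2
    obtain ⟨h3, h4⟩ := mem_product.1 h1
    obtain ⟨⟨a1, -⟩, a2⟩ := (mem_lnsA hΛ hL).1 h3
    obtain ⟨⟨b1, -⟩, b2⟩ := (mem_lnsA hΛ hL).1 h4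
    obtain ⟨-, -, h5⟩ := h0 _ _ a1.1.1 b1.1.1 h2
    obtain ⟨w, j, j', c1, c2, c3⟩ := hG.cr_ex _ _ a1.1.1 b1.1.1 h5
    obtain ⟨v1, v2, -⟩ := hG.cr_valid _ _ _ c1
    have h6 : f (d (w, j), d (w, j')) ≠ 0 := by
      rwa [← hd _ _ a1.1.1 v1 c2, ← hd _ _ b1.1.1 v2 c3]
    refine ⟨⟨w, j, j'⟩, mem_sigma.2 ⟨hv _ _ _ c1 h6, mem_sec2_T.2 ⟨⟨c1, ?_, ?_, ?_⟩,
      (hA _ _ a1.1.1 v1 c2).mp a2, (hA _ _ b1.1.1 v2 c3).mp b2⟩⟩, h6, ?_⟩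
    · rw [← hG.same_fam _ _ a1.1.1 v1 c2, a1.1.2.1]
    · rw [← hG.same_fam _ _ b1.1.1 v2 c3, b1.1.2.1]
    · rwa [← hG.same_t _ _ a1.1.1 v1 c2, ← hG.same_t _ _ b1.1.1 v2 c3]
    · simp only [rep_eq a1 v1 c2, rep_eq b1 v2 c3]
  · rintro ⟨w, j, j'⟩ h1 -
    obtain ⟨⟨c1, -⟩, -⟩ := mem_sec2_T.1 (mem_sigma.1 h1).2
    obtain ⟨v1, v2, -⟩ := hG.cr_valid _ _ _ c1
    simp only [← hd _ _ v1 (rep_spec v1).1.1.1 (rep_spec v1).2,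
      ← hd _ _ v2 (rep_spec v2).1.1.1 (rep_spec v2).2]

theorem abs_t_le {l : Lb} (hl : (S.Γ ω).valid l) : |(S.Γ ω).t l| ≤ 2 := by
  have h := abs_le.1 ((S.ax ω).slope l hl)
  have : |ctr ((S.Γ ω).fam l)| ≤ 1 := by
    generalize (S.Γ ω).fam l = i
    fin_cases i <;> simp [ctr]
  have := abs_le.1 this
  exact abs_le.2 ⟨by linarith, by linarith⟩

/-- the offset of a line is read off from any cell that it visits -/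
theorem close (hL : (S.Γ ω).Lin Λ) (M : ℕ) (ε : ℝ) (hε : 0 < ε) :
    ∀ᶠ u : ℕ in atTop, 0 < (S.Γ ω).R u ∧ ∀ l, (S.Γ ω).valid l → l.1 ∈ hb (M * u) →
      |(S.Γ ω).s l / (S.Γ ω).R u -
        ((Λ (pos u l.1)).2 - (S.Γ ω).t l * (Λ (pos u l.1)).1)| ≤ ε := by
  filter_upwards [hL M (ε / 9) (by positivity),
    Gal.cs_small (S.ax ω) hL M (ε / 9) (by positivity)] with u h1 h2
  refine ⟨h1.1, fun l hl hw => ?_⟩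
  have hR := h1.1
  have a1 := h1.2 _ (hb_subset_box _ hw)
  have a2 := (h2 _ (hb_subset_box _ hw)).2
  have a3 := (S.ax ω).near l hl
  have a4 := abs_t_le hl
  change ‖_ - _ • Λ (pos u l.1)‖ ≤ _ at a1
  have b1 := (norm_fst_le _).trans a1
  have b2 := (norm_snd_le _).trans a1
  simp only [Prod.fst_sub, Prod.snd_sub, Prod.smul_fst, Prod.smul_snd, smul_eq_mul,
    Real.norm_eq_abs] at b1 b2
  set R := (S.Γ ω).R u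
  set X := Λ (pos u l.1)
  set v := (S.Γ ω).v l.1
  have e : (S.Γ ω).s l / R - (X.2 - (S.Γ ω).t l * X.1) =
      (((S.Γ ω).t l * v.1 + (S.Γ ω).s l - v.2) + (v.2 - R * X.2) -
        (S.Γ ω).t l * (v.1 - R * X.1)) / R := by
    field_simp
    ring
  rw [e, abs_div, abs_of_pos hR, div_le_iff₀ hR]
  have b3 : |(S.Γ ω).t l * (v.1 - R * X.1)| ≤ 2 * (ε / 9 * R) := by
    rw [abs_mul]
    exact mul_le_mul a4 b1 (abs_nonneg _) (by norm_num)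
  have b4 := abs_le.1 b3
  have b5 := abs_le.1 b2
  have b6 := abs_le.1 a3
  exact abs_le.2 ⟨by linarith, by linarith⟩

theorem norm_pos_le {M u : ℕ} {w : Z2} (hw : w ∈ hb (M * u)) : ‖pos u w‖ ≤ M := by
  obtain ⟨⟨h1, h2⟩, h3, h4⟩ := mem_hb.1 hw
  have hu : (0 : ℝ) < u := by
    rcases Nat.eq_zero_or_pos u with rfl | h
    · simp at h1 h2; omega
    · exact_mod_cast h
  have key : ∀ a : ℤ, -((M * u : ℕ) : ℤ) ≤ a → a < ((M * u : ℕ) : ℤ) → |(a : ℝ) / u| ≤ M := by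
    intro a ha hb
    rw [abs_div, abs_of_pos hu, div_le_iff₀ hu, abs_le]
    exact ⟨by exact_mod_cast ha, by exact_mod_cast hb.le⟩
  exact norm_prod_le_iff.2 ⟨key _ h1 h2, key _ h3 h4⟩

end Sums

end ECub.Tn
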