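import Pool.Agent.P.MP_029dcd_co.F.T.Base

/-! Layer T: limits of finite sums of Dirac masses, weighted uniqueness, Riemann sums.
Hints. `exists_lim_meas`: `isCompact_setOfPred_finiteMeasure_le_of_isCompact` (Prokhorov file) and
`IsCompact.ultrafilter_le_nhds` for the finite measures ` (a u)⁻¹ • ∑ dirac` (replace by `0` for the bad `u`); a continuous
`F` agrees on `Kc` with a bounded continuous one (clip by a bound on `Kc`). `lim_prod`: apply `exists_lim_meas` to
`s u ×ˢ s' u` with `a u = u ^ 2` and identify the limit by `Measure.eq_prod_of_integral_mul_boundedContinuousFunction`.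
`ext_weight`: the two measures with density `W` agree (`ext_of_forall_integral_eq_of_IsFiniteMeasure`), then
`withDensity_inv_same`. `riemann`: `intervalIntegral.sum_integral_adjacent_intervals` with `2 * M * u` pieces. -/

set_option autoImplicit false

namespace ECub.Tn

open CubicStab MeasureTheory Filter Topology Finset
open scoped ENNReal

namespace RNM

/-- the normalised sum of Dirac masses -/
noncomputable def dm {Y L : Type} [MeasurableSpace Y] (s : Finset L) (d : L → Y) (a : ℝ) :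
    Measure Y := ENNReal.ofReal a⁻¹ • ∑ l ∈ s, Measure.dirac (d l)

instance dm_fin {Y L : Type} [MeasurableSpace Y] (s : Finset L) (d : L → Y) (a : ℝ) :
    IsFiniteMeasure (dm s d a) := by
  unfold dm
  exact Measure.smul_finite _ ENNReal.ofReal_ne_top

theorem dm_int {Y L : Type} [MetricSpace Y] [MeasurableSpace Y] [BorelSpace Y] (s : Finset L)
    (d : L → Y) {a : ℝ} (ha : 0 < a) (F : Y → ℝ) :
    ∫ y, F y ∂(dm s d a) = (∑ l ∈ s, F (d l)) / a := by
  unfold dm
  rw [integral_smul_measure, integral_finsetSum_measure fun l _ => integrable_dirac (by simp)]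
  simp only [integral_dirac, smul_eq_mul]
  rw [ENNReal.toReal_ofReal (inv_nonneg.2 ha.le), div_eq_inv_mul]

theorem dm_null {Y L : Type} [MetricSpace Y] [MeasurableSpace Y] [BorelSpace Y] (s : Finset L)
    (d : L → Y) (a : ℝ) {K : Set Y} (h : ∀ l ∈ s, d l ∈ K) : dm s d a Kᶜ = 0 := by
  unfold dm
  rw [Measure.smul_apply, Measure.finsetSum_apply, Finset.sum_eq_zero, smul_zero]
  intro l hl
  rw [Measure.dirac_apply, Set.indicator_of_notMem (by simpa using h l hl)]

theorem dm_univ {Y L : Type} [MeasurableSpace Y] (s : Finset L) (d : L → Y) {a C : ℝ}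
    (ha : 0 < a) (h : (s.card : ℝ) ≤ C * a) : dm s d a Set.univ ≤ ENNReal.ofReal C := by
  unfold dm
  rw [Measure.smul_apply, Measure.finsetSum_apply]
  simp only [measure_univ, Finset.sum_const, nsmul_eq_mul, mul_one, smul_eq_mul]
  rw [← ENNReal.ofReal_natCast, ← ENNReal.ofReal_mul (inv_nonneg.2 ha.le)]
  apply ENNReal.ofReal_le_ofReal
  rw [inv_mul_le_iff₀ ha, mul_comm]
  exact h

theorem clip {Y : Type} [MetricSpace Y] {K : Set Y} (hK : IsCompact K) (F : Y → ℝ)
    (hF : Continuous F) : ∃ G : BoundedContinuousFunction Y ℝ, ∀ y ∈ K, G y = F y := by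
  obtain ⟨B, hB⟩ := hK.exists_bound_of_continuousOn hF.continuousOn
  refine ⟨BoundedContinuousFunction.ofNormedAddCommGroup (fun y => max (-|B|) (min |B| (F y)))
    (by fun_prop) |B| fun y => ?_, fun y hy => ?_⟩
  · rw [Real.norm_eq_abs, abs_le]
    exact ⟨le_max_left _ _, max_le (by linarith [abs_nonneg B]) (min_le_left _ _)⟩
  · have h1 := abs_le.1 ((hB y hy).trans (le_abs_self B))
    show max (-|B|) (min |B| (F y)) = F y
    rw [min_eq_right h1.2, max_eq_right h1.1]

theorem sum_Ico_int (f : ℤ → ℝ) (N : ℕ) :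
    ∑ b ∈ Ico (-(N : ℤ)) (N : ℤ), f b = ∑ k ∈ range (2 * N), f (-(N : ℤ) + k) := by
  symm
  refine Finset.sum_bij (fun k _ => -(N : ℤ) + k) ?_ ?_ ?_ ?_
  · intro k hk
    rw [Finset.mem_range] at hk
    rw [Finset.mem_Ico]
    omega
  · intro k _ k' _ h
    omega
  · intro b hb
    rw [Finset.mem_Ico] at hb
    exact ⟨(b + N).toNat, by rw [Finset.mem_range]; omega, by omega⟩
  · intro k _
    rfl

end RNM

/-- limits along an ultrafilter of normalised finite sums of Dirac masses in a compact set -/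
theorem exists_lim_meas {Y L : Type} [MetricSpace Y] [MeasurableSpace Y] [BorelSpace Y]
    {Kc : Set Y} (hK : IsCompact Kc) (𝒰 : Ultrafilter ℕ) (s : ℕ → Finset L) (d : ℕ → L → Y)
    (a : ℕ → ℝ) (C : ℝ)
    (hs : ∀ᶠ u in (𝒰 : Filter ℕ), 0 < a u ∧ ((s u).card : ℝ) ≤ C * a u ∧ ∀ l ∈ s u, d u l ∈ Kc) :
    ∃ nm : Measure Y, IsFiniteMeasure nm ∧ nm Kcᶜ = 0 ∧ ∀ F : Y → ℝ, Continuous F →
      Tendsto (fun u => (∑ l ∈ s u, F (d u l)) / a u) 𝒰 (𝓝 (∫ y, F y ∂nm)) := by
  let μ : ℕ → FiniteMeasure Y := fun u => ⟨RNM.dm (s u) (d u) (a u), inferInstance⟩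
  have hc := isCompact_setOfPred_finiteMeasure_le_of_isCompact (E := Y) C.toNNReal hK
  obtain ⟨ν, hν, hlim⟩ := hc.ultrafilter_le_nhds' (𝒰.map μ) (by
    rw [Ultrafilter.mem_map]
    filter_upwards [hs] with u hu
    refine ⟨?_, ?_⟩
    · have h1 := RNM.dm_univ (s u) (d u) hu.1 hu.2.1
      rw [← ENNReal.coe_le_coe, FiniteMeasure.ennreal_mass]
      exact h1
    · rw [FiniteMeasure.null_iff_toMeasure_null]
      exact RNM.dm_null (s u) (d u) (a u) hu.2.2)
  have hν0 : (ν : Measure Y) Kcᶜ = 0 := by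
    rw [← FiniteMeasure.null_iff_toMeasure_null]
    exact hν.2
  refine ⟨ν, inferInstance, hν0, fun F hF => ?_⟩
  obtain ⟨G, hG⟩ := RNM.clip hK F hF
  have hT : Tendsto μ 𝒰 (𝓝 ν) := hlim
  have h1 := FiniteMeasure.tendsto_iff_forall_integral_tendsto.1 hT G
  have h2 : ∫ y, G y ∂(ν : Measure Y) = ∫ y, F y ∂(ν : Measure Y) := by
    apply integral_congr_ae
    have : ∀ᵐ y ∂(ν : Measure Y), y ∈ Kc := hν0
    filter_upwards [this] with y hy using hG y hy
  rw [h2] at h1
  refine h1.congr' ?_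
  filter_upwards [hs] with u hu
  show ∫ y, G y ∂(RNM.dm (s u) (d u) (a u)) = _
  rw [RNM.dm_int _ _ hu.1, Finset.sum_congr rfl fun l hl => hG _ (hu.2.2 l hl)]

/-- the limit of the products is the product of the limits -/
theorem lim_prod {Y L : Type} [MetricSpace Y] [SecondCountableTopology Y] [MeasurableSpace Y]
    [BorelSpace Y] {Kc : Set Y} (hK : IsCompact Kc) (𝒰 : Ultrafilter ℕ) (s s' : ℕ → Finset L)
    (d : ℕ → L → Y) (C : ℝ)
    (hs : ∀ᶠ u : ℕ in (𝒰 : Filter ℕ), 0 < u ∧ ((s u).card : ℝ) ≤ C * u ∧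
      ((s' u).card : ℝ) ≤ C * u ∧ (∀ l ∈ s u, d u l ∈ Kc) ∧ ∀ l ∈ s' u, d u l ∈ Kc)
    (nm nm' : Measure Y) [IsFiniteMeasure nm] [IsFiniteMeasure nm']
    (h : ∀ F : Y → ℝ, Continuous F →
      Tendsto (fun u : ℕ => (∑ l ∈ s u, F (d u l)) / (u : ℝ)) 𝒰 (𝓝 (∫ y, F y ∂nm)))
    (h' : ∀ F : Y → ℝ, Continuous F →
      Tendsto (fun u : ℕ => (∑ l ∈ s' u, F (d u l)) / (u : ℝ)) 𝒰 (𝓝 (∫ y, F y ∂nm')))
    (F : Y × Y → ℝ) (hF : Continuous F) :
    Tendsto (fun u : ℕ => (∑ l ∈ s u, ∑ l' ∈ s' u, F (d u l, d u l')) / (u : ℝ) ^ 2) 𝒰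
      (𝓝 (∫ y, F y ∂(nm.prod nm'))) := by
  obtain ⟨ξ, hξ, -, hlim⟩ := exists_lim_meas (hK.prod hK) 𝒰 (fun u => s u ×ˢ s' u)
    (fun u p => (d u p.1, d u p.2)) (fun u => (u : ℝ) ^ 2) (C ^ 2) (by
      filter_upwards [hs] with u hu
      obtain ⟨h0, h1, h2, h3, h4⟩ := hu
      have hu' : (0 : ℝ) < u := by exact_mod_cast h0
      refine ⟨by positivity, ?_, fun p hp => ?_⟩
      · rw [Finset.card_product, Nat.cast_mul,
          show C ^ 2 * (u : ℝ) ^ 2 = (C * u) * (C * u) by ring]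
        exact mul_le_mul h1 h2 (Nat.cast_nonneg _) ((Nat.cast_nonneg _).trans h1)
      · rw [Finset.mem_product] at hp
        exact ⟨h3 _ hp.1, h4 _ hp.2⟩)
  have he : ξ = nm.prod nm' := by
    apply Measure.eq_prod_of_integral_mul_boundedContinuousFunction
    intro f g
    have h1 := hlim (fun p => f p.1 * g p.2) (by fun_prop)
    have h2 := (h f f.continuous).mul (h' g g.continuous)
    refine tendsto_nhds_unique h1 (h2.congr fun u => ?_)
    rw [Finset.sum_product, div_mul_div_comm, Finset.sum_mul_sum, sq]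
  have h3 := hlim F hF
  rw [he] at h3
  refine h3.congr fun u => ?_
  rw [Finset.sum_product]

/-- finite measures carried by the set where a weight is positive are determined by weighted
integrals -/
theorem ext_weight {Y : Type} [MetricSpace Y] [MeasurableSpace Y] [BorelSpace Y]
    (m1 m2 : Measure Y) [IsFiniteMeasure m1] [IsFiniteMeasure m2] (W : Y → ℝ) (hW : Measurable W)
    (h0 : ∀ y, 0 ≤ W y) (h1 : ∀ y, W y ≤ 1) (hm1 : ∀ᵐ y ∂m1, W y ≠ 0) (hm2 : ∀ᵐ y ∂m2, W y ≠ 0)
    (h : ∀ Ψ : BoundedContinuousFunction Y ℝ,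
      ∫ y, Ψ y * W y ∂m1 = ∫ y, Ψ y * W y ∂m2) : m1 = m2 := by
  have hm : Measurable fun y => ENNReal.ofReal (W y) := hW.ennreal_ofReal
  have hfin : ∀ (m : Measure Y) [IsFiniteMeasure m],
      IsFiniteMeasure (m.withDensity fun y => ENNReal.ofReal (W y)) := by
    intro m _
    apply isFiniteMeasure_withDensity
    refine ne_top_of_le_ne_top (b := ∫⁻ _, 1 ∂m) (by simp) (lintegral_mono fun y => ?_)
    exact ENNReal.ofReal_le_one.2 (h1 y)
  have hne : ∀ m : Measure Y, (∀ᵐ y ∂m, W y ≠ 0) → ∀ᵐ y ∂m, ENNReal.ofReal (W y) ≠ 0 := by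
    intro m hm'
    filter_upwards [hm'] with y hy
    exact (ENNReal.ofReal_pos.2 (lt_of_le_of_ne (h0 y) hy.symm)).ne'
  have hint : ∀ (m : Measure Y) (Ψ : Y → ℝ),
      ∫ y, Ψ y ∂(m.withDensity fun y => ENNReal.ofReal (W y)) = ∫ y, Ψ y * W y ∂m := by
    intro m Ψ
    rw [integral_withDensity_eq_integral_toReal_smul hm
      (Eventually.of_forall fun _ => ENNReal.ofReal_lt_top)]
    refine integral_congr_ae (Eventually.of_forall fun y => ?_)
    simp only [smul_eq_mul]
    rw [ENNReal.toReal_ofReal (h0 y), mul_comm]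
  haveI := hfin m1
  haveI := hfin m2
  have he : (m1.withDensity fun y => ENNReal.ofReal (W y)) =
      m2.withDensity fun y => ENNReal.ofReal (W y) := by
    apply ext_of_forall_integral_eq_of_IsFiniteMeasure
    intro Ψ
    rw [hint, hint, h]
  rw [← withDensity_inv_same hm (hne m1 hm1) (Eventually.of_forall fun _ => ENNReal.ofReal_ne_top),
    he, withDensity_inv_same hm (hne m2 hm2) (Eventually.of_forall fun _ => ENNReal.ofReal_ne_top)]

/-- error bound for Riemann sums -/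
theorem riemann (g : ℝ → ℝ) (hg : Continuous g) (M u : ℕ) (hu : 0 < u) (ε : ℝ)
    (h : ∀ x y : ℝ, |x| ≤ M → |y| ≤ M → |x - y| ≤ 1 / u → |g x - g y| ≤ ε) :
    |(∑ b ∈ Ico (-((M * u : ℕ) : ℤ)) ((M * u : ℕ) : ℤ), g ((b : ℝ) / u)) / u -
      ∫ x in (-(M : ℝ))..M, g x| ≤ 2 * M * ε := by
  have hu' : (0 : ℝ) < u := by exact_mod_cast hu
  set N := M * u with hN
  have hNr : (N : ℝ) = M * u := by rw [hN]; push_cast; ring
  let a : ℕ → ℝ := fun k => (-(N : ℝ) + k) / u
  have ha0 : a 0 = -(M : ℝ) := by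
    simp only [a, hNr, Nat.cast_zero, add_zero]
    field_simp
  have haN : a (2 * N) = M := by
    simp only [a, hNr, Nat.cast_mul, Nat.cast_ofNat]
    field_simp
    ring
  have hstep : ∀ k, a (k + 1) = a k + 1 / u := by
    intro k
    simp only [a]
    push_cast
    ring
  have hlo : ∀ k, -(M : ℝ) ≤ a k := by
    intro k
    rw [← ha0]
    simp only [a]
    gcongr
    exact Nat.zero_le _
  have hhi : ∀ k, k ≤ 2 * N → a k ≤ M := by
    intro k hk
    rw [← haN]
    simp only [a]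
    gcongr
  have hI := intervalIntegral.sum_integral_adjacent_intervals (f := g) (μ := volume) (a := a)
    (n := 2 * N) fun k _ => hg.intervalIntegrable _ _
  rw [ha0, haN] at hI
  rw [RNM.sum_Ico_int (fun b => g ((b : ℝ) / u)) N, ← hI, Finset.sum_div,
    ← Finset.sum_sub_distrib]
  refine (Finset.abs_sum_le_sum_abs _ _).trans ?_
  have hb : ∀ k ∈ range (2 * N), |g (((-(N : ℤ) + k : ℤ) : ℝ) / u) / u -
      ∫ x in (a k)..(a (k + 1)), g x| ≤ ε * (1 / u) := by
    intro k hk
    rw [Finset.mem_range] at hk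
    have e1 : (((-(N : ℤ) + k : ℤ) : ℝ) / u) = a k := by
      simp only [a]
      push_cast
      rfl
    have hp : 0 < 1 / (u : ℝ) := by positivity
    have e2 : g (a k) / u - ∫ x in (a k)..(a (k + 1)), g x =
        ∫ x in (a k)..(a (k + 1)), (g (a k) - g x) := by
      rw [intervalIntegral.integral_sub (by simp) (hg.intervalIntegrable _ _),
        intervalIntegral.integral_const, hstep k]
      simp only [add_sub_cancel_left, smul_eq_mul]
      ring
    rw [e1, e2]
    have e3 := intervalIntegral.norm_integral_le_of_norm_le_const (a := a k) (b := a (k + 1))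
      (C := ε) (f := fun x => g (a k) - g x) (by
        intro x hx
        rw [Set.uIoc_of_le (by rw [hstep]; linarith)] at hx
        have b1 := hlo k
        have b2 := hhi (k + 1) hk
        have b3 := hstep k
        rw [Real.norm_eq_abs]
        apply h
        · rw [abs_le]; constructor <;> linarith
        · rw [abs_le]; constructor <;> linarith [hx.1, hx.2]
        · rw [abs_le]; constructor <;> linarith [hx.1, hx.2])
    rw [Real.norm_eq_abs, hstep k, add_sub_cancel_left, abs_of_pos hp] at e3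
    rw [hstep k]
    exact e3
  refine (Finset.sum_le_sum hb).trans (le_of_eq ?_)
  rw [Finset.sum_const, Finset.card_range, nsmul_eq_mul]
  push_cast
  rw [hNr]
  field_simp

/-- Riemann sums converge uniformly in a compact set of parameters -/
theorem riemann_unif {P : Type} [MetricSpace P] {Kc : Set P} (hK : IsCompact Kc)
    (g : P × ℝ → ℝ) (hg : Continuous g) (M : ℕ) (ε : ℝ) (hε : 0 < ε) :
    ∀ᶠ u : ℕ in atTop, ∀ d ∈ Kc,
      |(∑ b ∈ Ico (-((M * u : ℕ) : ℤ)) ((M * u : ℕ) : ℤ), g (d, (b : ℝ) / u)) / u -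
        ∫ x in (-(M : ℝ))..M, g (d, x)| ≤ ε := by
  have hC : IsCompact (Kc ×ˢ Set.Icc (-(M : ℝ)) M) := hK.prod isCompact_Icc
  have hU := hC.uniformContinuousOn_of_continuous hg.continuousOn
  rw [Metric.uniformContinuousOn_iff] at hU
  obtain ⟨δ, hδ, hδ'⟩ := hU (ε / (2 * M + 1)) (by positivity)
  have h1 : ∀ᶠ u : ℕ in atTop, 1 / (u : ℝ) < δ :=
    tendsto_one_div_atTop_nhds_zero_nat.eventually (gt_mem_nhds hδ)
  filter_upwards [h1, eventually_gt_atTop 0] with u hu hu0 d hd
  have h2 := riemann (fun x => g (d, x)) (by fun_prop) M u hu0 (ε / (2 * M + 1)) (by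
    intro x y hx hy hxy
    have := hδ' (d, x) ⟨hd, abs_le.1 hx⟩ (d, y) ⟨hd, abs_le.1 hy⟩ (by
      rw [Prod.dist_eq, dist_self, Real.dist_eq]
      exact max_lt hδ (hxy.trans_lt hu))
    rw [Real.dist_eq] at this
    exact this.le)
  refine h2.trans ?_
  rw [← mul_div_assoc, div_le_iff₀ (by positivity)]
  nlinarith

end ECub.Tn
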