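import Pool.Agent.P.MP_029dcd_co.F.T.Geo
import Pool.Agent.P.MP_029dcd_co.F.T.NM

/-! Layer T: limits of sums over canonical labels and over crossing pairs. -/

set_option autoImplicit false

namespace ECub.Tn

open CubicStab MeasureTheory Filter Topology Finset
open scoped ENNReal

/-- a compact set of data -/
def Kc (n : ℕ) (B0 B : ℝ) : Set (Dt n) :=
  Metric.closedBall 0 B0 ×ˢ Set.Icc (-B) B ×ˢ Metric.closedBall 0 1

/-- a compact set of data of lines of family `i` -/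
def Ki (n : ℕ) (B0 B : ℝ) (i : Fin 3) : Set (Dt n) :=
  Kc n B0 B ∩ {d | d.1 0 = 1 ∧ |d.1 1 - ctr i| ≤ 1 / 100}

theorem isCompact_Kc (n : ℕ) (B0 B : ℝ) : IsCompact (Kc n B0 B) :=
  (isCompact_closedBall _ _).prod (isCompact_Icc.prod (isCompact_closedBall _ _))

theorem isCompact_Ki (n : ℕ) (B0 B : ℝ) (i : Fin 3) : IsCompact (Ki n B0 B i) :=
  (isCompact_Kc n B0 B).inter_right
    ((isClosed_eq (f := fun d : Dt n => d.1 0) (by fun_prop) continuous_const).inter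
      (isClosed_le (f := fun d : Dt n => |d.1 1 - ctr i|) (by fun_prop) continuous_const))

theorem mem_Kc {n : ℕ} {B0 B : ℝ} {d : Dt n} :
    d ∈ Kc n B0 B ↔ ‖d.1‖ ≤ B0 ∧ |d.2.1| ≤ B ∧ ‖d.2.2‖ ≤ 1 := by
  simp [Kc, abs_le]

/-- the box of radius `M u` is large enough -/
structure BigM (Λ : (ℝ × ℝ) ≃L[ℝ] (ℝ × ℝ)) (q : ℝ) (A' M : ℕ) : Prop where
  pos : 0 < M
  nrm : ‖(Λ.symm : (ℝ × ℝ) →L[ℝ] (ℝ × ℝ))‖ * q < A'
  le : A' ≤ M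
  vis : ∀ {G : Gal} {k : ℕ} {C : ℝ}, G.Ax k C → G.Lin Λ → ∀ᶠ u : ℕ in atTop, ∀ l, G.valid l →
    |G.s l| ≤ 3 * q * G.R u → ∀ b : ℤ, |b| ≤ ((A' * u : ℕ) : ℤ) → (G.at' l b).1 ∈ hb (M * u)
  cr : ∀ {G : Gal} {k : ℕ} {C : ℝ}, G.Ax k C → G.Lin Λ → ∀ᶠ u : ℕ in atTop, ∀ w j j',
    G.cr w j j' = true → G.t (w, j) ≠ G.t (w, j') → |G.s (w, j)| ≤ 3 * q * G.R u →
    |G.s (w, j') - G.s (w, j)| ≤ 3 * q * G.R u * |G.t (w, j) - G.t (w, j')| → w ∈ hb (M * u)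

theorem exists_bigM {Λ : (ℝ × ℝ) ≃L[ℝ] (ℝ × ℝ)} (hΛ : LamOK Λ) (q : ℝ) :
    ∃ A' M, BigM Λ q A' M := by
  obtain ⟨A', hA'⟩ := exists_nat_gt (‖(Λ.symm : (ℝ × ℝ) →L[ℝ] (ℝ × ℝ))‖ * q)
  obtain ⟨A1, h1⟩ := Gal.vis hΛ (3 * q) A'
  obtain ⟨A2, h2⟩ := Gal.loc_cr hΛ (3 * q)
  refine ⟨A', A' + A1 + A2 + 1, by omega, hA', by omega, fun hG hL => ?_, fun hG hL => ?_⟩
  · filter_upwards [h1 hG hL, eventually_gt_atTop 0] with u h hu l hl hs b hb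
    exact box_subset_hb (by nlinarith) (h l hl hs b (by exact_mod_cast hb))
  · filter_upwards [h2 hG hL, eventually_gt_atTop 0] with u h hu w j j' a1 a2 a3 a4
    exact box_subset_hb (by nlinarith) (h w j j' a1 a2 a3 a4)

theorem tendsto_of_close {f g : ℕ → ℝ} {𝓕 : Filter ℕ} {a : ℝ} (hg : Tendsto g 𝓕 (𝓝 a))
    (h : ∀ ε : ℝ, 0 < ε → ∀ᶠ u in 𝓕, |f u - g u| ≤ ε) : Tendsto f 𝓕 (𝓝 a) := by
  have : Tendsto (fun u => f u - g u) 𝓕 (𝓝 0) := by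
    rw [Metric.tendsto_nhds]
    intro ε hε
    filter_upwards [h (ε / 2) (by positivity)] with u hu
    rw [Real.dist_eq, sub_zero]
    linarith
  simpa using this.add hg

theorem sum_close {J : Type} (B : Finset Z2) (s : Z2 → Finset J) (f g : Z2 → J → ℝ) {ε C a : ℝ}
    (hε : 0 ≤ ε) (ha : 0 < a) (h : ∀ w ∈ B, ∀ j ∈ s w, |f w j - g w j| ≤ ε)
    (hc : ∑ w ∈ B, ((s w).card : ℝ) ≤ C * a) :
    |(∑ w ∈ B, ∑ j ∈ s w, f w j) / a - (∑ w ∈ B, ∑ j ∈ s w, g w j) / a| ≤ ε * C := by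
  rw [← sub_div, abs_div, abs_of_pos ha, div_le_iff₀ ha, ← sum_sub_distrib]
  refine (abs_sum_le_sum_abs _ _).trans ?_
  calc _ ≤ ∑ w ∈ B, ε * ((s w).card : ℝ) := sum_le_sum fun w hw => by
        rw [← sum_sub_distrib]
        refine (abs_sum_le_sum_abs _ _).trans ((sum_le_sum (h w hw)).trans ?_)
        simp [mul_comm]
    _ ≤ _ := by rw [← mul_sum, mul_assoc]; exact mul_le_mul_of_nonneg_left hc hε

theorem unif_of_compact {Y : Type} [MetricSpace Y] {K : Set Y} (hK : IsCompact K) {f : Y → ℝ}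
    (hf : Continuous f) {ε : ℝ} (hε : 0 < ε) :
    ∃ δ : ℝ, 0 < δ ∧ ∀ x ∈ K, ∀ y ∈ K, dist x y ≤ δ → |f x - f y| ≤ ε :=
  Metric.uniformContinuousOn_iff_le.1 (hK.uniformContinuousOn_of_continuous hf.continuousOn) ε hε

section Ell

variable (Λ : (ℝ × ℝ) ≃L[ℝ] (ℝ × ℝ)) (i : Fin 3)

/-- the macroscopic index of a point -/
noncomputable def ell (X : ℝ × ℝ) : ℝ := if i = 1 then (Λ.symm X).1 else (Λ.symm X).2

/-- the slope clipped to the range of family `i` -/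
noncomputable def cl (t : ℝ) : ℝ := max (ctr i - 1 / 100) (min t (ctr i + 1 / 100))

/-- the abscissa of the point with a given index on a line -/
noncomputable def xx {n : ℕ} (y : Dt n × ℝ) : ℝ :=
  (y.2 - y.1.2.1 * ell Λ i (0, 1)) / ell Λ i (1, cl i (y.1.1 1))

theorem rho_eq (t : ℝ) : rho Λ i t = |ell Λ i (1, t)| := rfl

theorem continuous_ell : Continuous (ell Λ i) := by
  unfold ell
  split_ifs <;> fun_prop

theorem continuous_rho : Continuous (rho Λ i) :=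
  ((continuous_ell Λ i).comp (by fun_prop)).abs

theorem ell_lin (x s t : ℝ) : ell Λ i (x, s + t * x) = x * ell Λ i (1, t) + s * ell Λ i (0, 1) := by
  have : ((x, s + t * x) : ℝ × ℝ) = x • ((1, t) : ℝ × ℝ) + s • ((0, 1) : ℝ × ℝ) := by
    ext <;> simp; ring
  rw [this]
  unfold ell
  split_ifs <;> simp only [map_add, map_smul, Prod.fst_add, Prod.snd_add, Prod.smul_fst,
    Prod.smul_snd, smul_eq_mul]

theorem ell_pos (u : ℕ) (w : Z2) : ell Λ i (Λ (pos u w)) = (idx i w : ℝ) / u := by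
  unfold ell idx pos
  split_ifs <;> simp

theorem abs_ell_le (X : ℝ × ℝ) :
    |ell Λ i X| ≤ ‖(Λ.symm : (ℝ × ℝ) →L[ℝ] (ℝ × ℝ))‖ * ‖X‖ := by
  refine le_trans ?_ ((Λ.symm : (ℝ × ℝ) →L[ℝ] (ℝ × ℝ)).le_opNorm X)
  unfold ell
  split_ifs
  · exact norm_fst_le (Λ.symm X)
  · exact norm_snd_le (Λ.symm X)

theorem cl_mem (t : ℝ) : |cl i t - ctr i| ≤ 1 / 100 := by
  rw [abs_le, cl]
  constructor
  · linarith [le_max_left (ctr i - 1 / 100) (min t (ctr i + 1 / 100))]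
  · have : max (ctr i - 1 / 100) (min t (ctr i + 1 / 100)) ≤ ctr i + 1 / 100 :=
      max_le (by linarith) (min_le_right _ _)
    linarith

theorem cl_eq {t : ℝ} (h : |t - ctr i| ≤ 1 / 100) : cl i t = t := by
  obtain ⟨h1, h2⟩ := abs_le.1 h
  rw [cl, min_eq_left (by linarith), max_eq_right (by linarith)]

variable {Λ}

theorem ell_ne (hΛ : LamOK Λ) {t : ℝ} (h : |t - ctr i| ≤ 1 / 100) : ell Λ i (1, t) ≠ 0 := by
  obtain ⟨r1, r2, h1, h2⟩ := rho_bounds hΛ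
  exact abs_pos.1 (h1.trans_le (h2 i t h).1)

theorem continuous_xx (hΛ : LamOK Λ) {n : ℕ} : Continuous (xx Λ i (n := n)) := by
  refine Continuous.div (by fun_prop) ((continuous_ell Λ i).comp ?_)
    fun y => ell_ne i hΛ (cl_mem i _)
  unfold cl
  fun_prop

theorem ell_xx (hΛ : LamOK Λ) {n : ℕ} {d : Dt n} (h : |d.1 1 - ctr i| ≤ 1 / 100) (β : ℝ) :
    ell Λ i (xx Λ i (d, β), d.2.1 + d.1 1 * xx Λ i (d, β)) = β := by
  have := ell_ne i hΛ h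
  rw [ell_lin, xx, cl_eq i h]
  field_simp
  ring

theorem xx_ell (hΛ : LamOK Λ) {n : ℕ} {d : Dt n} (h : |d.1 1 - ctr i| ≤ 1 / 100) (X : ℝ × ℝ)
    (hX : d.2.1 = X.2 - d.1 1 * X.1) : xx Λ i (d, ell Λ i X) = X.1 := by
  have := ell_ne i hΛ h
  have e : X = (X.1, d.2.1 + d.1 1 * X.1) := by rw [hX]; simp
  rw [xx, cl_eq i h]
  conv_lhs => rw [e, ell_lin]
  field_simp
  ring

end Ell

theorem abs_le_two {i : Fin 3} {t : ℝ} (h : |t - ctr i| ≤ 1 / 100) : |t| ≤ 2 := by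
  have : |ctr i| ≤ 1 := by fin_cases i <;> simp [ctr]
  have h1 := abs_le.1 this
  have h2 := abs_le.1 h
  exact abs_le.2 ⟨by linarith, by linarith⟩

theorem mem_Q {q : ℝ} {X : ℝ × ℝ} : X ∈ Q q ↔ |X.1| < q ∧ |X.2| < q := by
  simp [Q, abs_lt]

theorem norm_lt_of_mem_Q {q : ℝ} {X : ℝ × ℝ} (h : X ∈ Q q) : ‖X‖ < q :=
  max_lt (mem_Q.1 h).1 (mem_Q.1 h).2

theorem off_le_of_mem_Q {q x s t : ℝ} (ht : |t| ≤ 2) (h : (x, s + t * x) ∈ Q q) : |s| ≤ 3 * q := by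
  obtain ⟨h1, h2⟩ := mem_Q.1 h
  have h3 : |t * x| ≤ 2 * q := by
    rw [abs_mul]
    exact mul_le_mul ht h1.le (abs_nonneg _) (by norm_num)
  have h4 := abs_le.1 h3
  have h5 := abs_lt.1 h2
  exact abs_le.2 ⟨by linarith [h5.1], by linarith [h5.2]⟩

theorem xp_eq {n : ℕ} {d d' : Dt n} (h : d.1 1 ≠ d'.1 1) :
    xp d d' = ((xp d d').1, d'.2.1 + d'.1 1 * (xp d d').1) := by
  have := sub_ne_zero.2 h
  simp only [xp, Prod.mk.injEq, true_and]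
  field_simp
  ring

/-- the properties of a galaxy and its marks that are used in the limits -/
structure Good (S : Sys) (Λ : (ℝ × ℝ) ≃L[ℝ] (ℝ × ℝ)) (A : Set (S.Ω × ℕ)) {n : ℕ}
    (ν : S.Ω × ℕ → E n) (B0 : ℝ) (ω : S.Ω) (hu : ℕ → Lb → H n) : Prop where
  ok : LamOK Λ
  mk0 : S.Marks0 ν
  lin : (S.Γ ω).Lin Λ
  lν : (S.Γ ω).LineC (S.ev ν ω)
  lA : (S.Γ ω).LineC (S.ev (fun x => x ∈ A) ω)
  lh : ∀ u, (S.Γ ω).LineC (hu u)
  bh : ∀ u l, ‖hu u l‖ ≤ 1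
  bν : ∀ x, ‖ν x‖ ≤ B0

variable {S : Sys} {Λ : (ℝ × ℝ) ≃L[ℝ] (ℝ × ℝ)} {A : Set (S.Ω × ℕ)} {n : ℕ} {ν : S.Ω × ℕ → E n}
  {B0 : ℝ} {ω : S.Ω} {hu : ℕ → Lb → H n}

theorem Good.line_du (hg : Good S Λ A ν B0 ω hu) (u : ℕ) : (S.Γ ω).LineC (du S ν ω hu u) :=
  fun l l' h1 h2 h3 => by
    simp only [du, hg.lν l l' h1 h2 h3, (S.ax ω).same_s l l' h1 h2 h3, hg.lh u l l' h1 h2 h3]

theorem Good.slope (hg : Good S Λ A ν B0 ω hu) {l : Lb} (hl : (S.Γ ω).valid l) :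
    |S.ev ν ω l 1 - ctr ((S.Γ ω).fam l)| ≤ 1 / 100 := by
  rw [ev_one hg.mk0 hl]
  exact (S.ax ω).slope l hl

theorem Good.du_mem (hg : Good S Λ A ν B0 ω hu) {q : ℝ} {u : ℕ} (hR : 0 < (S.Γ ω).R u) {i : Fin 3}
    {l : Lb} (hl : l ∈ S.lnsA A ω i (3 * q * (S.Γ ω).R u)) :
    du S ν ω hu u l ∈ Ki n B0 (3 * q) i := by
  obtain ⟨⟨h1, h2⟩, -⟩ := (mem_lnsA hg.ok hg.lin).1 hl
  refine ⟨mem_Kc.2 ⟨hg.bν _, ?_, hg.bh _ _⟩, hg.mk0.one _, ?_⟩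
  · simp only [du]
    rwa [abs_div, abs_of_pos hR, div_le_iff₀ hR]
  · have := hg.slope h1.1.1
    rwa [h1.1.2.1] at this

theorem Good.data_close (hg : Good S Λ A ν B0 ω hu) (M : ℕ) : ∃ B : ℝ, ∀ δ : ℝ, 0 < δ →
    ∀ᶠ u : ℕ in atTop, 0 < (S.Γ ω).R u ∧ ∀ l, (S.Γ ω).valid l → l.1 ∈ hb (M * u) →
      du S ν ω hu u l ∈ Kc n B0 B ∧ dw S Λ ν ω hu u l ∈ Kc n B0 B ∧
        dist (dw S Λ ν ω hu u l) (du S ν ω hu u l) ≤ δ := by
  refine ⟨3 * (‖(Λ : (ℝ × ℝ) →L[ℝ] (ℝ × ℝ))‖ * M) + 1, fun δ hδ => ?_⟩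
  filter_upwards [close hg.lin M (min δ 1) (by positivity)] with u h
  refine ⟨h.1, fun l hl hw => ?_⟩
  have h1 := h.2 l hl hw
  have h2 : ‖Λ (pos u l.1)‖ ≤ ‖(Λ : (ℝ × ℝ) →L[ℝ] (ℝ × ℝ))‖ * M :=
    (Λ : (ℝ × ℝ) →L[ℝ] (ℝ × ℝ)).le_of_opNorm_le_of_le le_rfl (norm_pos_le hw)
  have h3 : |(Λ (pos u l.1)).1| ≤ _ := (norm_fst_le (Λ (pos u l.1))).trans h2
  have h4 : |(Λ (pos u l.1)).2| ≤ _ := (norm_snd_le (Λ (pos u l.1))).trans h2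
  have h5 : |(S.Γ ω).t l * (Λ (pos u l.1)).1| ≤ 2 * (‖(Λ : (ℝ × ℝ) →L[ℝ] (ℝ × ℝ))‖ * M) := by
    rw [abs_mul]
    exact mul_le_mul (abs_t_le hl) h3 (abs_nonneg _) (by norm_num)
  have h6 := abs_le.1 h4
  have h7 := abs_le.1 h5
  have h8 := abs_le.1 (h1.trans (min_le_right _ _))
  refine ⟨mem_Kc.2 ⟨hg.bν _, ?_, hg.bh _ _⟩, mem_Kc.2 ⟨hg.bν _, ?_, hg.bh _ _⟩, ?_⟩
  · exact abs_le.2 ⟨by simp only [du]; linarith, by simp only [du]; linarith⟩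
  · simp only [dw, ev_one hg.mk0 hl]
    exact abs_le.2 ⟨by linarith, by linarith⟩
  · simp only [dw, du, Prod.dist_eq, dist_self, ev_one hg.mk0 hl, Real.dist_eq, max_le_iff,
      hδ.le, true_and, and_true]
    rw [abs_sub_comm]
    exact h1.trans (min_le_left _ _)

/-- the limit of sums over canonical labels -/
theorem Good.lim1 (hg : Good S Λ A ν B0 ω hu) {q : ℝ} {A' M : ℕ} (hM : BigM Λ q A' M)
    {𝓕 : Filter ℕ} (h𝓕 : 𝓕 ≤ atTop) (i : Fin 3) (nm : Measure (Dt n))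
    (hs : nm (Ki n B0 (3 * q) i)ᶜ = 0)
    (hnm : ∀ F : Dt n → ℝ, Continuous F → Tendsto (fun u : ℕ =>
      (∑ l ∈ S.lnsA A ω i (3 * q * (S.Γ ω).R u), F (du S ν ω hu u l)) / (u : ℝ)) 𝓕
      (𝓝 (∫ d, F d ∂nm)))
    (hcount : ∃ C : ℝ, 0 < C ∧ ∀ᶠ u : ℕ in atTop,
      ∑ w ∈ hb (M * u), ((sec1 S A i (S.T w ω)).card : ℝ) ≤ C * (u : ℝ) ^ 2)
    (hfew : ∃ K : ℝ, 0 < K ∧ ∀ᶠ u : ℕ in atTop,
      ((S.lnsA A ω i (3 * q * (S.Γ ω).R u)).card : ℝ) ≤ K * u)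
    (G : Dt n × ℝ → ℝ) (hG : Continuous G)
    (hG0 : ∀ y, G y ≠ 0 → (y.2, y.1.2.1 + y.1.1 1 * y.2) ∈ Q q) :
    Tendsto (fun u : ℕ => (∑ w ∈ hb (M * u), ∑ j ∈ sec1 S A i (S.T w ω),
      G (dw S Λ ν ω hu u (w, j), (Λ (pos u w)).1)) / (u : ℝ) ^ 2) 𝓕
      (𝓝 (∫ d, rho Λ i (d.1 1) * ∫ x, G (d, x) ∂volume ∂nm)) := by
  obtain ⟨C, hC, hcount⟩ := hcount
  obtain ⟨K, hK, hfew⟩ := hfew
  obtain ⟨B, hB⟩ := hg.data_close M
  set Gt : Dt n × ℝ → ℝ := fun y => G (y.1, xx Λ i y) with hGt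
  have cGt : Continuous Gt := hG.comp (continuous_fst.prodMk (continuous_xx i hg.ok))
  have k2 : ∀ (d : Dt n) (β : ℝ), |d.1 1 - ctr i| ≤ 1 / 100 → Gt (d, β) ≠ 0 →
      |d.2.1| ≤ 3 * q ∧ |β| < A' := fun d β hd h => by
    have h1 := hG0 _ h
    refine ⟨off_le_of_mem_Q (abs_le_two hd) h1, ?_⟩
    rw [← ell_xx i hg.ok hd β]
    exact (abs_ell_le Λ i _).trans_lt ((mul_le_mul_of_nonneg_left (norm_lt_of_mem_Q h1).le
      (norm_nonneg _)).trans_lt hM.nrm)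
  have k3 : ∀ d : Dt n, |d.1 1 - ctr i| ≤ 1 / 100 →
      ∫ β in (-(A' : ℝ))..A', Gt (d, β) = rho Λ i (d.1 1) * ∫ x, G (d, x) := fun d hd => by
    rw [intervalIntegral.integral_eq_integral_of_support_subset
      (fun β h => ⟨(abs_lt.1 (k2 d β hd h).2).1, (abs_lt.1 (k2 d β hd h).2).2.le⟩)]
    simp only [hGt, xx, cl_eq i hd]
    rw [integral_sub_right_eq_self (fun β => G (d, β / ell Λ i (1, d.1 1))),
      Measure.integral_comp_div (fun x => G (d, x)), rho_eq, smul_eq_mul]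
  have cF : Continuous fun d : Dt n => ∫ β in (-(A' : ℝ))..A', Gt (d, β) :=
    intervalIntegral.continuous_parametric_intervalIntegral_of_continuous' cGt _ _
  have e : ∫ d, rho Λ i (d.1 1) * ∫ x, G (d, x) ∂volume ∂nm =
      ∫ d, (∫ β in (-(A' : ℝ))..A', Gt (d, β)) ∂nm :=
    integral_congr_ae (by
      filter_upwards [mem_ae_iff.2 hs] with d hd
      exact (k3 d hd.2.2).symm)
  rw [e]
  refine tendsto_of_close (hnm _ cF) fun ε hε => h𝓕 ?_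
  obtain ⟨δ, hδ, hδ'⟩ := unif_of_compact ((isCompact_Kc n B0 B).prod
    (isCompact_Icc (a := -(M : ℝ)) (b := M))) cGt (ε := ε / 2 / C) (by positivity)
  filter_upwards [hB δ hδ, hcount, hfew, hM.vis (S.ax ω) hg.lin, eventually_gt_atTop 0,
    riemann_unif (isCompact_Kc n B0 (3 * q)) Gt cGt A' (ε / 2 / K) (by positivity)]
    with u h1 h2 h3 h4 h5 h6
  have hu0 : (0 : ℝ) < u := by exact_mod_cast h5
  have s1 := sum_close (hb (M * u)) (fun w => sec1 S A i (S.T w ω))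
    (fun w j => G (dw S Λ ν ω hu u (w, j), (Λ (pos u w)).1))
    (fun w j => Gt (du S ν ω hu u (w, j), (idx i w : ℝ) / u)) (ε := ε / 2 / C) (by positivity)
    (by positivity) (fun w hw j hj => by
      obtain ⟨c1, -⟩ := mem_sec1_T.1 hj
      obtain ⟨a1, a2, a3⟩ := h1.2 (w, j) c1.1 hw
      have a4 : |(dw S Λ ν ω hu u (w, j)).1 1 - ctr i| ≤ 1 / 100 := by
        have := hg.slope c1.1
        rwa [c1.2.1] at this
      have a5 : (idx i w : ℝ) / u ∈ Set.Icc (-(M : ℝ)) M := by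
        have b1 : |(pos u w).1| ≤ M := (norm_fst_le (pos u w)).trans (norm_pos_le hw)
        have b2 : |(pos u w).2| ≤ M := (norm_snd_le (pos u w)).trans (norm_pos_le hw)
        unfold idx
        split_ifs
        · exact abs_le.1 b1
        · exact abs_le.1 b2
      rw [← xx_ell i hg.ok a4 (Λ (pos u w)) rfl, ell_pos]
      exact hδ' (_, _) ⟨a2, a5⟩ (_, _) ⟨a1, a5⟩ (max_le a3 (by simpa using hδ.le))) h2
  rw [sum1 hg.ok hg.lin hg.lA i (3 * q * (S.Γ ω).R u) (A' * u) (M * u)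
    (fun l b => Gt (du S ν ω hu u l, (b : ℝ) / u))
    (fun l l' a1 a2 a3 => by simp only [hg.line_du u l l' a1 a2 a3])
    (fun l b a1 a2 a3 => by
      obtain ⟨b1, b2⟩ := k2 _ _ (by have := hg.slope a1; rwa [a2] at this) a3
      simp only [du] at b1
      rw [abs_div, abs_of_pos h1.1, div_le_iff₀ h1.1] at b1
      rw [abs_div, abs_of_pos hu0, div_lt_iff₀ hu0, abs_lt] at b2
      exact ⟨b1, by exact_mod_cast b2.1.le, by exact_mod_cast b2.2⟩) h4] at s1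
  have s2 : |(∑ l ∈ S.lnsA A ω i (3 * q * (S.Γ ω).R u),
        ∑ b ∈ Ico (-((A' * u : ℕ) : ℤ)) ((A' * u : ℕ) : ℤ), Gt (du S ν ω hu u l, (b : ℝ) / u)) /
        (u : ℝ) ^ 2 - (∑ l ∈ S.lnsA A ω i (3 * q * (S.Γ ω).R u),
        ∫ β in (-(A' : ℝ))..A', Gt (du S ν ω hu u l, β)) / u| ≤ ε / 2 / K * K := by
    rw [sq, ← div_div, sum_div, ← sub_div, ← sum_sub_distrib, abs_div, abs_of_pos hu0,
      div_le_iff₀ hu0]
    refine (abs_sum_le_sum_abs _ _).trans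
      ((sum_le_sum fun l hl => h6 _ (hg.du_mem h1.1 hl).1).trans ?_)
    rw [sum_const, nsmul_eq_mul, mul_comm, mul_assoc (ε / 2 / K)]
    exact mul_le_mul_of_nonneg_left h3 (by positivity)
  rw [div_mul_cancel₀ _ hC.ne'] at s1
  rw [div_mul_cancel₀ _ hK.ne'] at s2
  exact (abs_sub_le _ _ _).trans ((add_le_add s1 s2).trans (add_halves ε).le)

/-- the limit of sums over crossing pairs -/
theorem Good.lim2 (hg : Good S Λ A ν B0 ω hu) {q : ℝ} {A' M : ℕ} (hM : BigM Λ q A' M)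
    {𝓕 : Filter ℕ} (h𝓕 : 𝓕 ≤ atTop) (i i' : Fin 3)
    (hcount : ∃ C : ℝ, 0 < C ∧ ∀ᶠ u : ℕ in atTop,
      ∑ w ∈ hb (M * u), ((sec2 S A i i' (S.T w ω)).card : ℝ) ≤ C * (u : ℝ) ^ 2)
    (G : Dt n × Dt n → ℝ) (hG : Continuous G)
    (hG0 : ∀ y, G y ≠ 0 → y.1.1 1 ≠ y.2.1 1 ∧ xp y.1 y.2 ∈ Q q) {a : ℝ}
    (hnm : Tendsto (fun u : ℕ => (∑ l ∈ S.lnsA A ω i (3 * q * (S.Γ ω).R u),
      ∑ l' ∈ S.lnsA A ω i' (3 * q * (S.Γ ω).R u), G (du S ν ω hu u l, du S ν ω hu u l')) /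
      (u : ℝ) ^ 2) 𝓕 (𝓝 a)) :
    Tendsto (fun u : ℕ => (∑ w ∈ hb (M * u), ∑ p ∈ sec2 S A i i' (S.T w ω),
      G (dw S Λ ν ω hu u (w, p.1), dw S Λ ν ω hu u (w, p.2))) / (u : ℝ) ^ 2) 𝓕 (𝓝 a) := by
  obtain ⟨C, hC, hcount⟩ := hcount
  obtain ⟨B, hB⟩ := hg.data_close M
  refine tendsto_of_close hnm fun ε hε => h𝓕 ?_
  obtain ⟨δ, hδ, hδ'⟩ := unif_of_compact ((isCompact_Kc n B0 B).prod (isCompact_Kc n B0 B)) hG
    (ε := ε / C) (by positivity)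
  filter_upwards [hB δ hδ, hcount, hM.cr (S.ax ω) hg.lin, eventually_gt_atTop 0]
    with u h1 h2 h4 h5
  have hu0 : (0 : ℝ) < u := by exact_mod_cast h5
  have hR := h1.1
  have s1 := sum_close (hb (M * u)) (fun w => sec2 S A i i' (S.T w ω))
    (fun w p => G (dw S Λ ν ω hu u (w, p.1), dw S Λ ν ω hu u (w, p.2)))
    (fun w p => G (du S ν ω hu u (w, p.1), du S ν ω hu u (w, p.2))) (ε := ε / C) (by positivity)
    (by positivity) (fun w hw p hp => by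
      obtain ⟨⟨c1, -⟩, -⟩ := mem_sec2_T.1 hp
      obtain ⟨v1, v2, -⟩ := (S.ax ω).cr_valid _ _ _ c1
      obtain ⟨a1, a2, a3⟩ := h1.2 (w, p.1) v1 hw
      obtain ⟨b1, b2, b3⟩ := h1.2 (w, p.2) v2 hw
      exact hδ' (_, _) ⟨a2, b2⟩ (_, _) ⟨a1, b1⟩ (max_le a3 b3)) h2
  have key : ∀ l l', (S.Γ ω).valid l → (S.Γ ω).valid l' →
      G (du S ν ω hu u l, du S ν ω hu u l') ≠ 0 →
      (|(S.Γ ω).s l| ≤ 3 * q * (S.Γ ω).R u ∧ |(S.Γ ω).s l'| ≤ 3 * q * (S.Γ ω).R u ∧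
        (S.Γ ω).t l ≠ (S.Γ ω).t l') ∧ |(S.Γ ω).s l' - (S.Γ ω).s l| ≤
          3 * q * (S.Γ ω).R u * |(S.Γ ω).t l - (S.Γ ω).t l'| := fun l l' v1 v2 h => by
    obtain ⟨a1, a2⟩ := hG0 _ h
    have b1 := off_le_of_mem_Q (abs_le_two (hg.slope v1)) a2
    have b2 := off_le_of_mem_Q (abs_le_two (hg.slope v2)) (xp_eq a1 ▸ a2)
    have b3 := (mem_Q.1 a2).1
    simp only [du, xp, ev_one hg.mk0 v1, ev_one hg.mk0 v2] at a1 b1 b2 b3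
    rw [abs_div, abs_of_pos hR, div_le_iff₀ hR] at b1 b2
    have b4 := abs_pos.2 (sub_ne_zero.2 a1)
    rw [abs_div, div_lt_iff₀ b4, ← sub_div, abs_div, abs_of_pos hR, div_lt_iff₀ hR] at b3
    refine ⟨⟨b1, b2, a1⟩, ?_⟩
    nlinarith [abs_nonneg ((S.Γ ω).s l' - (S.Γ ω).s l)]
  rw [sum2 hg.ok hg.lin hg.lA i i' (3 * q * (S.Γ ω).R u) (M * u) (du S ν ω hu u) (hg.line_du u) G
    (fun l l' v1 v2 h => (key l l' v1 v2 h).1) (fun w j j' c h => by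
      obtain ⟨v1, v2, -⟩ := (S.ax ω).cr_valid _ _ _ c
      obtain ⟨⟨a1, -, a2⟩, a3⟩ := key _ _ v1 v2 h
      exact h4 w j j' c a2 a1 a3), div_mul_cancel₀ _ hC.ne'] at s1
  exact s1

end ECub.Tn
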