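import Pool.Agent.P.MP_029dcd_co.F.T.TanEx
import Pool.Agent.P.MP_029dcd_co.F.T.Marg

/-! Layer T: product bounds. -/

set_option autoImplicit false

namespace ECub.Tn

open CubicStab MeasureTheory Filter Topology Finset
open scoped ENNReal

namespace RPf

theorem ae_slope (S : Sys) (A : Set (S.Ω × ℕ)) {n : ℕ} {ν : S.Ω × ℕ → E n} (hν : S.Marks0 ν)
    (i : Fin 3) : ∀ᵐ a ∂(S.mA A ν i), |a 1 - ctr i| ≤ 1 / 100 := by
  have hm : MeasurableSet {a : E n | |a 1 - ctr i| ≤ 1 / 100} :=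
    (isClosed_le (by fun_prop) continuous_const).measurableSet
  unfold Sys.mA
  rw [ae_map_iff hν.meas.aemeasurable hm]
  refine ae_restrict_of_ae ?_
  unfold Sys.mh
  rw [ae_iff]
  have hm' : MeasurableSet {x : S.Ω × ℕ | ¬ |ν x 1 - ctr i| ≤ 1 / 100} := (hν.meas hm).compl
  rw [Measure.restrict_apply hm']
  refine measure_mono_null (t := ∅) ?_ measure_empty
  rintro x ⟨h1, h2⟩
  have h3 := (S.ax x.1).slope _ h2.1
  rw [h2.2.1] at h3
  exact h1 (by rw [hν.slope x h2.1]; exact h3)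

/-- the lines that meet the square -/
def Meet (n : ℕ) : Set (E n × ℝ) := {y | ∃ x : ℝ, (x, y.2 + y.1 1 * x) ∈ Q 1}

theorem isOpen_Q (q : ℝ) : IsOpen (Q q) := isOpen_Ioo.prod isOpen_Ioo

theorem meas_Meet (n : ℕ) : MeasurableSet (Meet n) := by
  have : Meet n = ⋃ x : ℝ, (fun y : E n × ℝ => (x, y.2 + y.1 1 * x)) ⁻¹' Q 1 := by
    ext y
    simp [Meet]
  rw [this]
  exact (isOpen_iUnion fun x => (isOpen_Q 1).preimage (by fun_prop)).measurableSet

theorem vol_Q_ne : volume (Q 1) ≠ 0 :=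
  ((isOpen_Q 1).measure_pos volume ⟨(0, 0), by simp [Q]⟩).ne'

instance mA_finite (S : Sys) (A : Set (S.Ω × ℕ)) {n : ℕ} (ν : S.Ω × ℕ → E n) (i : Fin 3) :
    IsFiniteMeasure (S.mA A ν i) := by
  unfold Sys.mA
  infer_instance

theorem nm_le {S : Sys} {Λ : (ℝ × ℝ) ≃L[ℝ] (ℝ × ℝ)} (hΛ : S.Lin Λ) {A : Set (S.Ω × ℕ)}
    (hA : S.LineSet A) {n : ℕ} {ν : S.Ω × ℕ → E n} (hν : S.Marks0 ν) (τ : Tan S Λ A ν 1)
    (i : Fin 3) {r : ℝ} (hr : ∀ t, |t - ctr i| ≤ 1 / 100 → r ≤ rho Λ i t) :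
    ((τ.nm i).restrict ((fun d : Dt n => (d.1, d.2.1)) ⁻¹' Meet n)).map Prod.fst ≤
      (((τ.c : ℝ≥0∞) * volume (Q 1) * ENNReal.ofReal r)⁻¹ * 6) • S.mA A ν i := by
  refine Measure.le_iff.2 fun s hs => ?_
  have hg : Measurable fun d : Dt n => (d.1, d.2.1) := by fun_prop
  have hsI : MeasurableSet (s ×ˢ Set.Icc (-3 : ℝ) 3) := hs.prod measurableSet_Icc
  have h1 : ((τ.nm i).restrict ((fun d : Dt n => (d.1, d.2.1)) ⁻¹' Meet n)).map Prod.fst s ≤
      ((τ.nm i).map fun d => (d.1, d.2.1)).restrict (Meet n) (s ×ˢ Set.Icc (-3 : ℝ) 3) := by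
    rw [Measure.map_apply measurable_fst hs, Measure.restrict_apply (measurable_fst hs),
      Measure.restrict_apply hsI, Measure.map_apply hg (hsI.inter (meas_Meet n))]
    obtain ⟨B, hB⟩ := τ.nm_supp
    refine measure_mono_ae ((hB i).mono fun d hd h => ⟨⟨h.1, ?_⟩, h.2⟩)
    exact abs_le.1 (by simpa using hd.2.2.2.1)
  have h2 := marg hΛ hA hν one_pos τ i
  refine h1.trans ?_
  unfold Meet
  rw [h2]
  refine (Measure.restrict_le_self _).trans ?_
  rw [Measure.prod_prod, Real.volume_Icc, Measure.smul_apply, smul_eq_mul, mul_right_comm,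
    show ENNReal.ofReal (3 - -3) = 6 by norm_num, withDensity_apply _ hs]
  refine mul_le_mul_left ?_ _
  refine le_trans (lintegral_mono_ae (ae_restrict_of_ae ((ae_slope S A hν i).mono fun a ha => ?_)))
    (setLIntegral_const s _).le
  exact ENNReal.inv_le_inv.2 (mul_le_mul_right (ENNReal.ofReal_le_ofReal (hr _ ha)) _)

theorem meas_pair {Ω : Type} [MeasurableSpace Ω] {β : Type} [MeasurableSpace β] {f : Ω × ℕ → β}
    (hf : Measurable f) : Measurable fun x : Ω × ℕ × ℕ => (f (x.1, x.2.1), f (x.1, x.2.2)) :=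
  (hf.comp (by fun_prop)).prodMk (hf.comp (by fun_prop))

theorem meas_pairs {Ω : Type} [MeasurableSpace Ω] {A : Set (Ω × ℕ)} (hA : MeasurableSet A) :
    MeasurableSet {x : Ω × ℕ × ℕ | (x.1, x.2.1) ∈ A ∧ (x.1, x.2.2) ∈ A} :=
  (meas_pair measurable_id) (hA.prod hA)

theorem slope_ne {i j : Fin 3} (hij : i ≠ j) {t : ℝ} (hi : |t - ctr i| ≤ 1 / 100)
    (hj : |t - ctr j| ≤ 1 / 100) : False := by
  rw [abs_le] at hi hj
  fin_cases i <;> fin_cases j <;> simp [ctr] at hij hi hj <;> linarith [hi.1, hi.2, hj.1, hj.2]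

theorem map_le_pm (S : Sys) {A : Set (S.Ω × ℕ)} (hA : MeasurableSet A) {i j : Fin 3}
    (hij : i ≠ j) :
    (S.μ.restrict (S.TA A)).map (fun ω => (ω, (S.Γ ω).tl 0 i, (S.Γ ω).tl 0 j)) ≤
      (S.pm i j).restrict {x | (x.1, x.2.1) ∈ A ∧ (x.1, x.2.2) ∈ A} := by
  have hφ : Measurable fun ω => (ω, (S.Γ ω).tl 0 i, (S.Γ ω).tl 0 j) :=
    measurable_id.prodMk ((S.meas.tl 0 i).prodMk (S.meas.tl 0 j))
  have hpm : MeasurableSet {x : S.Ω × ℕ × ℕ | (S.Γ x.1).cr 0 x.2.1 x.2.2 = true ∧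
      (S.Γ x.1).fam (0, x.2.1) = i ∧ (S.Γ x.1).fam (0, x.2.2) = j ∧
      (S.Γ x.1).t (0, x.2.1) ≠ (S.Γ x.1).t (0, x.2.2)} := by
    refine measurableSet_setOfPred.2 (measurable_from_prod_countable_left fun p => ?_)
    have h1 : Measurable fun ω => (S.Γ ω).cr 0 p.1 p.2 = true :=
      (measurable_of_countable fun n : Bool => n = true).comp (S.meas.cr 0 p.1 p.2)
    have h2 : ∀ a k, Measurable fun ω => (S.Γ ω).fam (0, a) = k := fun a k =>
      (measurable_of_countable fun n : Fin 3 => n = k).comp (S.meas.fam (0, a))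
    have h3 : Measurable fun ω => (S.Γ ω).t (0, p.1) = (S.Γ ω).t (0, p.2) :=
      measurableSet_setOfPred.1 (measurableSet_eq_fun (S.meas.t _) (S.meas.t _))
    exact h1.and ((h2 p.1 i).and ((h2 p.2 j).and h3.not))
  refine Measure.le_iff.2 fun B hB => ?_
  rw [Measure.map_apply hφ hB, Measure.restrict_apply (hφ hB), Measure.restrict_apply hB, Sys.pm,
    Measure.restrict_apply (hB.inter (meas_pairs hA)),
    Measure.prod_apply ((hB.inter (meas_pairs hA)).inter hpm),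
    ← lintegral_indicator_one ((hφ hB).inter (S.measurableSet_TA hA))]
  refine lintegral_mono fun ω => ?_
  by_cases h : ω ∈ (fun ω => (ω, (S.Γ ω).tl 0 i, (S.Γ ω).tl 0 j)) ⁻¹' B ∩ S.TA A
  swap
  · rw [Set.indicator_of_notMem h]
    exact zero_le
  rw [Set.indicator_of_mem h]
  have h1 : (Measure.count.prod Measure.count : Measure (ℕ × ℕ))
      {((S.Γ ω).tl 0 i, (S.Γ ω).tl 0 j)} = 1 := by
    rw [← Set.singleton_prod_singleton, Measure.prod_prod, Measure.count_singleton,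
      Measure.count_singleton, one_mul]
  refine h1.ge.trans (measure_mono (Set.singleton_subset_iff.2 ?_))
  have ci := (S.ax ω).tp_can 0 h.2.1 i
  have cj := (S.ax ω).tp_can 0 h.2.1 j
  refine ⟨⟨h.1, h.2.2 i, h.2.2 j⟩, (S.ax ω).tp_cr 0 h.2.1 i j hij, ci.2.1, cj.2.1, fun e => ?_⟩
  have si := (S.ax ω).slope _ ci.1
  have sj := (S.ax ω).slope _ cj.1
  rw [ci.2.1] at si
  rw [cj.2.1] at sj
  have e' : (S.Γ ω).t ((S.Γ ω).tlab 0 i) = (S.Γ ω).t ((S.Γ ω).tlab 0 j) := e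
  exact slope_ne hij si (e' ▸ sj)

open Classical in
/-- marks that record the membership in two sets of lines -/
noncomputable def mk2 (S : Sys) (B B' : Set (S.Ω × ℕ)) (x : S.Ω × ℕ) : E 2 :=
  ![1, if (S.Γ x.1).valid (0, x.2) then S.sl x else 0, if x ∈ B then 1 else 0,
    if x ∈ B' then 1 else 0]

theorem marks_mk2 (S : Sys) {B B' : Set (S.Ω × ℕ)} (hB : S.LineSet B) (hB' : S.LineSet B') :
    S.Marks0 (mk2 S B B') where
  meas := by
    have hv : MeasurableSet {x : S.Ω × ℕ | (S.Γ x.1).valid (0, x.2)} :=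
      measurableSet_setOfPred.2 (measurable_from_prod_countable_left fun j =>
        (measurable_of_countable fun n : ℕ => j < n).comp (S.meas.g 0))
    refine measurable_pi_iff.2 fun k => ?_
    fin_cases k
    · exact measurable_const
    · exact Measurable.ite hv S.measurable_sl measurable_const
    · exact Measurable.ite hB.1 measurable_const measurable_const
    · exact Measurable.ite hB'.1 measurable_const measurable_const
  bdd := by
    refine ⟨2, fun x => (pi_norm_le_iff_of_nonneg zero_le_two).2 fun k => ?_⟩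
    fin_cases k <;> simp only [mk2, Real.norm_eq_abs] <;> simp
    · split_ifs with h
      · have h1 := abs_le.1 ((S.ax x.1).slope _ h)
        have h2 : ∀ i, |ctr i| ≤ 1 := fun i => by fin_cases i <;> simp [ctr]
        have h3 := abs_le.1 (h2 ((S.Γ x.1).fam (0, x.2)))
        rw [abs_le, Sys.sl]
        constructor <;> linarith [h1.1, h1.2, h3.1, h3.2]
      · simp
    · split_ifs <;> simp
    · split_ifs <;> simp
  line := by
    classical
    filter_upwards [hB.2, hB'.2] with ω h h' l l' hl hl' hs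
    have e : ((S.T l.1 ω, l.2) ∈ B) = ((S.T l'.1 ω, l'.2) ∈ B) := h l l' hl hl' hs
    have e' : ((S.T l.1 ω, l.2) ∈ B') = ((S.T l'.1 ω, l'.2) ∈ B') := h' l l' hl hl' hs
    have key : ∀ m : Lb, (S.Γ ω).valid m → (S.Γ (S.T m.1 ω)).valid (0, m.2) ∧
        S.sl (S.T m.1 ω, m.2) = (S.Γ ω).t m := fun m hm => by
      have hsh := S.shift ω m.1
      simp only [Gal.valid, Sys.sl, hsh.g, hsh.t, add_zero]
      exact ⟨hm, trivial⟩
    simp only [Sys.ev, mk2, if_pos (key l hl).1, if_pos (key l' hl').1, (key l hl).2,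
      (key l' hl').2, (S.ax ω).same_t l l' hl hl' hs]
    rw [if_congr (iff_of_eq e) rfl rfl, if_congr (iff_of_eq e') rfl rfl]
  one _ := rfl
  slope x hx := by
    simp [mk2, hx]

end RPf

open RPf

/-- the product bound for the marks of crossing pairs -/
theorem pf_le (Λ : (ℝ × ℝ) ≃L[ℝ] (ℝ × ℝ)) : ∃ C0 : NNReal, ∀ (S : Sys), S.toDyn.Erg → S.Lin Λ →
    ∀ (A : Set (S.Ω × ℕ)), S.LineSet A → ∀ (n : ℕ) (ν : S.Ω × ℕ → E n), S.Marks0 ν → ∀ i j, i ≠ j →
      ((S.pm i j).restrict {x | (x.1, x.2.1) ∈ A ∧ (x.1, x.2.2) ∈ A}).map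
        (fun x => (ν (x.1, x.2.1), ν (x.1, x.2.2))) ≤ C0 • (S.mA A ν i).prod (S.mA A ν j) := by
  by_cases hok : LamOK Λ
  swap
  · exact ⟨0, fun S _ hΛ => absurd hΛ.ok hok⟩
  obtain ⟨r, r2, hr, hb⟩ := rho_bounds hok
  let c : ℝ≥0∞ := (volume (Λ ⁻¹' Q 1))⁻¹
  let κ : ℝ≥0∞ := (c * volume (Q 1) * ENNReal.ofReal r)⁻¹ * 6
  refine ⟨(c * (κ * κ)).toNNReal, fun S hS hΛ A hA n ν hν i j _ => ?_⟩
  obtain ⟨ω, hω⟩ := (tan_ex S hS hΛ hA hν 1 one_pos).exists
  obtain ⟨τ, -⟩ := hω (hyperfilter ℕ) Nat.hyperfilter_le_atTop (fun _ _ => 0) (by simp)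
    fun _ _ _ _ _ _ => rfl
  have hc : (τ.c : ℝ≥0∞) = c := ENNReal.eq_inv_of_mul_eq_one_left τ.c_eq
  have hκ : κ ≠ ∞ := by
    refine ENNReal.mul_ne_top (ENNReal.inv_ne_top.2 (mul_ne_zero (mul_ne_zero ?_ vol_Q_ne)
      (by simpa using hr))) (by norm_num)
    rw [← hc]
    exact_mod_cast τ.c_pos.ne'
  have hfin : c * (κ * κ) ≠ ∞ :=
    ENNReal.mul_ne_top (hc ▸ ENNReal.coe_ne_top) (ENNReal.mul_ne_top hκ hκ)
  have hπ := τ.fac.mp.measurable
  have hν' : Measurable (pullF τ.π ν) :=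
    hν.meas.comp ((hπ.comp measurable_fst).prodMk measurable_snd)
  have hX : Measurable fun x : τ.D.Ω × ℕ => τ.X x.1 := τ.X_meas.comp measurable_fst
  have hd : Measurable (dat τ.π ν τ.X τ.h) :=
    hν'.prodMk ((hX.snd.sub (((measurable_pi_apply 1).comp hν').mul hX.fst)).prodMk τ.h_meas)
  have hmp := (S.mp_pm τ.D τ.π τ.fac i j).restrict_preimage (meas_pairs hA.1)
  have hff : Measurable (Prod.map Prod.fst Prod.fst : Dt n × Dt n → E n × E n) := by fun_prop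
  have e := (Measure.map_map hff (meas_pair hd)).symm.trans
    (congrArg (Measure.map (Prod.map Prod.fst Prod.fst)) (τ.p2 i j))
  rw [← hmp.map_eq, Measure.map_map (meas_pair hν.meas) hmp.measurable]
  refine e.le.trans ?_
  have := τ.nm_fin i
  have := τ.nm_fin j
  have h1 := nm_le hΛ hA hν τ i fun t ht => (hb i t ht).1
  have h2 := nm_le hΛ hA hν τ j fun t ht => (hb j t ht).1
  rw [hc] at h1 h2
  have h3 := Measure.prod_mono h1 h2
  rw [Measure.map_prod_map _ _ measurable_fst measurable_fst, Measure.prod_restrict,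
    Measure.prod_smul_left, Measure.prod_smul_right, smul_smul] at h3
  rw [Measure.map_smul, ENNReal.smul_def, ENNReal.smul_def, ENNReal.coe_toNNReal hfin, hc, mul_smul]
  refine Measure.le_iff'.2 fun s => ?_
  rw [Measure.smul_apply, Measure.smul_apply]
  refine mul_le_mul_right (le_trans (Measure.map_mono (Measure.restrict_mono_set _ ?_) hff s)
    (h3 s)) _
  rintro y ⟨h4, h5⟩
  refine ⟨⟨_, h5⟩, (xp y.1 y.2).1, ?_⟩
  convert h5 using 1
  have h6 := sub_ne_zero.2 h4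
  refine Prod.ext rfl ?_
  simp only [xp]
  field_simp
  ring

/-- the product bound for the marks of triple points -/
theorem pf_kappa (Λ : (ℝ × ℝ) ≃L[ℝ] (ℝ × ℝ)) : ∃ C0 : NNReal, ∀ (S : Sys), S.toDyn.Erg →
    S.Lin Λ → ∀ (A : Set (S.Ω × ℕ)), S.LineSet A → ∀ (n : ℕ) (ν : S.Ω × ℕ → E n), S.Marks0 ν →
      ∀ i j, i ≠ j → (S.κA A ν).map (fun x => (x i, x j)) ≤
        C0 • (S.mA A ν i).prod (S.mA A ν j) := by
  obtain ⟨C0, H⟩ := pf_le Λ
  refine ⟨C0, fun S hS hΛ A hA n ν hν i j hij => le_trans ?_ (H S hS hΛ A hA n ν hν i j hij)⟩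
  have hφ : Measurable fun ω => (ω, (S.Γ ω).tl 0 i, (S.Γ ω).tl 0 j) :=
    measurable_id.prodMk ((S.meas.tl 0 i).prodMk (S.meas.tl 0 j))
  refine le_trans (le_of_eq ?_) (Measure.map_mono (map_le_pm S hA.1 hij) (meas_pair hν.meas))
  have hm : Measurable fun ω i => ν (S.tx ω i) :=
    measurable_pi_iff.2 fun i => hν.meas.comp (S.measurable_tx i)
  rw [Sys.κA, Measure.map_map (by fun_prop) hm, Measure.map_map (meas_pair hν.meas) hφ]
  rfl

/-- the product bound for sets of lines -/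
theorem pf_sets (Λ : (ℝ × ℝ) ≃L[ℝ] (ℝ × ℝ)) : ∃ C0 : NNReal, ∀ (S : Sys), S.toDyn.Erg →
    S.Lin Λ → ∀ i j, i ≠ j → ∀ B B' : Set (S.Ω × ℕ), S.LineSet B → S.LineSet B' →
      S.μ {ω | (S.Γ ω).tp 0 = true ∧ S.tx ω i ∈ B ∧ S.tx ω j ∈ B'} ≤
        C0 * S.mh i B * S.mh j B' := by
  obtain ⟨C0, H⟩ := pf_kappa Λ
  refine ⟨C0, fun S hS hΛ i j hij B B' hB hB' => ?_⟩
  have hν := marks_mk2 S hB hB'
  have hU : ∀ k : Fin 4, MeasurableSet {a : E 2 | a k = 1} := fun k =>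
    measurable_pi_apply k (measurableSet_singleton 1)
  have h := H S hS hΛ Set.univ ⟨MeasurableSet.univ, Eventually.of_forall fun _ _ _ _ _ _ => rfl⟩
    2 _ hν i j hij ({a : E 2 | a 2 = 1} ×ˢ {a : E 2 | a 3 = 1})
  have e2 : mk2 S B B' ⁻¹' {a : E 2 | a 2 = 1} = B := by
    ext x
    simp [mk2]
  have e3 : mk2 S B B' ⁻¹' {a : E 2 | a 3 = 1} = B' := by
    ext x
    simp [mk2]
  have hm : Measurable fun ω i => mk2 S B B' (S.tx ω i) :=
    measurable_pi_iff.2 fun i => hν.meas.comp (S.measurable_tx i)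
  have hp : Measurable fun x : Fin 3 → E 2 => (x i, x j) := by fun_prop
  rw [Measure.smul_apply, Measure.prod_prod, Sys.mA, Sys.mA, Measure.restrict_univ,
    Measure.restrict_univ, Measure.map_apply hν.meas (hU 2), Measure.map_apply hν.meas (hU 3), e2,
    e3, Sys.κA, Measure.map_map hp hm, Measure.map_apply (hp.comp hm) ((hU 2).prod (hU 3)),
    Measure.restrict_apply ((hp.comp hm) ((hU 2).prod (hU 3))), ENNReal.smul_def, smul_eq_mul,
    ← mul_assoc] at h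
  refine le_trans (measure_mono fun ω hω => ?_) h
  exact ⟨⟨e2.ge hω.2.1, e3.ge hω.2.2⟩, hω.1, fun _ => trivial⟩

end ECub.Tn
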