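import Pool.Agent.P.MP_029dcd_co.F.T.NM

/-! Layer T: stable limits of empirical measures along a generic orbit. -/

set_option autoImplicit false

namespace ECub.Tn

open CubicStab MeasureTheory Filter Topology Finset
open scoped ENNReal

namespace RSL

theorem hb_mono {r r' : ℕ} (h : r ≤ r') : hb r ⊆ hb r' := fun w hw => by
  rw [mem_hb] at hw ⊢
  omega

theorem tendsto_mul (M : ℕ) (hM : 0 < M) : Tendsto (fun u : ℕ => M * u) atTop atTop :=
  tendsto_id.const_mul_atTop' hM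

theorem fol0 (w : Z2) :
    Tendsto (fun r : ℕ => ((((hb r).image (· + w)) \ hb r).card : ℝ) / (hb r).card) atTop
      (𝓝 0) := by
  set a : ℕ := w.1.natAbs + w.2.natAbs with ha
  have hlim : Tendsto (fun r : ℕ => (1 + (a : ℝ) / r) ^ 2 - 1) atTop (𝓝 ((1 + 0) ^ 2 - 1)) :=
    (((tendsto_const_div_atTop_nhds_zero_nat (a : ℝ)).const_add 1).pow 2).sub_const 1
  have hlim' : Tendsto (fun r : ℕ => (1 + (a : ℝ) / r) ^ 2 - 1) atTop (𝓝 0) := by
    simpa using hlim
  refine squeeze_zero' (Eventually.of_forall fun r => by positivity) ?_ hlim'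
  filter_upwards [eventually_gt_atTop 0] with r hr
  have hr' : (0 : ℝ) < r := by exact_mod_cast hr
  have hsub : ((hb r).image (· + w)) \ hb r ⊆ hb (r + a) \ hb r := by
    refine sdiff_subset_sdiff (fun x hx => ?_) subset_rfl
    obtain ⟨y, hy, rfl⟩ := mem_image.1 hx
    rw [mem_hb] at hy ⊢
    simp only [Prod.fst_add, Prod.snd_add]
    omega
  have h1 : ((((hb r).image (· + w)) \ hb r).card : ℝ) ≤ 4 * ((r + a : ℕ) : ℝ) ^ 2 - 4 * r ^ 2 := by
    rw [← card_hb, ← card_hb, ← cast_card_sdiff (hb_mono (Nat.le_add_right r a))]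
    exact_mod_cast card_le_card hsub
  rw [card_hb, div_le_iff₀ (by positivity)]
  refine h1.trans (le_of_eq ?_)
  push_cast
  field_simp

theorem box_tendsto {f : Z2 → ℝ} {c : ℝ} (h : BoxLim f c) (M : ℕ) (hM : 0 < M) :
    Tendsto (fun u : ℕ => (∑ w ∈ hb (M * u), f w) / (hb (M * u)).card) atTop (𝓝 c) := by
  rw [Metric.tendsto_nhds]
  intro ε hε
  filter_upwards [h M ε hε, eventually_gt_atTop 0] with u hu hu0
  have hu' : (0 : ℝ) < u := by exact_mod_cast hu0
  have hM' : (1 : ℝ) ≤ M := by exact_mod_cast hM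
  have h0 : (0 : ℤ) ≤ (M : ℤ) * u := by positivity
  have h1 := hu (-((M : ℤ) * u)) ((M : ℤ) * u) (-((M : ℤ) * u)) ((M : ℤ) * u) le_rfl (by omega)
    le_rfl le_rfl (by omega) le_rfl
  have hc : (0 : ℝ) < 4 * ((M * u : ℕ) : ℝ) ^ 2 := by positivity
  have h2 : hb (M * u) = Ico (-((M : ℤ) * u)) ((M : ℤ) * u) ×ˢ Ico (-((M : ℤ) * u)) ((M : ℤ) * u) := by
    simp [hb]
  rw [Real.dist_eq, card_hb, div_sub' hc.ne', abs_div, abs_of_pos hc, div_lt_iff₀ hc, h2]
  have h3 : (((M : ℤ) * u - -((M : ℤ) * u) : ℤ) : ℝ) * (((M : ℤ) * u - -((M : ℤ) * u) : ℤ) : ℝ) * c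
      = 4 * ((M * u : ℕ) : ℝ) ^ 2 * c := by
    push_cast
    ring
  rw [h3] at h1
  refine h1.trans_lt (mul_lt_mul_of_pos_left ?_ hε)
  push_cast
  have : (u : ℝ) ≤ M * u := le_mul_of_one_le_left hu'.le hM'
  nlinarith

theorem cm_int {X Ω : Type} [TopologicalSpace X] [CompactSpace X] [MeasurableSpace X]
    [OpensMeasurableSpace X] [MeasurableSpace Ω] (μ : Measure Ω) [IsFiniteMeasure μ] {E : Ω → X}
    (hE : Measurable E) (f : C(X, ℝ)) : Integrable (fun ω => f (E ω)) μ :=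
  Integrable.of_bound (f.continuous.measurable.comp hE).aestronglyMeasurable ‖f‖
    (Eventually.of_forall fun _ => f.norm_coe_le_norm _)

theorem generic (D : Dyn) (hD : D.Erg) {X : Type} [TopologicalSpace X] [CompactSpace X]
    [SecondCountableTopology X] [T2Space X] [MeasurableSpace X] [OpensMeasurableSpace X]
    {E : D.Ω → X} (hE : Measurable E) (M : ℕ) (hM : 0 < M) :
    ∀ᵐ ω ∂D.μ, ∀ f : C(X, ℝ),
      Tendsto (fun u : ℕ => (∑ w ∈ hb (M * u), f (E (D.T w ω))) / (hb (M * u)).card) atTop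
        (𝓝 (∫ a, f (E a) ∂D.μ)) := by
  obtain ⟨S, hSc, hSd⟩ := TopologicalSpace.exists_countable_dense C(X, ℝ)
  have h := (ae_ball_iff hSc).2 fun f (_ : f ∈ S) =>
    et2_erg D.μ D.T D.T_zero D.T_add D.mp hD (fun a => f (E a)) (cm_int D.μ hE f)
  filter_upwards [h] with ω hω f
  rw [Metric.tendsto_nhds]
  intro ε hε
  obtain ⟨g, hgS, hg⟩ := hSd.exists_dist_lt f (show 0 < ε / 3 by positivity)
  have hfg : ∀ x, |f x - g x| ≤ dist f g := fun x => by
    simpa [Real.dist_eq] using ContinuousMap.dist_apply_le_dist (f := f) (g := g) x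
  have h1 := Metric.tendsto_nhds.1 (box_tendsto (hω g hgS) M hM) (ε / 3) (by positivity)
  have h2 : |∫ a, f (E a) ∂D.μ - ∫ a, g (E a) ∂D.μ| ≤ dist f g := by
    rw [← integral_sub (cm_int D.μ hE f) (cm_int D.μ hE g)]
    have := norm_integral_le_of_norm_le_const (μ := D.μ) (f := fun a => f (E a) - g (E a))
      (C := dist f g) (Eventually.of_forall fun a => hfg _)
    simpa using this
  filter_upwards [h1, eventually_gt_atTop 0] with u hu hu0
  have hc : (0 : ℝ) < (hb (M * u)).card := by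
    rw [card_hb]
    positivity
  have h3 : |(∑ w ∈ hb (M * u), f (E (D.T w ω))) / (hb (M * u)).card -
      (∑ w ∈ hb (M * u), g (E (D.T w ω))) / (hb (M * u)).card| ≤ dist f g := by
    rw [← sub_div, ← sum_sub_distrib, abs_div, abs_of_pos hc, div_le_iff₀ hc]
    refine (abs_sum_le_sum_abs _ _).trans ((sum_le_sum fun w _ => hfg _).trans (le_of_eq ?_))
    rw [sum_const, nsmul_eq_mul, mul_comm]
  rw [Real.dist_eq] at hu ⊢
  rw [abs_le] at h2 h3
  rw [abs_lt] at hu ⊢
  constructor <;> linarith [h2.1, h2.2, h3.1, h3.2, hu.1, hu.2]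

theorem riem (g : ℝ → ℝ) (hg : Continuous g) (M : ℕ) :
    Tendsto (fun u : ℕ => (∑ b ∈ Ico (-((M * u : ℕ) : ℤ)) ((M * u : ℕ) : ℤ), g ((b : ℝ) / u)) / u)
      atTop (𝓝 (∫ x in Set.Icc (-(M : ℝ)) M, g x)) := by
  rw [Metric.tendsto_nhds]
  intro ε hε
  have hM : -(M : ℝ) ≤ M := neg_le_self (Nat.cast_nonneg M)
  filter_upwards [riemann_unif (P := ℝ) (isCompact_singleton (x := 0)) (fun p => g p.2)
    (hg.comp continuous_snd) M (ε / 2) (by positivity)] with u hu
  have h1 := hu 0 rfl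
  rw [intervalIntegral.integral_of_le hM, ← integral_Icc_eq_integral_Ioc] at h1
  rw [Real.dist_eq]
  exact h1.trans_lt (by linarith)

/-- the interval of positions -/
abbrev II (M : ℕ) : Type := Set.Icc (-(M : ℝ)) M

/-- the clipped position -/
noncomputable def cl (M : ℕ) (x : ℝ) : II M := Set.projIcc _ _ (neg_le_self (Nat.cast_nonneg M)) x

theorem cl_eq {M u : ℕ} (hu : 0 < u) {b : ℤ} (h1 : -((M * u : ℕ) : ℤ) ≤ b)
    (h2 : b < ((M * u : ℕ) : ℤ)) : (cl M ((b : ℝ) / u) : ℝ) = (b : ℝ) / u := by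
  have hu' : (0 : ℝ) < u := by exact_mod_cast hu
  have h3 : -((M : ℝ) * u) ≤ b := by exact_mod_cast h1
  have h4 : (b : ℝ) ≤ (M : ℝ) * u := by exact_mod_cast h2.le
  have h5 : (b : ℝ) / u ∈ Set.Icc (-(M : ℝ)) M :=
    ⟨by rw [le_div_iff₀ hu']; linarith, by rw [div_le_iff₀ hu']; exact h4⟩
  rw [cl, Set.projIcc_of_mem _ h5]

theorem ae_zero_of_lim {X : Type} [TopologicalSpace X] [CompactSpace X] [MeasurableSpace X]
    [OpensMeasurableSpace X] (μ : Measure X) [IsFiniteMeasure μ] (Φ : C(X, ℝ))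
    (h0 : ∀ x, 0 ≤ Φ x) {l : Filter ℕ} [l.NeBot] {a b : ℕ → ℝ} (ha : Tendsto a l (𝓝 (∫ x, Φ x ∂μ)))
    (hb : Tendsto b l (𝓝 0)) (hab : ∀ᶠ u in l, a u ≤ b u) : ∀ᵐ x ∂μ, Φ x = 0 := by
  have h1 : ∫ x, Φ x ∂μ ≤ 0 := le_of_tendsto_of_tendsto ha hb hab
  exact (integral_eq_zero_iff_of_nonneg h0 (cm_int μ measurable_id Φ)).1
    (le_antisymm h1 (integral_nonneg h0))

theorem core (D : Dyn) (hD : D.Erg) {K Z : Type} [TopologicalSpace K] [CompactSpace K]
    [TopologicalSpace.MetrizableSpace K] [SecondCountableTopology K] [MeasurableSpace K]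
    [BorelSpace K] [TopologicalSpace Z] [CompactSpace Z] [PolishSpace Z] [MeasurableSpace Z]
    [BorelSpace Z] (e : D.Ω → K) (he : Measurable e) (hinj : Function.Injective e) (M : ℕ)
    (hM : 0 < M) :
    ∀ᵐ ω ∂D.μ, ∀ 𝒰 : Ultrafilter ℕ, (𝒰 : Filter ℕ) ≤ atTop → ∀ z : ℕ → Z2 → Z,
      ∃ μ' : Measure (D.Ω × (Z2 → Z) × (ℝ × ℝ)), IsFiniteMeasure μ' ∧
        (∀ w, MeasurePreserving (TT D w) μ' μ') ∧
        μ'.map (fun x => (x.1, x.2.2)) = D.μ.prod (volume.restrict (sqr M)) ∧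
        ∀ Φ : K × (Z2 → Z) × (ℝ × ℝ) → ℝ, Continuous Φ →
          Tendsto (fun u : ℕ => (∑ w ∈ hb (M * u),
            Φ (e (D.T w ω), sh w (z u), pos u w)) / (u : ℝ) ^ 2) 𝒰
            (𝓝 (∫ x, Φ (e x.1, x.2) ∂μ')) := by
  let E : D.Ω → Z2 → K := fun ω x => e (D.T x ω)
  have hE : Measurable E := measurable_pi_lambda _ fun x => he.comp (D.mp x).measurable
  have hEi : Function.Injective E := fun a b h => by
    have := congrFun h 0
    simp only [E, D.T_zero] at this
    exact hinj this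
  have hEe : MeasurableEmbedding E := hE.measurableEmbedding hEi
  have : Nonempty D.Ω := nonempty_of_isProbabilityMeasure D.μ
  have hM' : (0 : ℝ) < M := by exact_mod_cast hM
  filter_upwards [generic D hD hE M hM] with ω hω 𝒰 h𝒰 z
  let c : ℕ → Z2 → K × Z × (II M × II M) := fun u w =>
    (e (D.T w ω), z u w, cl M ((w.1 : ℝ) / u), cl M ((w.2 : ℝ) / u))
  have hpos : ∀ᶠ u : ℕ in (𝒰 : Filter ℕ), 0 < u := h𝒰 (eventually_gt_atTop 0)
  obtain ⟨μ0, hμ0, hsh, hlim⟩ := emp 𝒰 c (fun u => hb (M * u))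
    (by
      filter_upwards [hpos] with u hu
      have : 0 < M * u := Nat.mul_pos hM hu
      exact ⟨0, mem_hb.2 (by simp only [Prod.fst_zero, Prod.snd_zero]; omega)⟩)
    fun w => ((fol0 w).comp (tendsto_mul M hM)).mono_left h𝒰
  let p1 : C(Z2 → K × Z × (II M × II M), Z2 → K) := ⟨fun x w => (x w).1, by fun_prop⟩
  let p2 : C(Z2 → K × Z × (II M × II M), Z2 → Z) := ⟨fun x w => (x w).2.1, by fun_prop⟩
  let p3 : Z2 → C(Z2 → K × Z × (II M × II M), ℝ × ℝ) := fun w =>
    ⟨fun x => (((x w).2.2.1 : ℝ), ((x w).2.2.2 : ℝ)), by fun_prop⟩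
  have hp1 : ∀ u y, p1 (sh y (c u)) = E (D.T y ω) := fun u y => by
    funext w
    simp only [p1, sh, c, E, ContinuousMap.coe_mk]
    rw [← D.T_add, add_comm]
  have hp2 : ∀ u y, p2 (sh y (c u)) = sh y (z u) := fun u y => rfl
  have hp3 : ∀ u, 0 < u → ∀ y ∈ hb (M * u), p3 0 (sh y (c u)) = pos u y := fun u hu y hy => by
    rw [mem_hb] at hy
    simp only [p3, sh, c, ContinuousMap.coe_mk, add_zero, pos]
    rw [cl_eq hu hy.1.1 hy.1.2, cl_eq hu hy.2.1 hy.2.2]
  have ha : μ0.map p1 = D.μ.map E := by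
    refine ext_of_forall_integral_eq_of_IsFiniteMeasure fun f => ?_
    rw [integral_map p1.continuous.measurable.aemeasurable f.continuous.aestronglyMeasurable,
      integral_map hE.aemeasurable f.continuous.aestronglyMeasurable]
    have h1 := hlim (f.toContinuousMap.comp p1)
    have h2 := (hω f.toContinuousMap).mono_left h𝒰
    simp only [ContinuousMap.comp_apply, hp1] at h1
    exact tendsto_nhds_unique h1 h2
  have hb' : ∀ w, ∀ᵐ x ∂μ0, p3 w x = p3 0 x := fun w => by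
    let Φ : C(Z2 → K × Z × (II M × II M), ℝ) := ⟨fun x => dist (p3 w x) (p3 0 x), by fun_prop⟩
    have h1 := ae_zero_of_lim μ0 Φ (fun x => dist_nonneg (x := p3 w x)) (hlim Φ)
      ((tendsto_const_div_atTop_nhds_zero_nat (|(w.1 : ℝ)| + |(w.2 : ℝ)|)).mono_left h𝒰) ?_
    · filter_upwards [h1] with x hx using dist_eq_zero.1 hx
    filter_upwards [hpos] with u hu
    have hu' : (0 : ℝ) < u := by exact_mod_cast hu
    have hc : (0 : ℝ) < (hb (M * u)).card := by
      rw [card_hb]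
      positivity
    rw [div_le_iff₀ hc, mul_comm (_ / (u : ℝ)), ← nsmul_eq_mul, ← sum_const]
    refine sum_le_sum fun y _ => ?_
    have key : ∀ a b : ℤ, |(cl M (((a + b : ℤ) : ℝ) / u) : ℝ) - cl M ((a : ℝ) / u)| ≤
        |(b : ℝ)| / u := fun a b => by
      refine (Set.abs_projIcc_sub_projIcc _).trans (le_of_eq ?_)
      rw [← sub_div, abs_div, abs_of_pos hu']
      push_cast
      rw [add_sub_cancel_left]
    have k1 := key y.1 w.1
    have k2 := key y.2 w.2
    have n1 : 0 ≤ |(w.1 : ℝ)| / u := by positivity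
    have n2 : 0 ≤ |(w.2 : ℝ)| / u := by positivity
    simp only [Φ, p3, sh, c, ContinuousMap.coe_mk, add_zero, Prod.dist_eq, Real.dist_eq,
      Prod.fst_add, Prod.snd_add]
    rw [add_div]
    exact max_le (by linarith) (by linarith)
  let κ : ℝ≥0∞ := ENNReal.ofReal (4 * (M : ℝ) ^ 2)
  have hκ : κ ≠ ∞ := ENNReal.ofReal_ne_top
  have hκr : κ.toReal = 4 * (M : ℝ) ^ 2 := ENNReal.toReal_ofReal (by positivity)
  have hscale : ∀ Φ : C(Z2 → K × Z × (II M × II M), ℝ),
      Tendsto (fun u : ℕ => (∑ y ∈ hb (M * u), Φ (sh y (c u))) / (u : ℝ) ^ 2) 𝒰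
        (𝓝 (4 * (M : ℝ) ^ 2 * ∫ x, Φ x ∂μ0)) := fun Φ => by
    refine ((hlim Φ).const_mul _).congr' ?_
    filter_upwards [hpos] with u hu
    have hu' : (0 : ℝ) < u := by exact_mod_cast hu
    rw [card_hb]
    push_cast
    field_simp
  have hc' : κ • μ0.map (p3 0) = volume.restrict (sqr M) := by
    have : IsFiniteMeasure (κ • μ0.map (p3 0)) := Measure.smul_finite _ hκ
    rw [sqr, Measure.volume_eq_prod, ← Measure.prod_restrict]
    refine Measure.eq_prod_of_integral_mul_boundedContinuousFunction fun f g => ?_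
    have hfg : Continuous fun p : ℝ × ℝ => f p.1 * g p.2 := by fun_prop
    rw [integral_smul_measure, hκr, smul_eq_mul,
      integral_map (p3 0).continuous.measurable.aemeasurable hfg.aestronglyMeasurable]
    have h1 := hscale ((⟨_, hfg⟩ : C(ℝ × ℝ, ℝ)).comp (p3 0))
    have h2 := ((riem f f.continuous M).mul (riem g g.continuous M)).mono_left h𝒰
    refine tendsto_nhds_unique h1 (h2.congr' ?_)
    filter_upwards [hpos] with u hu
    rw [div_mul_div_comm, ← pow_two, sum_mul_sum, ← sum_product']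
    congr 1
    refine sum_congr rfl fun y hy => ?_
    rw [ContinuousMap.comp_apply, hp3 u hu y hy]
    rfl
  let R : (Z2 → K × Z × (II M × II M)) → D.Ω := fun x => hEe.invFun (p1 x)
  have hR : Measurable R := hEe.measurable_invFun.comp p1.continuous.measurable
  have hRE : ∀ᵐ x ∂μ0, p1 x = E (R x) := by
    have h1 : ∀ᵐ y ∂(μ0.map p1), y ∈ Set.range E := by
      rw [ha]
      exact (ae_map_iff hE.aemeasurable hEe.measurableSet_range).2
        (Eventually.of_forall fun a => ⟨a, rfl⟩)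
    filter_upwards [ae_of_ae_map p1.continuous.measurable.aemeasurable h1] with x hx
    obtain ⟨a, ha⟩ := hx
    simp only [R]
    rw [← ha, hEe.leftInverse_invFun a]
  let Ψ : (Z2 → K × Z × (II M × II M)) → D.Ω × (Z2 → Z) × (ℝ × ℝ) := fun x => (R x, p2 x, p3 0 x)
  have hΨ : Measurable Ψ :=
    hR.prodMk (p2.continuous.measurable.prodMk (p3 0).continuous.measurable)
  have hTT : ∀ w, Measurable (TT D (Z := Z) w) := fun w =>
    ((D.mp w).measurable.comp measurable_fst).prodMk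
      ((measurable_pi_lambda _ fun y => (measurable_pi_apply (w + y)).comp
        (measurable_fst.comp measurable_snd)).prodMk (measurable_snd.comp measurable_snd))
  have hcomm : ∀ w, (TT D w ∘ Ψ) =ᵐ[μ0] (Ψ ∘ sh w) := fun w => by
    filter_upwards [hRE, hb' w] with x h1 h2
    have h3 : p1 (sh w x) = E (D.T w (R x)) := by
      funext y
      have h4 := congrFun h1 (w + y)
      simp only [p1, sh, E, ContinuousMap.coe_mk] at h4 ⊢
      rw [h4, ← D.T_add, add_comm]
    have h5 : R (sh w x) = D.T w (R x) := by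
      show hEe.invFun (p1 (sh w x)) = _
      rw [h3, hEe.leftInverse_invFun]
    have h6 : p3 0 (sh w x) = p3 0 x := by
      rw [← h2]
      simp only [p3, sh, ContinuousMap.coe_mk, add_zero]
    simp only [Function.comp_apply, TT, Ψ, h5, h6]
    rfl
  have hP : IsProbabilityMeasure (μ0.map Ψ) := Measure.isProbabilityMeasure_map hΨ.aemeasurable
  have hinv : ∀ w, MeasurePreserving (TT D w) (μ0.map Ψ) (μ0.map Ψ) := fun w =>
    ⟨hTT w, by
      rw [Measure.map_map (hTT w) hΨ, Measure.map_congr (hcomm w),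
        ← Measure.map_map hΨ (hsh w).measurable, (hsh w).map_eq]⟩
  let D' : Dyn :=
    { Ω := D.Ω × (Z2 → Z) × (ℝ × ℝ)
      μ := μ0.map Ψ
      T := TT D
      T_zero := fun x => by
        have : sh 0 x.2.1 = x.2.1 := by funext y; simp [sh]
        simp only [TT, D.T_zero, this]
      T_add := fun a b x => by
        have : sh (a + b) x.2.1 = sh a (sh b x.2.1) := by
          funext y
          simp only [sh]
          rw [add_comm a b, add_assoc]
        simp only [TT, D.T_add, this]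
      mp := hinv }
  have hfac : D'.Fac D Prod.fst := by
    refine ⟨⟨measurable_fst, ?_⟩, fun w x => rfl⟩
    show (μ0.map Ψ).map Prod.fst = D.μ
    rw [Measure.map_map measurable_fst hΨ]
    have h1 : Prod.fst ∘ Ψ = hEe.invFun ∘ p1 := rfl
    rw [h1, ← Measure.map_map hEe.measurable_invFun p1.continuous.measurable, ha,
      Measure.map_map hEe.measurable_invFun hE, hEe.leftInverse_invFun.comp_eq_id, Measure.map_id]
  have hind : (μ0.map Ψ).map (fun x => (x.1, x.2.2)) = D.μ.prod ((μ0.map Ψ).map fun x => x.2.2) :=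
    indep_fac D' D Prod.fst hfac hD (fun x => x.2.2) (measurable_snd.comp measurable_snd)
      fun w x => rfl
  refine ⟨κ • μ0.map Ψ, Measure.smul_finite _ hκ, fun w => (hinv w).smul_measure κ, ?_,
    fun Φ hΦ => ?_⟩
  · have h1 : (μ0.map Ψ).map (fun x => x.2.2) = μ0.map (p3 0) :=
      Measure.map_map (measurable_snd.comp measurable_snd) hΨ
    rw [Measure.map_smul, hind, h1, ← hc', Measure.prod_smul_right]
  · let Φ' : C(Z2 → K × Z × (II M × II M), ℝ) := ⟨fun x => Φ (p1 x 0, p2 x, p3 0 x), by fun_prop⟩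
    have hm : Measurable fun x : D.Ω × (Z2 → Z) × (ℝ × ℝ) => Φ (e x.1, x.2) :=
      hΦ.measurable.comp ((he.comp measurable_fst).prodMk measurable_snd)
    have h1 : ∫ x, Φ (e x.1, x.2) ∂(μ0.map Ψ) = ∫ x, Φ' x ∂μ0 := by
      rw [integral_map hΨ.aemeasurable hm.aestronglyMeasurable]
      refine integral_congr_ae ?_
      filter_upwards [hRE] with x hx
      simp only [Φ', Ψ, ContinuousMap.coe_mk, hx, E, D.T_zero]
    rw [integral_smul_measure, hκr, smul_eq_mul, h1]
    refine (hscale Φ').congr' ?_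
    filter_upwards [hpos] with u hu
    congr 1
    refine sum_congr rfl fun y hy => ?_
    simp only [Φ', ContinuousMap.coe_mk, hp1, hp2, hp3 u hu y hy, E, D.T_zero]

end RSL

open Classical in
/-- stable limits of the empirical measures of a generic orbit with additional marks -/
theorem stable_lim (D : Dyn) (hD : D.Erg) {K Z : Type} [TopologicalSpace K] [CompactSpace K]
    [PolishSpace K] [MeasurableSpace K] [BorelSpace K] [TopologicalSpace Z] [CompactSpace Z]
    [PolishSpace Z] [MeasurableSpace Z] [BorelSpace Z] (m : D.Ω → K) (hm : Measurable m) (𝒞 : Set (Set D.Ω)) (hc : 𝒞.Countable)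
    (hC : ∀ C ∈ 𝒞, MeasurableSet C) (M : ℕ) (hM : 0 < M) :
    ∀ᵐ ω ∂D.μ, ∀ 𝒰 : Ultrafilter ℕ, (𝒰 : Filter ℕ) ≤ atTop → ∀ z : ℕ → Z2 → Z,
      ∃ μ' : Measure (D.Ω × (Z2 → Z) × (ℝ × ℝ)), IsFiniteMeasure μ' ∧
        (∀ w, MeasurePreserving (TT D w) μ' μ') ∧
        μ'.map (fun x => (x.1, x.2.2)) = D.μ.prod (volume.restrict (sqr M)) ∧
        ∀ C ∈ 𝒞, ∀ Φ : K × (Z2 → Z) × (ℝ × ℝ) → ℝ, Continuous Φ →
          Tendsto (fun u : ℕ => (∑ w ∈ (hb (M * u)).filter (fun w => D.T w ω ∈ C),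
            Φ (m (D.T w ω), sh w (z u), pos u w)) / (u : ℝ) ^ 2) 𝒰
            (𝓝 (∫ x in {x | x.1 ∈ C}, Φ (m x.1, x.2) ∂μ')) := by
  obtain ⟨C, hCr⟩ := (hc.insert ∅).exists_eq_range (Set.insert_nonempty _ _)
  have hCm : ∀ k, MeasurableSet (C k) := fun k => by
    have : C k ∈ insert ∅ 𝒞 := hCr ▸ Set.mem_range_self k
    rcases this with h | h
    · rw [h]
      exact MeasurableSet.empty
    · exact hC _ h
  obtain ⟨code, hcm, hci⟩ :=
    MeasurableSpace.measurable_injection_nat_bool_of_countablySeparated D.Ω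
  let e : D.Ω → K × (ℕ → Bool) × (ℕ → Bool) := fun a => (m a, fun k => decide (a ∈ C k), code a)
  have he : Measurable e := by
    refine hm.prodMk ((measurable_pi_lambda _ fun k => ?_).prodMk hcm)
    refine measurable_to_bool ?_
    have : (fun a => decide (a ∈ C k)) ⁻¹' {true} = C k := by
      ext a
      simp
    rw [this]
    exact hCm k
  have hinj : Function.Injective e := fun a b h => hci (congrArg (fun y => y.2.2) h)
  filter_upwards [RSL.core D hD (Z := Z) e he hinj M hM] with ω hω 𝒰 h𝒰 z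
  obtain ⟨μ', h1, h2, h3, h4⟩ := hω 𝒰 h𝒰 z
  refine ⟨μ', h1, h2, h3, fun B hB Φ hΦ => ?_⟩
  obtain ⟨k, rfl⟩ : B ∈ Set.range C := hCr ▸ Set.mem_insert_of_mem _ hB
  let χ : Bool → ℝ := fun b => cond b 1 0
  have hχ : Continuous χ := continuous_of_discreteTopology
  have h5 := h4 (fun y => χ (y.1.2.1 k) * Φ (y.1.1, y.2)) (by fun_prop)
  have h6 : ∫ x in {x | x.1 ∈ C k}, Φ (m x.1, x.2) ∂μ' =
      ∫ x, χ ((e x.1).2.1 k) * Φ ((e x.1).1, x.2) ∂μ' := by
    have hs : MeasurableSet {x : D.Ω × (Z2 → Z) × (ℝ × ℝ) | x.1 ∈ C k} := measurable_fst (hCm k)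
    rw [← integral_indicator hs]
    refine integral_congr_ae (Eventually.of_forall fun x => ?_)
    by_cases hx : x.1 ∈ C k
    · simp [χ, e, hx, Set.indicator]
    · simp [χ, e, hx, Set.indicator]
  rw [h6]
  refine h5.congr fun u => ?_
  congr 1
  rw [sum_filter]
  refine sum_congr rfl fun w _ => ?_
  by_cases hx : D.T w ω ∈ C k
  · simp [χ, e, hx]
  · simp [χ, e, hx]

end ECub.Tn
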