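import Pool.Agent.P.MP_029dcd_co.F.T.Base

/-! Layer T: sums over random finite sets of labels.
Hints. `tail`: for every finite `S` (countably many) `ω ↦ (sec ω \ S).card` is measurable (a sum of indicators, e.g.
`∑' j, indicator` in `ℝ≥0∞`) and integrable, so `et2_erg` gives `BoxLim`; its integral tends to zero when `S` increases
(dominated convergence along an enumeration of `J`, or `ENNReal.tendsto_tsum_compl_atTop_zero` for
`∑' j, μ {ω | j ∈ sec ω} < ∞`). `hb (M * u)` is the rectangle of `BoxLim` with `A = M`. `sum_lim`: split both sides at a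
finite set `S` that is good for `htail` and for the integral. `integral_sec`: `integral_prod`, `integral_count` or a
direct computation with `lintegral_prod`, `lintegral_count`. -/

set_option autoImplicit false

namespace ECub.Tn

open CubicStab MeasureTheory Filter Topology Finset
open scoped ENNReal

namespace RTail

theorem meas_fin {W J β : Type} [MeasurableSpace W] [Countable J] [MeasurableSpace β]
    (sec : W → Finset J) (hm : ∀ j, MeasurableSet {x | j ∈ sec x}) (F : W → Finset J → β)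
    (hF : ∀ s, Measurable fun x => F x s) : Measurable fun x => F x (sec x) := by
  let _ : MeasurableSpace (Finset J) := ⊤
  have h1 : Measurable sec := by
    refine measurable_to_countable' fun s => ?_
    have : sec ⁻¹' {s} = ⋂ j, {x | j ∈ sec x ↔ j ∈ s} := by
      ext x
      simp only [Set.mem_preimage, Set.mem_singleton_iff, Set.mem_iInter, Finset.ext_iff]
      rfl
    rw [this]
    exact MeasurableSet.iInter fun j => MeasurableSet.iff (hm j) (MeasurableSet.const _)
  have h2 : Measurable fun y : W × Finset J => F y.1 y.2 :=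
    measurable_from_prod_countable_left hF
  exact h2.comp (measurable_id.prodMk h1)

theorem int_card {W J : Type} [MeasurableSpace W] (μ' : Measure W) [Countable J]
    (sec : W → Finset J) (hm : ∀ j, MeasurableSet {x | j ∈ sec x})
    (hfin : ∫⁻ x, ((sec x).card : ℝ≥0∞) ∂μ' < ∞) :
    Integrable (fun x => ((sec x).card : ℝ)) μ' := by
  refine ⟨(meas_fin sec hm (fun _ s => (s.card : ℝ))
    fun _ => measurable_const).aestronglyMeasurable, ?_⟩
  rw [hasFiniteIntegral_iff_enorm]
  simpa using hfin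

theorem int_sdiff {W J : Type} [MeasurableSpace W] (μ' : Measure W) [Countable J]
    [DecidableEq J] (sec : W → Finset J) (hm : ∀ j, MeasurableSet {x | j ∈ sec x})
    (hfin : ∫⁻ x, ((sec x).card : ℝ≥0∞) ∂μ' < ∞) (S : Finset J) :
    Integrable (fun x => ((sec x \ S).card : ℝ)) μ' := by
  refine (int_card μ' sec hm hfin).mono' (meas_fin sec hm (fun _ s => ((s \ S).card : ℝ))
    fun _ => measurable_const).aestronglyMeasurable (Eventually.of_forall fun x => ?_)
  rw [Real.norm_natCast]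
  exact_mod_cast card_le_card sdiff_subset

theorem tail_int {W J : Type} [MeasurableSpace W] (μ' : Measure W) [Countable J]
    [DecidableEq J] (sec : W → Finset J) (hm : ∀ j, MeasurableSet {x | j ∈ sec x})
    (hfin : ∫⁻ x, ((sec x).card : ℝ≥0∞) ∂μ' < ∞) (ε : ℝ) (hε : 0 < ε) :
    ∃ S0 : Finset J, ∀ S, S0 ⊆ S → ∫ x, ((sec x \ S).card : ℝ) ∂μ' ≤ ε := by
  have h := tendsto_integral_filter_of_dominated_convergence (μ := μ') (l := atTop)
    (F := fun (S : Finset J) x => ((sec x \ S).card : ℝ)) (f := fun _ => (0 : ℝ))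
    (fun x => ((sec x).card : ℝ))
    (Eventually.of_forall fun S => (int_sdiff μ' sec hm hfin S).aestronglyMeasurable)
    (Eventually.of_forall fun S => Eventually.of_forall fun x => by
      rw [Real.norm_natCast]
      exact_mod_cast card_le_card sdiff_subset)
    (int_card μ' sec hm hfin)
    (Eventually.of_forall fun x => tendsto_const_nhds.congr' (by
      filter_upwards [eventually_ge_atTop (sec x)] with S hS
      rw [sdiff_eq_empty_iff_subset.2 hS]; simp))
  rw [integral_zero] at h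
  obtain ⟨S0, hS0⟩ := eventually_atTop.1 (h.eventually (ge_mem_nhds hε))
  exact ⟨S0, fun S hS => hS0 S hS⟩

theorem abs_sum_le {J : Type} (s : Finset J) (f : J → ℝ) (C : ℝ) (h : ∀ j, |f j| ≤ C) :
    |∑ j ∈ s, f j| ≤ |C| * s.card := by
  refine (abs_sum_le_sum_abs _ _).trans ?_
  have := sum_le_card_nsmul s (fun j => |f j|) |C| fun j _ => (h j).trans (le_abs_self C)
  rwa [nsmul_eq_mul, mul_comm] at this

theorem split {J : Type} [DecidableEq J] (s S : Finset J) (f : J → ℝ) :
    ∑ j ∈ s, f j = ∑ j ∈ S, (if j ∈ s then f j else 0) + ∑ j ∈ s \ S, f j := by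
  rw [← sum_filter, filter_mem_eq_inter, inter_comm, sum_inter_add_sum_sdiff]

end RTail

open RTail

open Classical in
/-- labels outside a large finite set are rare along almost every orbit -/
theorem tail (D : Dyn) (hD : D.Erg) {J : Type} [Countable J] (sec : D.Ω → Finset J)
    (hm : ∀ j, MeasurableSet {ω | j ∈ sec ω})
    (hfin : ∫⁻ ω, ((sec ω).card : ℝ≥0∞) ∂D.μ < ∞) (M : ℕ) :
    ∀ᵐ ω ∂D.μ, ∀ ε : ℝ, 0 < ε → ∃ S : Finset J, ∀ᶠ u : ℕ in atTop,
      ∑ w ∈ hb (M * u), ((sec (D.T w ω) \ S).card : ℝ) ≤ ε * (u : ℝ) ^ 2 := by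
  have h : ∀ᵐ ω ∂D.μ, ∀ S : Finset J, BoxLim (fun w => ((sec (D.T w ω) \ S).card : ℝ))
      (∫ x, ((sec x \ S).card : ℝ) ∂D.μ) :=
    ae_all_iff.2 fun S => et2_erg D.μ D.T D.T_zero D.T_add D.mp hD
      (fun x => ((sec x \ S).card : ℝ)) (int_sdiff D.μ sec hm hfin S)
  filter_upwards [h] with ω hω ε hε
  obtain ⟨S, hS⟩ := tail_int D.μ sec hm hfin (ε / (8 * ((M : ℝ) + 1) ^ 2)) (by positivity)
  have hS' := hS S Subset.rfl
  refine ⟨S, ?_⟩
  filter_upwards [hω S M (ε / 2) (by positivity)] with u hu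
  have hc : ((M * u : ℕ) : ℤ) = (M : ℤ) * u := by push_cast; rfl
  have h1 := hu (-((M * u : ℕ) : ℤ)) (M * u : ℕ) (-((M * u : ℕ) : ℤ)) (M * u : ℕ)
    (by omega) (by omega) (by omega) (by omega) (by omega) (by omega)
  have h2 := (abs_le.1 h1).2
  rw [le_div_iff₀ (by positivity)] at hS'
  have h0 : 0 ≤ ∫ x, ((sec x \ S).card : ℝ) ∂D.μ := integral_nonneg fun x => Nat.cast_nonneg _
  set c := ∫ x, ((sec x \ S).card : ℝ) ∂D.μ
  have h3 : c * (8 * (M : ℝ) ^ 2) ≤ ε := by
    refine le_trans (mul_le_mul_of_nonneg_left ?_ h0) hS'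
    have : (0 : ℝ) ≤ M := Nat.cast_nonneg M
    nlinarith
  have h4 := mul_le_mul_of_nonneg_right h3 (sq_nonneg (u : ℝ))
  rw [hb]
  push_cast at h2 ⊢
  nlinarith

open Classical in
/-- a consequence of the tail estimate: the total number of labels is of the order `u ^ 2` -/
theorem count_le {J : Type} (s : Z2 → Finset J) (M : ℕ)
    (htail : ∀ ε : ℝ, 0 < ε → ∃ S : Finset J, ∀ᶠ u : ℕ in atTop,
      ∑ w ∈ hb (M * u), ((s w \ S).card : ℝ) ≤ ε * (u : ℝ) ^ 2) :
    ∃ C : ℝ, 0 < C ∧ ∀ᶠ u : ℕ in atTop,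
      ∑ w ∈ hb (M * u), ((s w).card : ℝ) ≤ C * (u : ℝ) ^ 2 := by
  obtain ⟨S, hS⟩ := htail 1 one_pos
  refine ⟨1 + 4 * (M : ℝ) ^ 2 * S.card, by positivity, hS.mono fun u hu => ?_⟩
  have h1 : ∑ w ∈ hb (M * u), ((s w).card : ℝ) ≤
      ∑ w ∈ hb (M * u), (((s w \ S).card : ℝ) + S.card) :=
    sum_le_sum fun w _ => by exact_mod_cast card_le_card_sdiff_add_card
  rw [sum_add_distrib, sum_const, nsmul_eq_mul, card_hb] at h1
  push_cast at h1
  nlinarith

open Classical in
/-- termwise convergence and the tail estimate give convergence of the sums over all labels -/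
theorem sum_lim {W J : Type} [MeasurableSpace W] (μ' : Measure W) [IsFiniteMeasure μ']
    [Countable J] (sec : W → Finset J) (hm : ∀ j, MeasurableSet {x | j ∈ sec x})
    (hfin : ∫⁻ x, ((sec x).card : ℝ≥0∞) ∂μ' < ∞) (𝓕 : Filter ℕ) (h𝓕 : 𝓕 ≤ atTop)
    (B : ℕ → Finset Z2) (s : Z2 → Finset J) (φ : ℕ → Z2 → J → ℝ) (Φ : W → J → ℝ)
    (hΦ : ∀ j, Measurable fun x => Φ x j) (C : ℝ) (hφb : ∀ u w j, |φ u w j| ≤ C)
    (hΦb : ∀ x j, |Φ x j| ≤ C)
    (htail : ∀ ε : ℝ, 0 < ε → ∃ S : Finset J, ∀ᶠ u : ℕ in atTop,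
      ∑ w ∈ B u, ((s w \ S).card : ℝ) ≤ ε * (u : ℝ) ^ 2)
    (hj : ∀ j, Tendsto (fun u : ℕ =>
      (∑ w ∈ (B u).filter (fun w => j ∈ s w), φ u w j) / (u : ℝ) ^ 2) 𝓕
      (𝓝 (∫ x in {x | j ∈ sec x}, Φ x j ∂μ'))) :
    Tendsto (fun u : ℕ => (∑ w ∈ B u, ∑ j ∈ s w, φ u w j) / (u : ℝ) ^ 2) 𝓕
      (𝓝 (∫ x, ∑ j ∈ sec x, Φ x j ∂μ')) := by
  rw [Metric.tendsto_nhds]
  intro ε hε
  have hε' : 0 < ε / (4 * (|C| + 1)) := by positivity
  have hCε : |C| * (ε / (4 * (|C| + 1))) ≤ ε / 4 := by
    rw [mul_div_assoc', div_le_div_iff₀ (by positivity) (by positivity)]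
    nlinarith [abs_nonneg C]
  obtain ⟨S1, hS1⟩ := htail _ hε'
  obtain ⟨S0, hS0⟩ := tail_int μ' sec hm hfin _ hε'
  have hI := hS0 (S0 ∪ S1) subset_union_left
  set S := S0 ∪ S1
  have hlim := Metric.tendsto_nhds.1 (tendsto_finsetSum S fun j _ => hj j) (ε / 2)
    (by positivity)
  have hiR : Integrable (fun x => ∑ j ∈ sec x \ S, Φ x j) μ' :=
    ((int_sdiff μ' sec hm hfin S).const_mul |C|).mono'
      (meas_fin sec hm (fun x s => ∑ j ∈ s \ S, Φ x j)
        fun _ => Finset.measurable_sum _ fun j _ => hΦ j).aestronglyMeasurable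
      (Eventually.of_forall fun x => abs_sum_le _ _ C (hΦb x))
  have hij : ∀ j, Integrable ({x | j ∈ sec x}.indicator fun x => Φ x j) μ' := fun j =>
    (Integrable.of_bound (hΦ j).aestronglyMeasurable C
      (Eventually.of_forall fun x => hΦb x j)).indicator (hm j)
  have hint : ∫ x, ∑ j ∈ sec x, Φ x j ∂μ' = ∑ j ∈ S, ∫ x in {x | j ∈ sec x}, Φ x j ∂μ' +
      ∫ x, ∑ j ∈ sec x \ S, Φ x j ∂μ' := by
    simp only [← integral_indicator (hm _)]
    rw [← integral_finsetSum _ fun j _ => hij j,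
      ← integral_add (integrable_finsetSum _ fun j _ => hij j) hiR]
    refine integral_congr_ae (Eventually.of_forall fun x => ?_)
    simp only [Set.indicator_apply, Set.mem_ofPred_eq]
    exact split _ _ _
  have hR : |∫ x, ∑ j ∈ sec x \ S, Φ x j ∂μ'| ≤ ε / 4 := by
    have h1 := norm_integral_le_of_norm_le (μ := μ') (f := fun x => ∑ j ∈ sec x \ S, Φ x j)
      ((int_sdiff μ' sec hm hfin S).const_mul |C|)
      (Eventually.of_forall fun x => abs_sum_le _ _ C (hΦb x))
    rw [integral_const_mul] at h1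
    exact h1.trans ((mul_le_mul_of_nonneg_left hI (abs_nonneg C)).trans hCε)
  filter_upwards [hlim, h𝓕 hS1, h𝓕 (eventually_ge_atTop 1)] with u h1 h2 h3
  have hu : (0 : ℝ) < (u : ℝ) ^ 2 := by
    have : (0 : ℝ) < u := by exact_mod_cast h3
    positivity
  have hsum : ∑ w ∈ B u, ∑ j ∈ s w, φ u w j =
      ∑ j ∈ S, ∑ w ∈ (B u).filter (fun w => j ∈ s w), φ u w j +
        ∑ w ∈ B u, ∑ j ∈ s w \ S, φ u w j := by
    simp only [sum_filter]
    rw [sum_comm (s := S), ← sum_add_distrib]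
    exact sum_congr rfl fun w _ => split _ _ _
  have hT : |(∑ w ∈ B u, ∑ j ∈ s w \ S, φ u w j) / (u : ℝ) ^ 2| ≤ ε / 4 := by
    rw [abs_div, abs_of_pos hu, div_le_iff₀ hu]
    have h4 : |∑ w ∈ B u, ∑ j ∈ s w \ S, φ u w j| ≤ |C| * ∑ w ∈ B u, ((s w \ S1).card : ℝ) := by
      rw [mul_sum]
      refine (abs_sum_le_sum_abs _ _).trans (sum_le_sum fun w _ => ?_)
      refine (abs_sum_le _ _ C (hφb u w)).trans (mul_le_mul_of_nonneg_left ?_ (abs_nonneg C))
      exact_mod_cast card_le_card (sdiff_subset_sdiff Subset.rfl subset_union_right)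
    refine h4.trans ((mul_le_mul_of_nonneg_left h2 (abs_nonneg C)).trans ?_)
    rw [← mul_assoc]
    exact mul_le_mul_of_nonneg_right hCε hu.le
  rw [Real.dist_eq] at h1 ⊢
  rw [hsum, hint, add_div, sum_div]
  have a1 := abs_lt.1 h1
  have a2 := abs_le.1 hR
  have a3 := abs_le.1 hT
  rw [abs_lt]
  constructor <;> linarith [a1.1, a1.2, a2.1, a2.2, a3.1, a3.2]

/-- integrals over random finite sets of labels -/
theorem integral_sec {W J : Type} [MeasurableSpace W] (μ' : Measure W) [IsFiniteMeasure μ']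
    [Countable J] [MeasurableSpace J] [MeasurableSingletonClass J] (sec : W → Finset J)
    (hm : ∀ j, MeasurableSet {x | j ∈ sec x}) (hfin : ∫⁻ x, ((sec x).card : ℝ≥0∞) ∂μ' < ∞)
    (Φ : W × J → ℝ) (hΦ : Measurable Φ) (C : ℝ) (hΦb : ∀ y, |Φ y| ≤ C) :
    ∫ y in {y : W × J | y.2 ∈ sec y.1}, Φ y ∂(μ'.prod Measure.count) =
      ∫ x, ∑ j ∈ sec x, Φ (x, j) ∂μ' := by
  have hS : MeasurableSet {y : W × J | y.2 ∈ sec y.1} :=
    measurableSet_setOfPred.2 (measurable_from_prod_countable_left fun j =>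
      measurableSet_setOfPred.1 (hm j))
  have hfin' : (μ'.prod Measure.count) {y : W × J | y.2 ∈ sec y.1} < ∞ := by
    rw [Measure.prod_apply hS]
    refine lt_of_eq_of_lt (lintegral_congr fun x => ?_) hfin
    exact Measure.count_apply_finset (sec x)
  have hi : IntegrableOn Φ {y : W × J | y.2 ∈ sec y.1} (μ'.prod Measure.count) :=
    Measure.integrableOn_of_bounded hfin'.ne hΦ.aestronglyMeasurable
      (Eventually.of_forall hΦb)
  rw [← integral_indicator hS, integral_prod _ ((integrable_indicator_iff hS).2 hi)]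
  refine integral_congr_ae (Eventually.of_forall fun x => ?_)
  have h1 : (fun j => {y : W × J | y.2 ∈ sec y.1}.indicator Φ (x, j)) =
      (sec x : Set J).indicator fun j => Φ (x, j) := rfl
  simp only [h1]
  have h2 : IntegrableOn (fun j => Φ (x, j)) (sec x : Set J) Measure.count :=
    Measure.integrableOn_of_bounded (by rw [Measure.count_apply_finset]; simp)
      (measurable_of_countable _).aestronglyMeasurable
      (Eventually.of_forall fun j => hΦb (x, j))
  rw [integral_indicator (sec x).measurableSet, setIntegral_finset _ h2]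
  simp

theorem count_prod_count :
    (Measure.count : Measure ℕ).prod (Measure.count : Measure ℕ) = Measure.count := by
  refine Measure.ext_of_singleton fun ⟨a, b⟩ => ?_
  rw [← Set.singleton_prod_singleton, Measure.prod_prod, Set.singleton_prod_singleton]
  simp

end ECub.Tn
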