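import Pool.Agent.P.MP_029dcd_co.F.T.Lim

/-! Layer T: weights, measurability and the extension defined by a stable limit. -/

set_option autoImplicit false

namespace ECub.Tn

open CubicStab MeasureTheory Filter Topology Finset
open scoped ENNReal NNReal

/-- a continuous weight that is positive exactly on the open square -/
noncomputable def chi (q : ℝ) (X : ℝ × ℝ) : ℝ := max 0 (min 1 (q - ‖X‖))

theorem continuous_chi (q : ℝ) : Continuous (chi q) := by
  unfold chi
  fun_prop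

theorem chi_nonneg (q : ℝ) (X : ℝ × ℝ) : 0 ≤ chi q X := le_max_left _ _

theorem chi_le_one (q : ℝ) (X : ℝ × ℝ) : chi q X ≤ 1 := max_le zero_le_one (min_le_left _ _)

theorem chi_ne_zero {q : ℝ} {X : ℝ × ℝ} : chi q X ≠ 0 ↔ X ∈ Q q := by
  have : X ∈ Q q ↔ ‖X‖ < q := by rw [mem_Q, Prod.norm_def, max_lt_iff]; rfl
  rw [this, chi, ne_eq, max_eq_left_iff, min_le_iff]
  simp only [not_or, not_le, zero_lt_one, true_and, sub_pos]

theorem isOpen_Q (q : ℝ) : IsOpen (Q q) := isOpen_Ioo.prod isOpen_Ioo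

/-- the weight on pairs of a line and an abscissa -/
noncomputable def W1 {n : ℕ} (q : ℝ) (y : Dt n × ℝ) : ℝ := chi q (y.2, y.1.2.1 + y.1.1 1 * y.2)

/-- the weight on pairs of lines -/
noncomputable def W2 {n : ℕ} (q : ℝ) (y : Dt n × Dt n) : ℝ :=
  min 1 |y.1.1 1 - y.2.1 1| * chi q (xp y.1 y.2)

theorem continuous_W1 {n : ℕ} (q : ℝ) : Continuous (W1 (n := n) q) :=
  (continuous_chi q).comp (by fun_prop)

theorem W2_nonneg {n : ℕ} (q : ℝ) (y : Dt n × Dt n) : 0 ≤ W2 q y :=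
  mul_nonneg (le_min zero_le_one (abs_nonneg _)) (chi_nonneg _ _)

theorem W2_le {n : ℕ} (q : ℝ) (y : Dt n × Dt n) : W2 q y ≤ min 1 |y.1.1 1 - y.2.1 1| :=
  mul_le_of_le_one_right (le_min zero_le_one (abs_nonneg _)) (chi_le_one _ _)

theorem W2_ne_zero {n : ℕ} {q : ℝ} {y : Dt n × Dt n} :
    W2 q y ≠ 0 ↔ y.1.1 1 ≠ y.2.1 1 ∧ xp y.1 y.2 ∈ Q q := by
  rw [W2, mul_ne_zero_iff, chi_ne_zero]
  exact and_congr_left fun _ => ⟨fun h h' => h (by simp [h']),
    fun h => (lt_min one_pos (abs_pos.2 (sub_ne_zero.2 h))).ne'⟩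

theorem continuous_W2 {n : ℕ} (q : ℝ) : Continuous (W2 (n := n) q) := by
  refine continuous_iff_continuousAt.2 fun y => ?_
  by_cases h : y.1.1 1 = y.2.1 1
  · have h0 : W2 q y = 0 := by simp [W2, h]
    rw [ContinuousAt, h0]
    refine squeeze_zero (W2_nonneg q) (fun z => (W2_le q z).trans (min_le_right _ _)) ?_
    have : Continuous fun z : Dt n × Dt n => |z.1.1 1 - z.2.1 1| := by fun_prop
    simpa [h] using this.tendsto y
  · have h' := sub_ne_zero.2 h
    refine ContinuousAt.mul (by fun_prop) ((continuous_chi q).continuousAt.comp ?_)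
    unfold xp
    fun_prop (disch := exact h')

theorem zero_of_integral {W : Type} [MeasurableSpace W] (μ' : Measure W) [IsFiniteMeasure μ']
    {C : Set W} (hC : MeasurableSet C) {f : W → ℝ} (hf : Measurable f) (h0 : ∀ x, 0 ≤ f x)
    (h1 : ∀ x, f x ≤ 1) (h : ∫ x in C, f x ∂μ' = 0) : ∀ᵐ x ∂μ', x ∈ C → f x = 0 := by
  rw [← ae_restrict_iff' hC]
  refine (integral_eq_zero_iff_of_nonneg h0 ?_).1 h
  exact Integrable.of_bound hf.aestronglyMeasurable 1
    (ae_of_all _ fun x => by rw [Real.norm_eq_abs, abs_of_nonneg (h0 x)]; exact h1 x)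

section Meas

variable {S : Sys} {A : Set (S.Ω × ℕ)}

theorem ms_valid (l : Lb) : MeasurableSet {ω | (S.Γ ω).valid l} :=
  S.meas.g l.1 (MeasurableSet.of_discrete (s := {a | l.2 < a}))

theorem ms_fam (l : Lb) (i : Fin 3) : MeasurableSet {ω | (S.Γ ω).fam l = i} :=
  S.meas.fam l (measurableSet_singleton i)

theorem ms_mem (hA : MeasurableSet A) (j : ℕ) : MeasurableSet {ω | (ω, j) ∈ A} :=
  measurable_prodMk_right hA

theorem ms_sec1 (hA : MeasurableSet A) (i : Fin 3) (j : ℕ) :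
    MeasurableSet {ω | j ∈ sec1 S A i ω} := by
  simp only [mem_sec1, Gal.Can]
  exact ((ms_valid _).inter ((ms_fam _ i).inter
    (S.meas.can _ (measurableSet_singleton true)))).inter (ms_mem hA j)

theorem ms_sec2 (hA : MeasurableSet A) (i i' : Fin 3) (p : ℕ × ℕ) :
    MeasurableSet {ω | p ∈ sec2 S A i i' ω} := by
  simp only [mem_sec2]
  exact ((S.meas.cr _ _ _ (measurableSet_singleton true)).inter ((ms_fam _ i).inter
    ((ms_fam _ i').inter (measurableSet_eq_fun (S.meas.t _) (S.meas.t _)).compl))).inter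
    ((ms_mem hA _).inter (ms_mem hA _))

theorem fin_sec1 (i : Fin 3) : ∫⁻ ω, ((sec1 S A i ω).card : ℝ≥0∞) ∂S.μ < ∞ := by
  obtain ⟨F, -, h1, h2⟩ := S.int
  refine (lintegral_mono fun ω => le_trans ?_ (h2 ω).1).trans_lt h1
  refine Nat.cast_le.2 ((card_le_card fun j hj => ?_).trans (card_range _).le)
  exact mem_range.2 (mem_sec1.1 hj).1.1

theorem fin_sec2 (i i' : Fin 3) : ∫⁻ ω, ((sec2 S A i i' ω).card : ℝ≥0∞) ∂S.μ < ∞ := by
  obtain ⟨F, -, h1, h2⟩ := S.int
  refine (lintegral_mono fun ω => le_trans ?_ (h2 ω).2.1).trans_lt h1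
  refine le_trans ?_ (ENNReal.sum_le_tsum (sec2 S A i i' ω))
  rw [card_eq_sum_ones, Nat.cast_sum]
  exact sum_le_sum fun p hp => by simp [(mem_sec2.1 hp).1.1]

end Meas

section Ext

/-- the marks of the labels of a cell -/
abbrev Zt (n : ℕ) := ℕ → Metric.closedBall (0 : H n) 1

instance sbZt (n : ℕ) : StandardBorelSpace (Zt n) := inferInstance

/-- the space of the extension -/
abbrev Wt (S : Sys) (n : ℕ) := S.Ω × (Z2 → Zt n) × (ℝ × ℝ)

variable {S : Sys} {n : ℕ} (Λ : (ℝ × ℝ) ≃L[ℝ] (ℝ × ℝ)) (q : ℝ)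

/-- the points whose position is in the square -/
def EQ : Set (Wt S n) := {x | Λ x.2.2 ∈ Q q}

/-- the normalising constant -/
noncomputable def cQ : ℝ≥0 := ((volume (Λ ⁻¹' Q q))⁻¹).toNNReal

open Classical in
/-- the macroscopic position -/
noncomputable def XX (x : Wt S n) : ℝ × ℝ := if Λ x.2.2 ∈ Q q then Λ x.2.2 else 0

/-- the additional marks -/
def hh (x : Wt S n × ℕ) : H n := x.1.2.1 0 x.2

theorem ms_EQ : MeasurableSet (EQ Λ q : Set (Wt S n)) :=
  (Λ.continuous.measurable.comp measurable_snd.snd) (isOpen_Q q).measurableSet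

theorem measurable_XX : Measurable (XX Λ q : Wt S n → ℝ × ℝ) :=
  Measurable.ite (ms_EQ Λ q) (Λ.continuous.measurable.comp measurable_snd.snd) measurable_const

theorem measurable_hh : Measurable (hh : Wt S n × ℕ → H n) :=
  measurable_from_prod_countable_left fun j => by
    simp only [hh]
    fun_prop

variable {Λ q}

theorem XX_eq {x : Wt S n} (h : x ∈ EQ Λ q) : XX Λ q x = Λ x.2.2 := if_pos h

theorem XX_mem (hq : 0 < q) (x : Wt S n) : XX Λ q x ∈ Q q := by
  unfold XX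
  split_ifs with h
  · exact h
  · exact mem_Q.2 ⟨by simpa using hq, by simpa using hq⟩

theorem BigM.sub {A' M : ℕ} (hM : BigM Λ q A' M) : Λ ⁻¹' Q q ⊆ sqr M := fun a ha => by
  have h1 : ‖a‖ ≤ M := by
    have h2 := (Λ.symm : (ℝ × ℝ) →L[ℝ] (ℝ × ℝ)).le_of_opNorm_le_of_le le_rfl
      (norm_lt_of_mem_Q ha).le
    have h3 : (A' : ℝ) ≤ M := by exact_mod_cast hM.le
    simp only [ContinuousLinearEquiv.coe_coe, ContinuousLinearEquiv.symm_apply_apply] at h2
    linarith [hM.nrm]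
  exact ⟨abs_le.1 ((norm_fst_le a).trans h1), abs_le.1 ((norm_snd_le a).trans h1)⟩

theorem vol_pre_ne (hq : 0 < q) : volume (Λ ⁻¹' Q q) ≠ 0 :=
  (((isOpen_Q q).preimage Λ.continuous).measure_pos volume
    ⟨0, by simpa using mem_Q.2 ⟨by simpa using hq, by simpa using hq⟩⟩).ne'

theorem BigM.vol_ne {A' M : ℕ} (hM : BigM Λ q A' M) : volume (Λ ⁻¹' Q q) ≠ ∞ :=
  ((measure_mono hM.sub).trans_lt (isCompact_Icc.prod isCompact_Icc).measure_lt_top).ne

theorem coe_cQ (hq : 0 < q) : (cQ Λ q : ℝ≥0∞) = (volume (Λ ⁻¹' Q q))⁻¹ :=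
  ENNReal.coe_toNNReal (ENNReal.inv_ne_top.2 (vol_pre_ne hq))

theorem BigM.cQ_mul {A' M : ℕ} (hM : BigM Λ q A' M) (hq : 0 < q) :
    (cQ Λ q : ℝ≥0∞) * volume (Λ ⁻¹' Q q) = 1 := by
  rw [coe_cQ hq, ENNReal.inv_mul_cancel (vol_pre_ne hq) hM.vol_ne]

theorem BigM.cQ_pos {A' M : ℕ} (hM : BigM Λ q A' M) (hq : 0 < q) : 0 < cQ Λ q := by
  refine pos_iff_ne_zero.2 fun h => ?_
  simpa [h] using hM.cQ_mul hq

theorem BigM.map_vol {A' M : ℕ} (hM : BigM Λ q A' M) (hq : 0 < q) :
    cQ Λ q • (volume.restrict (Λ ⁻¹' Q q)).map Λ =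
      (volume (Q q))⁻¹ • volume.restrict (Q q) := by
  have hQ := (isOpen_Q q).measurableSet
  obtain ⟨k, hk⟩ : ∃ k : ℝ≥0∞, (volume : Measure (ℝ × ℝ)).map Λ = k • volume :=
    ⟨_, Measure.map_linearMap_addHaar_eq_smul_addHaar volume
      (f := (Λ.toLinearEquiv : (ℝ × ℝ) →ₗ[ℝ] (ℝ × ℝ))) Λ.toLinearEquiv.isUnit_det'.ne_zero⟩
  have h1 := hM.cQ_mul hq
  rw [← Measure.map_apply Λ.continuous.measurable hQ, hk, Measure.smul_apply, smul_eq_mul,
    ← mul_assoc] at h1
  rw [← Measure.restrict_map Λ.continuous.measurable hQ, hk, Measure.restrict_smul,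
    ENNReal.smul_def, smul_smul, ENNReal.eq_inv_of_mul_eq_one_left h1]

/-- the properties of a stable limit -/
structure SLim (M : ℕ) (μ' : Measure (Wt S n)) : Prop where
  fin : IsFiniteMeasure μ'
  mp : ∀ w, MeasurePreserving (TT S.toDyn w) μ' μ'
  law : μ'.map (fun x => (x.1, x.2.2)) = S.μ.prod (volume.restrict (sqr M))

variable {A' M : ℕ} {μ' : Measure (Wt S n)}

theorem SLim.law' (h : SLim M μ') (hM : BigM Λ q A' M) (hq : 0 < q) :
    (cQ Λ q • μ'.restrict (EQ Λ q)).map (fun x => (x.1, XX Λ q x)) =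
      S.μ.prod ((volume (Q q))⁻¹ • volume.restrict (Q q)) := by
  have hQ : MeasurableSet (Λ ⁻¹' Q q) := Λ.continuous.measurable (isOpen_Q q).measurableSet
  have m1 : Measurable fun x : Wt S n => (x.1, x.2.2) := by fun_prop
  have m2 : Measurable (Prod.map id Λ : S.Ω × ℝ × ℝ → S.Ω × ℝ × ℝ) :=
    measurable_id.prodMap Λ.continuous.measurable
  have e1 : (μ'.restrict (EQ Λ q)).map (fun x => (x.1, x.2.2)) =
      S.μ.prod (volume.restrict (Λ ⁻¹' Q q)) := by
    have : (EQ Λ q : Set (Wt S n)) = (fun x => (x.1, x.2.2)) ⁻¹' (Set.univ ×ˢ (Λ ⁻¹' Q q)) := by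
      ext x; simp [EQ]
    rw [this, ← Measure.restrict_map m1 (MeasurableSet.univ.prod hQ), h.law,
      ← Measure.prod_restrict, Measure.restrict_univ, Measure.restrict_restrict hQ,
      Set.inter_eq_left.2 hM.sub]
  have e2 : (μ'.restrict (EQ Λ q)).map (fun x => (x.1, XX Λ q x)) =
      ((μ'.restrict (EQ Λ q)).map (fun x => (x.1, x.2.2))).map (Prod.map id Λ) := by
    rw [Measure.map_map m2 m1]
    refine Measure.map_congr ?_
    filter_upwards [ae_restrict_mem (ms_EQ Λ q)] with x hx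
    simp [XX_eq hx]
  rw [Measure.map_smul, e2, e1, ← Measure.map_prod_map _ _ measurable_id Λ.continuous.measurable,
    Measure.map_id, ← hM.map_vol hq, ENNReal.smul_def, ENNReal.smul_def, Measure.prod_smul_right]

theorem vol_Q (hq : 0 < q) : volume (Q q) ≠ 0 ∧ volume (Q q) ≠ ∞ :=
  ⟨((isOpen_Q q).measure_pos volume ⟨0, mem_Q.2 ⟨by simpa using hq, by simpa using hq⟩⟩).ne',
    ((measure_mono (Set.prod_mono Set.Ioo_subset_Icc_self Set.Ioo_subset_Icc_self)).trans_lt
      (isCompact_Icc.prod isCompact_Icc).measure_lt_top).ne⟩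

theorem prob_Q (hq : 0 < q) :
    IsProbabilityMeasure ((volume (Q q))⁻¹ • volume.restrict (Q q)) :=
  ⟨by simp [ENNReal.inv_mul_cancel (vol_Q hq).1 (vol_Q hq).2]⟩

theorem SLim.prob (h : SLim M μ') (hM : BigM Λ q A' M) (hq : 0 < q) :
    IsProbabilityMeasure (cQ Λ q • μ'.restrict (EQ Λ q)) := by
  have := prob_Q hq
  have m : Measurable fun x : Wt S n => (x.1, XX Λ q x) :=
    measurable_fst.prodMk (measurable_XX Λ q)
  constructor
  rw [← Set.preimage_univ (f := fun x : Wt S n => (x.1, XX Λ q x)),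
    ← Measure.map_apply m MeasurableSet.univ, h.law' hM hq, measure_univ]

/-- the extension -/
noncomputable def SLim.dyn (h : SLim M μ') (hM : BigM Λ q A' M) (hq : 0 < q) : Dyn where
  Ω := Wt S n
  μ := cQ Λ q • μ'.restrict (EQ Λ q)
  prob := h.prob hM hq
  T := TT S.toDyn
  T_zero x := by
    simp only [TT, S.T_zero]
    congr 2
    funext w
    simp [sh]
  T_add a b x := by
    simp only [TT, S.T_add]
    congr 2
    funext w
    simp only [sh]
    rw [add_comm a b, add_assoc]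
  mp w := ((h.mp w).restrict_preimage (ms_EQ Λ q)).smul_measure _

theorem SLim.fac (h : SLim M μ') (hM : BigM Λ q A' M) (hq : 0 < q) :
    (h.dyn hM hq).Fac S.toDyn Prod.fst := by
  have := prob_Q hq
  refine ⟨⟨measurable_fst, ?_⟩, fun _ _ => rfl⟩
  have m : Measurable fun x : Wt S n => (x.1, XX Λ q x) :=
    measurable_fst.prodMk (measurable_XX Λ q)
  have := congrArg (Measure.map Prod.fst) (h.law' hM hq)
  rw [Measure.map_map measurable_fst m, Measure.map_fst_prod, measure_univ, one_smul] at this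
  exact this

theorem SLim.fin_sec (h : SLim M μ') {f : S.Ω → ℝ≥0∞} (hf : Measurable f)
    (hi : ∫⁻ ω, f ω ∂S.μ < ∞) : ∫⁻ x, f x.1 ∂μ' < ∞ := by
  have m1 : Measurable fun x : Wt S n => (x.1, x.2.2) := by fun_prop
  have := lintegral_map (μ := μ') (hf.comp measurable_fst) m1
  simp only [Function.comp_def] at this
  rw [← this, h.law, lintegral_prod (fun a : S.Ω × ℝ × ℝ => f a.1)
    (hf.comp measurable_fst).aemeasurable]
  simp only [lintegral_const, Measure.restrict_apply_univ]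
  rw [lintegral_mul_const _ hf]
  exact ENNReal.mul_lt_top hi (isCompact_Icc.prod isCompact_Icc).measure_lt_top

end Ext

end ECub.Tn
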