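import Pool.Agent.P.MP_029dcd_co.F.T.TanA
import Pool.Agent.P.MP_029dcd_co.F.T.Tail

/-! Layer T: the stable limit of a galaxy with marks and its integrals. -/

set_option autoImplicit false

namespace ECub.Tn

open CubicStab MeasureTheory Filter Topology Finset
open scoped ENNReal NNReal

theorem measurable_card {W J : Type} [MeasurableSpace W] [Countable J] (sec : W → Finset J)
    (hm : ∀ j, MeasurableSet {x | j ∈ sec x}) : Measurable fun x => ((sec x).card : ℝ≥0∞) := by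
  have : (fun x => ((sec x).card : ℝ≥0∞)) =
      fun x => ∑' j, {x | j ∈ sec x}.indicator (fun _ => (1 : ℝ≥0∞)) x := by
    funext x
    rw [tsum_eq_sum (s := sec x) fun j hj => Set.indicator_of_notMem (s := {x | j ∈ sec x}) hj _,
      sum_congr rfl fun j hj => Set.indicator_of_mem (s := {x | j ∈ sec x}) hj _]
    simp
  rw [this]
  exact Measurable.tsum fun j => measurable_const.indicator (hm j)

theorem sum_le_of {α : Type} {s t : Finset α} {f g : α → ℝ} (hg : ∀ w, 0 ≤ g w)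
    (h : ∀ w ∈ s, f w ≠ 0 → w ∈ t ∧ f w ≤ g w) : ∑ w ∈ s, f w ≤ ∑ w ∈ t, g w := by
  classical
  rw [← sum_filter_ne_zero]
  refine (sum_le_sum fun w hw => (h w (mem_filter.1 hw).1 (mem_filter.1 hw).2).2).trans
    (sum_le_sum_of_subset_of_nonneg (fun w hw => ?_) fun w _ _ => hg w)
  exact (h w (mem_filter.1 hw).1 (mem_filter.1 hw).2).1

/-- the marks of the labels of the cell `0` -/
abbrev Kt (n : ℕ) (B0 : ℝ) := ℕ → Metric.closedBall (0 : E n) B0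

/-- the countable family of events -/
def CC (S : Sys) (A : Set (S.Ω × ℕ)) : Set (Set S.Ω) :=
  (Set.range (fun p : Fin 3 × ℕ => {ω | p.2 ∈ sec1 S A p.1 ω}) ∪
    Set.range (fun p : Fin 3 × Fin 3 × ℕ × ℕ => {ω | p.2.2 ∈ sec2 S A p.1 p.2.1 ω})) ∪
  (Set.range (fun τ : Fin 3 → ℕ => {ω | ω ∈ S.TA A ∧ (S.Γ ω).tl 0 = τ}) ∪
    Set.range (fun p : Lb × Lb =>
      {ω | (S.Γ ω).valid p.1 ∧ (S.Γ ω).valid p.2 ∧ (S.Γ ω).same p.1 p.2 = true}))

variable {S : Sys} {Λ : (ℝ × ℝ) ≃L[ℝ] (ℝ × ℝ)} {A : Set (S.Ω × ℕ)} {n : ℕ} {ν : S.Ω × ℕ → E n}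
  {B0 : ℝ} {ω : S.Ω} {hu : ℕ → Lb → H n}

theorem countable_CC : (CC S A).Countable :=
  ((Set.countable_range _).union (Set.countable_range _)).union
    ((Set.countable_range _).union (Set.countable_range _))

theorem ms_tl (hA : MeasurableSet A) (τ : Fin 3 → ℕ) :
    MeasurableSet {ω | ω ∈ S.TA A ∧ (S.Γ ω).tl 0 = τ} :=
  (S.measurableSet_TA hA).inter
    (measurable_pi_lambda _ (S.meas.tl 0) (measurableSet_singleton τ))

theorem ms_same (l l' : Lb) : MeasurableSet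
    {ω | (S.Γ ω).valid l ∧ (S.Γ ω).valid l' ∧ (S.Γ ω).same l l' = true} :=
  (ms_valid l).inter ((ms_valid l').inter (S.meas.same l l' (measurableSet_singleton true)))

theorem ms_CC (hA : MeasurableSet A) : ∀ C ∈ CC S A, MeasurableSet C := by
  rintro _ ((⟨p, rfl⟩ | ⟨p, rfl⟩) | ⟨p, rfl⟩ | ⟨p, rfl⟩)
  · exact ms_sec1 hA _ _
  · exact ms_sec2 hA _ _ _
  · exact ms_tl hA _
  · exact ms_same _ _

/-- the marks as a point of a compact space -/
def mk (hb : ∀ x, ‖ν x‖ ≤ B0) (ω : S.Ω) : Kt n B0 :=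
  fun j => ⟨ν (ω, j), mem_closedBall_zero_iff.2 (hb _)⟩

/-- the additional marks as a configuration -/
def zk (hb : ∀ u l, ‖hu u l‖ ≤ 1) (u : ℕ) (w : Z2) : Zt n :=
  fun j => ⟨hu u (w, j), mem_closedBall_zero_iff.2 (hb _ _)⟩

theorem measurable_mk (hν : Measurable ν) (hb : ∀ x, ‖ν x‖ ≤ B0) : Measurable (mk hb) :=
  measurable_pi_lambda _ fun _ => (hν.comp measurable_prodMk_right).subtype_mk

/-- the data of the label `j` -/
noncomputable def dd (Λ : (ℝ × ℝ) ≃L[ℝ] (ℝ × ℝ)) (j : ℕ)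
    (y : Kt n B0 × (Z2 → Zt n) × (ℝ × ℝ)) : Dt n :=
  (y.1 j, (Λ y.2.2).2 - (y.1 j : E n) 1 * (Λ y.2.2).1, y.2.1 0 j)

theorem continuous_dd (j : ℕ) : Continuous (dd (n := n) (B0 := B0) Λ j) := by
  have h1 : Continuous fun y : Kt n B0 × (Z2 → Zt n) × (ℝ × ℝ) => (y.1 j : E n) :=
    continuous_subtype_val.comp ((continuous_apply j).comp continuous_fst)
  have h2 : Continuous fun y : Kt n B0 × (Z2 → Zt n) × (ℝ × ℝ) => (y.2.1 0 j : H n) :=
    continuous_subtype_val.comp ((continuous_apply j).comp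
      ((continuous_apply 0).comp continuous_snd.fst))
  have h3 : Continuous fun y : Kt n B0 × (Z2 → Zt n) × (ℝ × ℝ) => Λ y.2.2 :=
    Λ.continuous.comp continuous_snd.snd
  exact h1.prodMk ((h3.snd.sub (((continuous_apply 1).comp h1).mul h3.fst)).prodMk h2)

theorem dd_orbit (hg : Good S Λ A ν B0 ω hu) (u : ℕ) (w : Z2) (j : ℕ) :
    dd Λ j (mk hg.bν (S.T w ω), sh w (zk hg.bh u), pos u w) = dw S Λ ν ω hu u (w, j) := by
  simp only [dd, dw, mk, zk, sh, add_zero, Sys.ev]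

theorem dd_dat (hb : ∀ x, ‖ν x‖ ≤ B0) {q : ℝ} {x : Wt S n} (hx : x ∈ EQ Λ q) (j : ℕ) :
    dat Prod.fst ν (XX Λ q) hh (x, j) = dd Λ j (mk hb x.1, x.2) := by
  simp only [dat, dd, mk, hh, pullF, XX_eq hx]

theorem measurable_dat (hν : Measurable ν) (q : ℝ) :
    Measurable (dat Prod.fst ν (XX Λ q) hh : Wt S n × ℕ → Dt n) := by
  have h1 : Measurable (pullF Prod.fst ν : Wt S n × ℕ → E n) :=
    hν.comp (measurable_fst.fst.prodMk measurable_snd)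
  have h2 : Measurable fun x : Wt S n × ℕ => XX Λ q x.1 := (measurable_XX Λ q).comp measurable_fst
  exact h1.prodMk ((h2.snd.sub (((measurable_pi_apply 1).comp h1).mul h2.fst)).prodMk
    measurable_hh)

theorem xp_pt (a a' : E n) (h : a 1 ≠ a' 1) (X : ℝ × ℝ) (b b' : H n) :
    xp (a, X.2 - a 1 * X.1, b) (a', X.2 - a' 1 * X.1, b') = X := by
  have := sub_ne_zero.2 h
  ext <;> simp only [xp] <;> field_simp <;> ring

open Classical in
/-- convergence of the empirical measures to the stable limit -/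
def Conv (hg : Good S Λ A ν B0 ω hu) (M : ℕ) (𝒰 : Ultrafilter ℕ) (μ' : Measure (Wt S n)) : Prop :=
  ∀ C ∈ CC S A, ∀ Φ : Kt n B0 × (Z2 → Zt n) × (ℝ × ℝ) → ℝ, Continuous Φ →
    Tendsto (fun u : ℕ => (∑ w ∈ (hb (M * u)).filter (fun w => S.T w ω ∈ C),
      Φ (mk hg.bν (S.T w ω), sh w (zk hg.bh u), pos u w)) / (u : ℝ) ^ 2) 𝒰
      (𝓝 (∫ x in {x | x.1 ∈ C}, Φ (mk hg.bν x.1, x.2) ∂μ'))

open Classical in
/-- the tail estimate for a random finite set -/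
def TailAt {J : Type} (sec : S.Ω → Finset J) (ω : S.Ω) (M : ℕ) : Prop :=
  ∀ ε : ℝ, 0 < ε → ∃ F : Finset J, ∀ᶠ u : ℕ in atTop,
    ∑ w ∈ hb (M * u), ((sec (S.T w ω) \ F).card : ℝ) ≤ ε * (u : ℝ) ^ 2

variable {hg : Good S Λ A ν B0 ω hu} {q : ℝ} {A' M : ℕ} {𝒰 : Ultrafilter ℕ}
  {μ' : Measure (Wt S n)}

theorem Conv.meas (hg : Good S Λ A ν B0 ω hu) {Φ : Kt n B0 × (Z2 → Zt n) × (ℝ × ℝ) → ℝ}
    (hΦ : Continuous Φ) : Measurable fun x : Wt S n => Φ (mk hg.bν x.1, x.2) :=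
  hΦ.measurable.comp (((measurable_mk hg.mk0.meas hg.bν).comp measurable_fst).prodMk
    measurable_snd)

/-- convergence of sums over a random finite set of labels -/
theorem Conv.sum (hc : Conv hg M 𝒰 μ') (h𝒰 : (𝒰 : Filter ℕ) ≤ atTop) (h : SLim M μ') {J : Type}
    [Countable J] (sec : S.Ω → Finset J) (hm : ∀ j, MeasurableSet {ω | j ∈ sec ω})
    (hC : ∀ j, {ω | j ∈ sec ω} ∈ CC S A) (hfin : ∫⁻ ω, ((sec ω).card : ℝ≥0∞) ∂S.μ < ∞)
    (ht : TailAt sec ω M) (Φ : J → Kt n B0 × (Z2 → Zt n) × (ℝ × ℝ) → ℝ)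
    (hΦ : ∀ j, Continuous (Φ j)) (C : ℝ) (hb' : ∀ j y, |Φ j y| ≤ C) :
    Tendsto (fun u : ℕ => (∑ w ∈ hb (M * u), ∑ j ∈ sec (S.T w ω),
      Φ j (mk hg.bν (S.T w ω), sh w (zk hg.bh u), pos u w)) / (u : ℝ) ^ 2) 𝒰
      (𝓝 (∫ x, ∑ j ∈ sec x.1, Φ j (mk hg.bν x.1, x.2) ∂μ')) := by
  have := h.fin
  refine sum_lim μ' (fun x => sec x.1) (fun j => measurable_fst (hm j))
    (h.fin_sec (measurable_card sec hm) hfin) _ h𝒰 (fun u => hb (M * u))
    (fun w => sec (S.T w ω)) _ _ (fun j => Conv.meas hg (hΦ j)) C (fun _ _ _ => hb' _ _)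
    (fun _ _ => hb' _ _) ht fun j => ?_
  refine (hc _ (hC j) _ (hΦ j)).congr fun u => ?_
  congr 2
  ext w
  simp only [mem_filter, Set.mem_ofPred]

/-- a nonnegative function with vanishing averages vanishes almost everywhere -/
theorem Conv.zero (hc : Conv hg M 𝒰 μ') (h : SLim M μ') {C : Set S.Ω} (hC : C ∈ CC S A)
    (hCm : MeasurableSet C) {Φ : Kt n B0 × (Z2 → Zt n) × (ℝ × ℝ) → ℝ} (hΦ : Continuous Φ)
    (h0 : ∀ y, 0 ≤ Φ y) (h1 : ∀ y, Φ y ≤ 1) {g : ℕ → ℝ}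
    (hg0 : Tendsto (fun u : ℕ => g u / (u : ℝ) ^ 2) 𝒰 (𝓝 0))
    (hle : ∀ (u : ℕ) (s : Finset Z2), (∀ w ∈ s, w ∈ hb (M * u) ∧ S.T w ω ∈ C) →
      ∑ w ∈ s, Φ (mk hg.bν (S.T w ω), sh w (zk hg.bh u), pos u w) ≤ g u) :
    ∀ᵐ x ∂μ', x.1 ∈ C → Φ (mk hg.bν x.1, x.2) = 0 := by
  have := h.fin
  refine zero_of_integral μ' (measurable_fst hCm) (Conv.meas hg hΦ) (fun _ => h0 _)
    (fun _ => h1 _) (tendsto_nhds_unique (hc C hC Φ hΦ) ?_)
  refine squeeze_zero (fun u => div_nonneg (sum_nonneg fun _ _ => h0 _) (by positivity))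
    (fun u => div_le_div_of_nonneg_right (hle u _ fun w hw => ?_) (by positivity)) hg0
  simpa only [mem_filter] using hw

theorem SLim.ae (h : SLim M μ') (hM : BigM Λ q A' M) (hq : 0 < q) {p : Wt S n → Prop}
    (hp : ∀ᵐ x ∂μ', p x) : ∀ᵐ x ∂(h.dyn hM hq).μ, x ∈ EQ Λ q ∧ p x :=
  Measure.ae_smul_measure ((ae_restrict_mem (ms_EQ Λ q)).and (ae_restrict_of_ae hp)) _

/-- integrals over random finite sets of labels in the extension -/
theorem SLim.integral (h : SLim M μ') (hM : BigM Λ q A' M) (hq : 0 < q) {J : Type} [Countable J]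
    [MeasurableSpace J] [MeasurableSingletonClass J] (sec : S.Ω → Finset J)
    (hm : ∀ j, MeasurableSet {ω | j ∈ sec ω}) (hfin : ∫⁻ ω, ((sec ω).card : ℝ≥0∞) ∂S.μ < ∞)
    (Φ : Wt S n × J → ℝ) (hΦ : Measurable Φ) (C : ℝ) (hb' : ∀ y, |Φ y| ≤ C) (Φ' : Wt S n → J → ℝ)
    (h1 : ∀ x j, x ∈ EQ Λ q → Φ (x, j) = Φ' x j) (h2 : ∀ x j, x ∉ EQ Λ q → Φ' x j = 0) :
    ∫ y in {y : Wt S n × J | y.2 ∈ sec y.1.1}, Φ y
        ∂((cQ Λ q • μ'.restrict (EQ Λ q)).prod Measure.count) =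
      cQ Λ q * ∫ x, ∑ j ∈ sec x.1, Φ' x j ∂μ' := by
  have := h.prob hM hq
  rw [integral_sec (cQ Λ q • μ'.restrict (EQ Λ q)) (fun x : Wt S n => sec x.1) (fun j => measurable_fst (hm j))
    (((h.fac hM hq).mp.lintegral_comp (measurable_card sec hm)).trans_lt hfin) Φ hΦ C hb',
    integral_smul_nnreal_measure, NNReal.smul_def, smul_eq_mul,
    setIntegral_congr_fun (ms_EQ Λ q) fun x hx => sum_congr rfl fun j _ => h1 x j hx,
    setIntegral_eq_integral_of_forall_compl_eq_zero fun x hx => sum_eq_zero fun j _ => h2 x j hx]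

end ECub.Tn
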