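import Pool.Agent.P.MP_029dcd_co.F.T.SL
import Pool.Agent.P.MP_029dcd_co.F.T.TanB

/-! Layer T: existence of tangent systems. -/

set_option autoImplicit false

namespace ECub.Tn

open CubicStab MeasureTheory Filter Topology Finset
open scoped ENNReal NNReal

section Parts

variable {S : Sys} {Λ : (ℝ × ℝ) ≃L[ℝ] (ℝ × ℝ)} {A : Set (S.Ω × ℕ)} {n : ℕ} {ν : S.Ω × ℕ → E n}
  {B0 : ℝ} {ω : S.Ω} {hu : ℕ → Lb → H n} {hg : Good S Λ A ν B0 ω hu} {q : ℝ} {A' M : ℕ}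
  {𝒰 : Ultrafilter ℕ} {μ' : Measure (Wt S n)}

theorem abs_mul_le {Y : Type} [TopologicalSpace Y] (Ψ : BoundedContinuousFunction Y ℝ) {W : Y → ℝ}
    (h0 : ∀ y, 0 ≤ W y) (h1 : ∀ y, W y ≤ 1) (y : Y) : |Ψ y * W y| ≤ ‖Ψ‖ := by
  rw [abs_mul, abs_of_nonneg (h0 y)]
  exact (mul_le_of_le_one_right (abs_nonneg _) (h1 y)).trans (Ψ.norm_coe_le_norm y)

theorem W1_pt (a : E n) (X : ℝ × ℝ) (b : H n) :
    W1 q ((a, X.2 - a 1 * X.1, b), X.1) = chi q X := by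
  simp [W1]

theorem ms_Q1 : MeasurableSet {y : Dt n × ℝ | (y.2, y.1.2.1 + y.1.1 1 * y.2) ∈ Q q} :=
  ((isOpen_Q q).preimage (by fun_prop)).measurableSet

theorem ms_Q2 : MeasurableSet {y : Dt n × Dt n | y.1.1 1 ≠ y.2.1 1 ∧ xp y.1 y.2 ∈ Q q} := by
  simp only [← W2_ne_zero]
  exact (isOpen_ne_fun (continuous_W2 q) continuous_const).measurableSet

theorem fin_Q1 (nm : Measure (Dt n)) [IsFiniteMeasure nm] : IsFiniteMeasure
    ((nm.prod volume).restrict {y : Dt n × ℝ | (y.2, y.1.2.1 + y.1.1 1 * y.2) ∈ Q q}) := by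
  constructor
  rw [Measure.restrict_apply_univ]
  refine (measure_mono (t := Set.univ ×ˢ Set.Ioo (-q) q) fun y hy => ⟨trivial, hy.1⟩).trans_lt ?_
  rw [Measure.prod_prod]
  exact ENNReal.mul_lt_top (measure_lt_top _ _) measure_Ioo_lt_top

theorem ms_sec {W J : Type} [MeasurableSpace W] [Countable J] [MeasurableSpace J]
    [MeasurableSingletonClass J] (sec : W → Finset J) (hm : ∀ j, MeasurableSet {x | j ∈ sec x}) :
    MeasurableSet {y : W × J | y.2 ∈ sec y.1} :=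
  (measurable_from_prod_countable_left (f := fun y : W × J => y.2 ∈ sec y.1)
    fun j => (hm j).mem).setOf

theorem SLim.fin_prod (h : SLim M μ') (hM : BigM Λ q A' M) (hq : 0 < q) {J : Type} [Countable J]
    [MeasurableSpace J] [MeasurableSingletonClass J] (sec : S.Ω → Finset J)
    (hm : ∀ j, MeasurableSet {ω | j ∈ sec ω}) (hfin : ∫⁻ ω, ((sec ω).card : ℝ≥0∞) ∂S.μ < ∞) :
    IsFiniteMeasure (((cQ Λ q • μ'.restrict (EQ Λ q)).prod Measure.count).restrict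
      {y : Wt S n × J | y.2 ∈ sec y.1.1}) := by
  constructor
  rw [Measure.restrict_apply_univ, Measure.prod_apply
    (ms_sec (fun x : Wt S n => sec x.1) fun j => measurable_fst (hm j))]
  refine lt_of_eq_of_lt (lintegral_congr fun x => ?_)
    (((h.fac hM hq).mp.lintegral_comp (measurable_card sec hm)).trans_lt hfin)
  exact Measure.count_apply_finset (sec x.1)

theorem SLim.mh_eq (h : SLim M μ') (hM : BigM Λ q A' M) (hq : 0 < q) (hA : MeasurableSet A)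
    (i : Fin 3) :
    ((S.pull (h.dyn hM hq) Prod.fst (h.fac hM hq)).mh i).restrict (pullS Prod.fst A) =
      ((cQ Λ q • μ'.restrict (EQ Λ q)).prod Measure.count).restrict
        {y : Wt S n × ℕ | y.2 ∈ sec1 S A i y.1.1} := by
  refine (Measure.restrict_restrict (s := pullS Prod.fst A)
    ((measurable_fst.fst.prodMk measurable_snd) hA)).trans ?_
  congr 1
  ext y
  exact (and_comm.trans mem_sec1.symm :)

theorem SLim.pm_eq (h : SLim M μ') (hM : BigM Λ q A' M) (hq : 0 < q) (hA : MeasurableSet A)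
    (i i' : Fin 3) :
    ((S.pull (h.dyn hM hq) Prod.fst (h.fac hM hq)).pm i i').restrict
      {x : Wt S n × ℕ × ℕ | (x.1, x.2.1) ∈ pullS Prod.fst A ∧ (x.1, x.2.2) ∈ pullS Prod.fst A} =
      ((cQ Λ q • μ'.restrict (EQ Λ q)).prod Measure.count).restrict
        {y : Wt S n × ℕ × ℕ | y.2 ∈ sec2 S A i i' y.1.1} := by
  refine (Measure.restrict_restrict (s := {x : Wt S n × ℕ × ℕ |
      (x.1, x.2.1) ∈ pullS Prod.fst A ∧ (x.1, x.2.2) ∈ pullS Prod.fst A})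
    (((measurable_fst.fst.prodMk measurable_snd.fst) hA).inter
      ((measurable_fst.fst.prodMk measurable_snd.snd) hA))).trans ?_
  rw [count_prod_count]
  congr 1
  ext y
  exact (and_comm.trans mem_sec2.symm :)

theorem part1 (hA : MeasurableSet A) (hc : Conv hg M 𝒰 μ') (h𝒰 : (𝒰 : Filter ℕ) ≤ atTop)
    (h : SLim M μ') (hM : BigM Λ q A' M) (hq : 0 < q) (i : Fin 3) (nm : Measure (Dt n))
    [IsFiniteMeasure nm] (hs : nm (Ki n B0 (3 * q) i)ᶜ = 0)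
    (hnm : ∀ F : Dt n → ℝ, Continuous F → Tendsto (fun u : ℕ =>
      (∑ l ∈ S.lnsA A ω i (3 * q * (S.Γ ω).R u), F (du S ν ω hu u l)) / (u : ℝ)) 𝒰
      (𝓝 (∫ d, F d ∂nm)))
    (ht : TailAt (sec1 S A i) ω M)
    (hfew : ∃ K : ℝ, 0 < K ∧ ∀ᶠ u : ℕ in atTop,
      ((S.lnsA A ω i (3 * q * (S.Γ ω).R u)).card : ℝ) ≤ K * u) :
    (((cQ Λ q • μ'.restrict (EQ Λ q)).prod Measure.count).restrict
        {y : Wt S n × ℕ | y.2 ∈ sec1 S A i y.1.1}).map
      (fun x : Wt S n × ℕ => (dat Prod.fst ν (XX Λ q) hh x, (XX Λ q x.1).1))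
    = cQ Λ q • (((nm.prod volume).restrict
        {y : Dt n × ℝ | (y.2, y.1.2.1 + y.1.1 1 * y.2) ∈ Q q}).withDensity
        fun y => ENNReal.ofReal (rho Λ i (y.1.1 1))) := by
  have f1 := fin_Q1 (q := q) nm
  obtain ⟨r1, r2, -, hr⟩ := rho_bounds hg.ok
  have cρ : Continuous fun y : Dt n × ℝ => rho Λ i (y.1.1 1) :=
    (continuous_rho Λ i).comp (by fun_prop)
  have ρ0 : ∀ t, 0 ≤ rho Λ i t := fun t => abs_nonneg _
  have hρ : ∀ᵐ y ∂(nm.prod (volume : Measure ℝ)), rho Λ i (y.1.1 1) ≤ r2 := by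
    filter_upwards [Measure.quasiMeasurePreserving_fst.ae (mem_ae_iff.2 hs)] with y hy
    exact (hr i _ hy.2.2).2
  have f2 : IsFiniteMeasure (((nm.prod volume).restrict
      {y : Dt n × ℝ | (y.2, y.1.2.1 + y.1.1 1 * y.2) ∈ Q q}).withDensity
      fun y => ENNReal.ofReal (rho Λ i (y.1.1 1))) :=
    isFiniteMeasure_withDensity_ofReal (Integrable.of_bound cρ.aestronglyMeasurable r2 (by
      filter_upwards [ae_restrict_of_ae hρ] with y hy
      rwa [Real.norm_eq_abs, abs_of_nonneg (ρ0 _)])).2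
  have mf : Measurable fun x : Wt S n × ℕ => (dat Prod.fst ν (XX Λ q) hh x, (XX Λ q x.1).1) :=
    (measurable_dat hg.mk0.meas q).prodMk ((measurable_XX Λ q).comp measurable_fst).fst
  have f4 := h.fin_prod hM hq (sec1 S A i) (ms_sec1 hA i) (fin_sec1 i)
  refine ext_weight _ _ (W1 q) (continuous_W1 q).measurable (fun _ => chi_nonneg _ _)
    (fun _ => chi_le_one _ _) ?_ ?_ fun Ψ => ?_
  · refine (ae_map_iff mf.aemeasurable
      (isOpen_ne_fun (continuous_W1 q) continuous_const).measurableSet).2 (ae_of_all _ fun x => ?_)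
    exact (W1_pt _ _ _).trans_ne (chi_ne_zero.2 (XX_mem hq _))
  · refine Measure.ae_smul_measure ((withDensity_absolutelyContinuous _ _).ae_le ?_) _
    filter_upwards [ae_restrict_mem ms_Q1] with y hy
    exact chi_ne_zero.2 hy
  have cG : Continuous fun y => Ψ y * W1 q y := Ψ.continuous.mul (continuous_W1 q)
  have bG := abs_mul_le Ψ (W := W1 q) (fun _ => chi_nonneg _ _) (fun _ => chi_le_one _ _)
  have sG : ∀ y : Dt n × ℝ, Ψ y * W1 q y ≠ 0 → (y.2, y.1.2.1 + y.1.1 1 * y.2) ∈ Q q :=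
    fun y hy => chi_ne_zero.1 (right_ne_zero_of_mul hy)
  have l1 := hc.sum h𝒰 h (sec1 S A i) (ms_sec1 hA i) (fun j => Or.inl (Or.inl ⟨(i, j), rfl⟩))
    (fin_sec1 i) ht (fun j y => Ψ (dd Λ j y, (Λ y.2.2).1) * W1 q (dd Λ j y, (Λ y.2.2).1))
    (fun j => cG.comp ((continuous_dd j).prodMk (Λ.continuous.comp continuous_snd.snd).fst))
    ‖Ψ‖ fun _ _ => bG _
  simp only [dd_orbit hg] at l1
  have l3 := hg.lim1 hM h𝒰 i nm hs hnm (count_le _ M ht) hfew _ cG sG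
  have l2 := tendsto_nhds_unique l1 l3
  have l4 := h.integral hM hq (sec1 S A i) (ms_sec1 hA i) (fin_sec1 i) _ (cG.measurable.comp mf) ‖Ψ‖
    (fun _ => bG _) (fun x j => Ψ (dd Λ j (mk hg.bν x.1, x.2), (Λ x.2.2).1) *
      W1 q (dd Λ j (mk hg.bν x.1, x.2), (Λ x.2.2).1))
    (fun x j hx => by simp only [Function.comp_apply, dd_dat hg.bν hx, XX_eq hx])
    (fun x j hx => mul_eq_zero_of_right _ ((W1_pt _ _ _).trans
      (not_not.1 fun h' => hx (chi_ne_zero.1 h'))))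
  simp only [Function.comp_apply] at l4
  rw [integral_map mf.aemeasurable cG.aestronglyMeasurable, l4,
    l2, integral_smul_nnreal_measure, NNReal.smul_def, smul_eq_mul,
    integral_withDensity_eq_integral_toReal_smul cρ.measurable.ennreal_ofReal
      (ae_of_all _ fun _ => ENNReal.ofReal_lt_top)]
  simp only [ENNReal.toReal_ofReal (ρ0 _), smul_eq_mul]
  have s0 : ∀ y : Dt n × ℝ, y ∉ {y : Dt n × ℝ | (y.2, y.1.2.1 + y.1.1 1 * y.2) ∈ Q q} →
      rho Λ i (y.1.1 1) * (Ψ y * W1 q y) = 0 :=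
    fun y hy => mul_eq_zero_of_right _ (not_not.1 fun h' => hy (sG y h'))
  have hint : Integrable (fun y : Dt n × ℝ => rho Λ i (y.1.1 1) * (Ψ y * W1 q y))
      (nm.prod volume) := by
    refine IntegrableOn.integrable_of_forall_notMem_eq_zero
      (Integrable.of_bound (cρ.mul cG).aestronglyMeasurable (r2 * ‖Ψ‖) ?_) s0
    filter_upwards [ae_restrict_of_ae hρ] with y hy
    rw [Real.norm_eq_abs, abs_mul, abs_of_nonneg (ρ0 _)]
    exact mul_le_mul hy (bG y) (abs_nonneg _) ((ρ0 _).trans hy)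
  rw [setIntegral_eq_integral_of_forall_compl_eq_zero s0, integral_prod _ hint]
  simp only [integral_const_mul]

theorem part2 (hA : MeasurableSet A) (hc : Conv hg M 𝒰 μ') (h𝒰 : (𝒰 : Filter ℕ) ≤ atTop)
    (h : SLim M μ') (hM : BigM Λ q A' M) (hq : 0 < q) (i i' : Fin 3) (nm : Measure (Dt n × Dt n))
    [IsFiniteMeasure nm]
    (hnm : ∀ F : Dt n × Dt n → ℝ, Continuous F → Tendsto (fun u : ℕ =>
      (∑ l ∈ S.lnsA A ω i (3 * q * (S.Γ ω).R u), ∑ l' ∈ S.lnsA A ω i' (3 * q * (S.Γ ω).R u),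
        F (du S ν ω hu u l, du S ν ω hu u l')) / (u : ℝ) ^ 2) 𝒰 (𝓝 (∫ d, F d ∂nm)))
    (ht : TailAt (sec2 S A i i') ω M) :
    (((cQ Λ q • μ'.restrict (EQ Λ q)).prod Measure.count).restrict
        {y : Wt S n × ℕ × ℕ | y.2 ∈ sec2 S A i i' y.1.1}).map
      (fun x : Wt S n × ℕ × ℕ => (dat Prod.fst ν (XX Λ q) hh (x.1, x.2.1),
        dat Prod.fst ν (XX Λ q) hh (x.1, x.2.2)))
    = cQ Λ q • nm.restrict {y : Dt n × Dt n | y.1.1 1 ≠ y.2.1 1 ∧ xp y.1 y.2 ∈ Q q} := by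
  have mf : Measurable fun x : Wt S n × ℕ × ℕ => (dat Prod.fst ν (XX Λ q) hh (x.1, x.2.1),
      dat Prod.fst ν (XX Λ q) hh (x.1, x.2.2)) :=
    ((measurable_dat hg.mk0.meas q).comp (measurable_fst.prodMk measurable_snd.fst)).prodMk
      ((measurable_dat hg.mk0.meas q).comp (measurable_fst.prodMk measurable_snd.snd))
  have f4 := h.fin_prod hM hq (sec2 S A i i') (ms_sec2 hA i i') (fin_sec2 i i')
  have ms := ms_sec (fun x : Wt S n => sec2 S A i i' x.1) fun p => measurable_fst (ms_sec2 hA i i' p)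
  have W1' : ∀ y : Dt n × Dt n, W2 q y ≤ 1 := fun y => (W2_le q y).trans (min_le_left _ _)
  refine ext_weight _ _ (W2 q) (continuous_W2 q).measurable (W2_nonneg q) W1' ?_ ?_ fun Ψ => ?_
  · refine (ae_map_iff mf.aemeasurable
      (isOpen_ne_fun (continuous_W2 q) continuous_const).measurableSet).2 ?_
    filter_upwards [ae_restrict_mem ms] with x hx
    obtain ⟨⟨c1, -, -, c2⟩, -⟩ := mem_sec2.1 hx
    obtain ⟨v1, v2, -⟩ := (S.ax _).cr_valid _ _ _ c1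
    have c3 : ν (x.1.1, x.2.1) 1 ≠ ν (x.1.1, x.2.2) 1 := by
      rwa [hg.mk0.slope _ v1, hg.mk0.slope _ v2]
    exact W2_ne_zero.2 ⟨c3, (congrArg (· ∈ Q q) (xp_pt _ _ c3 (XX Λ q x.1) _ _)).mpr (XX_mem hq _)⟩
  · refine Measure.ae_smul_measure ?_ _
    filter_upwards [ae_restrict_mem ms_Q2] with y hy
    exact W2_ne_zero.2 hy
  have cG : Continuous fun y => Ψ y * W2 q y := Ψ.continuous.mul (continuous_W2 q)
  have bG := abs_mul_le Ψ (W2_nonneg q) W1'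
  have sG : ∀ y : Dt n × Dt n, Ψ y * W2 q y ≠ 0 → y.1.1 1 ≠ y.2.1 1 ∧ xp y.1 y.2 ∈ Q q :=
    fun y hy => W2_ne_zero.1 (right_ne_zero_of_mul hy)
  have l1 := hc.sum h𝒰 h (sec2 S A i i') (ms_sec2 hA i i')
    (fun p => Or.inl (Or.inr ⟨(i, i', p), rfl⟩)) (fin_sec2 i i') ht
    (fun p y => Ψ (dd Λ p.1 y, dd Λ p.2 y) * W2 q (dd Λ p.1 y, dd Λ p.2 y))
    (fun p => cG.comp ((continuous_dd p.1).prodMk (continuous_dd p.2))) ‖Ψ‖ fun _ _ => bG _
  simp only [dd_orbit hg] at l1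
  have l0 := hnm _ cG
  have l3 := hg.lim2 hM h𝒰 i i' (count_le _ M ht) _ cG sG l0
  have l2 := tendsto_nhds_unique l1 l3
  have l4 := h.integral hM hq (sec2 S A i i') (ms_sec2 hA i i') (fin_sec2 i i') _
    (cG.measurable.comp mf) ‖Ψ‖ (fun _ => bG _)
    (fun x p => Ψ (dd Λ p.1 (mk hg.bν x.1, x.2), dd Λ p.2 (mk hg.bν x.1, x.2)) *
      W2 q (dd Λ p.1 (mk hg.bν x.1, x.2), dd Λ p.2 (mk hg.bν x.1, x.2)))
    (fun x p hx => by simp only [Function.comp_apply, dd_dat hg.bν hx])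
    (fun x p hx => not_not.1 fun h' => hx (by
      obtain ⟨a1, a2⟩ := sG _ h'
      exact (congrArg (· ∈ Q q) (xp_pt _ _ a1 (Λ x.2.2) _ _)).mp a2))
  simp only [Function.comp_apply] at l4
  rw [integral_map mf.aemeasurable cG.aestronglyMeasurable, l4,
    l2, integral_smul_nnreal_measure, NNReal.smul_def, smul_eq_mul,
    setIntegral_eq_integral_of_forall_compl_eq_zero
      (s := {y : Dt n × Dt n | y.1.1 1 ≠ y.2.1 1 ∧ xp y.1 y.2 ∈ Q q})
      fun y hy => not_not.1 fun h' => hy (sG y h')]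

theorem part_line (hc : Conv hg M 𝒰 μ') (h : SLim M μ') (hM : BigM Λ q A' M) (hq : 0 < q) :
    (S.pull (h.dyn hM hq) Prod.fst (h.fac hM hq)).LineFn (hh : Wt S n × ℕ → H n) := by
  have key : ∀ l l' : Lb, ∀ᵐ x ∂μ', x.1 ∈ {ω | (S.Γ ω).valid l ∧ (S.Γ ω).valid l' ∧
      (S.Γ ω).same l l' = true} → min 1 (dist (x.2.1 (l.1 + 0) l.2) (x.2.1 (l'.1 + 0) l'.2)) = 0 :=
    fun l l' => hc.zero h (Or.inr (Or.inr ⟨(l, l'), rfl⟩)) (ms_same l l')
      (Φ := fun y => min 1 (dist (y.2.1 (l.1 + 0) l.2) (y.2.1 (l'.1 + 0) l'.2))) (by fun_prop)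
      (fun _ => le_min zero_le_one dist_nonneg) (fun _ => min_le_left _ _) (g := fun _ => 0)
      (by simp) fun u s hs => (sum_eq_zero fun w hw => by
        obtain ⟨-, a1, a2, a3⟩ := hs w hw
        have := hg.lh u _ _ ((valid_T ω w l.1 l.2).1 a1) ((valid_T ω w l'.1 l'.2).1 a2)
          (((S.shift ω w).same l.1 l.2 l'.1 l'.2).symm.trans a3)
        simp [sh, zk, this]).le
  filter_upwards [h.ae hM hq (ae_all_iff.2 fun l => ae_all_iff.2 (key l))] with x hx l l' a1 a2 a3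
  have := hx.2 l l' ⟨a1, a2, a3⟩
  rw [min_eq_iff] at this
  rcases this with h1 | h1
  · exact absurd h1.1 one_ne_zero
  · exact congrArg Subtype.val (dist_eq_zero.1 h1.1)

theorem mem_cellsQ {u : ℕ} {w : Z2} (hw : w ∈ hb (M * u)) (hQ : Λ (pos u w) ∈ Q q) :
    w ∈ cellsQ Λ q u := by
  have hu : (0 : ℝ) < u := by
    rcases Nat.eq_zero_or_pos u with rfl | h
    · have := mem_hb.1 hw
      simp at this
      omega
    · exact_mod_cast h
  have h2 := (Λ.symm : (ℝ × ℝ) →L[ℝ] (ℝ × ℝ)).le_of_opNorm_le_of_le le_rfl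
    (norm_lt_of_mem_Q hQ).le
  simp only [ContinuousLinearEquiv.coe_coe, ContinuousLinearEquiv.symm_apply_apply] at h2
  have h3 := h2.trans (Nat.le_ceil _)
  set N := ⌈‖(Λ.symm : (ℝ × ℝ) →L[ℝ] (ℝ × ℝ))‖ * q⌉₊
  have key : ∀ a : ℤ, |(a : ℝ) / u| ≤ N →
      0 - ((N * u : ℕ) : ℤ) ≤ a ∧ a ≤ 0 + ((N * u : ℕ) : ℤ) := fun a ha => by
    rw [abs_div, abs_of_pos hu, div_le_iff₀ hu, abs_le] at ha
    rw [zero_sub, zero_add]
    exact ⟨by exact_mod_cast ha.1, by exact_mod_cast ha.2⟩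
  simp only [cellsQ, mem_filter]
  exact ⟨mem_box.2 ⟨key _ ((norm_fst_le (pos u w)).trans h3),
    key _ ((norm_snd_le (pos u w)).trans h3)⟩, hQ⟩

open Classical in
theorem part3 (hA : MeasurableSet A) (hc : Conv hg M 𝒰 μ') (h : SLim M μ') (hM : BigM Λ q A' M)
    (hq : 0 < q) (Φ : (Fin 3 → E n × H n) × (ℝ × ℝ) → ℝ) (hΦ : Continuous Φ)
    (h0 : Tendsto (fun u : ℕ => (∑ w ∈ (cellsQ Λ q u).filter (fun w => S.T w ω ∈ S.TA A),
      |Φ (fun i => (S.ev ν ω ((S.Γ ω).tlab w i), hu u ((S.Γ ω).tlab w i)),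
        Λ ((w.1 : ℝ) / u, (w.2 : ℝ) / u))|) / (u : ℝ) ^ 2) 𝒰 (𝓝 0)) :
    ∀ᵐ x : Wt S n ∂(h.dyn hM hq).μ, x.1 ∈ S.TA A →
      Φ (fun i => (ν (S.tx x.1 i), hh (x, (S.Γ x.1).tl 0 i)), XX Λ q x) = 0 := by
  have key : ∀ τ : Fin 3 → ℕ, ∀ᵐ x ∂μ', x.1 ∈ {ω | ω ∈ S.TA A ∧ (S.Γ ω).tl 0 = τ} →
      min 1 |Φ (fun i => (ν (x.1, τ i), x.2.1 0 (τ i)), Λ x.2.2)| * chi q (Λ x.2.2) = 0 :=
    fun τ => hc.zero h (Or.inr (Or.inl ⟨τ, rfl⟩)) (ms_tl hA τ)
      (Φ := fun y => min 1 |Φ (fun i => ((dd Λ (τ i) y).1, (dd Λ (τ i) y).2.2), Λ y.2.2)| *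
        chi q (Λ y.2.2))
      ((continuous_const.min (hΦ.comp ((continuous_pi fun i => (continuous_dd (τ i)).fst.prodMk
        (continuous_dd (τ i)).snd.snd).prodMk (Λ.continuous.comp continuous_snd.snd))).abs).mul
        ((continuous_chi q).comp (Λ.continuous.comp continuous_snd.snd)))
      (fun _ => mul_nonneg (le_min zero_le_one (abs_nonneg _)) (chi_nonneg _ _))
      (fun _ => mul_le_one₀ (min_le_left _ _) (chi_nonneg _ _) (chi_le_one _ _)) h0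
      fun u s hs => sum_le_of (fun _ => abs_nonneg _) fun w hw hne => by
        obtain ⟨a1, a2, a3⟩ := hs w hw
        have a4 : ∀ i, (S.Γ ω).tlab w i = (w, τ i) := fun i => by
          rw [Gal.tlab, ← a3, (S.shift ω w).tl, add_zero]
        refine ⟨mem_filter.2 ⟨mem_cellsQ a1 (chi_ne_zero.1 (right_ne_zero_of_mul hne)), a2⟩, ?_⟩
        simp only [dd_orbit hg, a4]
        exact (mul_le_of_le_one_right (le_min zero_le_one (abs_nonneg _))
          (chi_le_one _ _)).trans (min_le_right _ _)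
  filter_upwards [h.ae hM hq (ae_all_iff.2 key)] with x hx hT
  have := (mul_eq_zero.1 (hx.2 _ ⟨hT, rfl⟩)).resolve_right (chi_ne_zero.2 hx.1)
  rw [min_eq_iff] at this
  rcases this with h1 | h1
  · exact absurd h1.1 one_ne_zero
  · rw [XX_eq hx.1]
    exact abs_eq_zero.1 h1.1

end Parts

/-- existence of tangent systems -/
theorem tan_ex (S : Sys) (hS : S.toDyn.Erg) {Λ : (ℝ × ℝ) ≃L[ℝ] (ℝ × ℝ)} (hΛ : S.Lin Λ)
    {A : Set (S.Ω × ℕ)} (hA : S.LineSet A) {n : ℕ} {ν : S.Ω × ℕ → E n} (hν : S.Marks0 ν)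
    (q : ℝ) (hq : 0 < q) :
    ∀ᵐ ω ∂S.μ, ∀ 𝒰 : Ultrafilter ℕ, (𝒰 : Filter ℕ) ≤ atTop → ∀ hu : ℕ → Lb → H n,
      (∀ u l, ‖hu u l‖ ≤ 1) → (∀ u, (S.Γ ω).LineC (hu u)) →
      ∃ τ : Tan S Λ A ν q, τ.Of ω 𝒰 hu := by
  obtain ⟨B0, hB0⟩ := hν.bdd
  obtain ⟨A', M, hM⟩ := exists_bigM hΛ.ok q
  obtain ⟨K, hK⟩ := S.few_lns hS hΛ (3 * q)
  filter_upwards [stable_lim S.toDyn hS (Z := Zt n) (mk hB0) (measurable_mk hν.meas hB0) (CC S A)
      countable_CC (ms_CC hA.1) M hM.pos, hΛ.lin, hν.line, hA.2, hK,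
    ae_all_iff.2 fun i => tail S.toDyn hS (sec1 S A i) (ms_sec1 hA.1 i) (fin_sec1 i) M,
    ae_all_iff.2 fun i => ae_all_iff.2 fun i' =>
      tail S.toDyn hS (sec2 S A i i') (ms_sec2 hA.1 i i') (fin_sec2 i i') M]
    with ω h1 h2 h3 h4 h5 h6 h7 𝒰 h𝒰 hu hb hl
  have hg : Good S Λ A ν B0 ω hu := ⟨hΛ.ok, hν, h2, h3, h4, hl, hb, hB0⟩
  obtain ⟨μ', a1, a2, a3, hc⟩ := h1 𝒰 h𝒰 (zk hb)
  have h : SLim M μ' := ⟨a1, a2, a3⟩
  have hc : Conv hg M 𝒰 μ' := hc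
  have hfew : ∀ᶠ u : ℕ in atTop, 0 < u ∧ ∀ i,
      ((S.lnsA A ω i (3 * q * (S.Γ ω).R u)).card : ℝ) ≤ ((K : ℝ) + 1) * u ∧
      ∀ l ∈ S.lnsA A ω i (3 * q * (S.Γ ω).R u), du S ν ω hu u l ∈ Ki n B0 (3 * q) i := by
    filter_upwards [h5, eventually_gt_atTop 0, h2 0 1 one_pos] with u b1 b2 b3
    refine ⟨b2, fun i => ⟨?_, fun l hl => hg.du_mem b3.1 hl⟩⟩
    have b4 : (S.lnsA A ω i (3 * q * (S.Γ ω).R u)).card ≤ (K + 1) * u := by
      refine le_trans (card_le_card fun l hl => ?_) ((b1 i).trans (by nlinarith))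
      exact (Gal.mem_lns (S.ax ω) hΛ.ok h2 _ _ _).2 ((mem_lnsA hΛ.ok h2).1 hl).1
    exact_mod_cast b4
  choose nm f1 f2 f3 using fun i => exists_lim_meas (isCompact_Ki n B0 (3 * q) i) 𝒰
    (fun u => S.lnsA A ω i (3 * q * (S.Γ ω).R u)) (du S ν ω hu) (fun u => (u : ℝ)) ((K : ℝ) + 1)
    (h𝒰 (hfew.mono fun u b => ⟨by exact_mod_cast b.1, (b.2 i).1, (b.2 i).2⟩))
  refine ⟨{ D := h.dyn hM hq, π := Prod.fst, fac := h.fac hM hq, X := XX Λ q, h := hh, nm := nm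
            c := cQ Λ q, c_pos := hM.cQ_pos hq, c_eq := hM.cQ_mul hq
            X_meas := measurable_XX Λ q, X_inv := fun _ _ => rfl, X_mem := XX_mem hq
            h_meas := measurable_hh
            h_bdd := fun x => mem_closedBall_zero_iff.1 (x.1.2.1 0 x.2).2
            h_line := part_line hc h hM hq, law := h.law' hM hq, nm_fin := f1
            nm_supp := ⟨B0, fun i => ?_⟩
            p1 := fun i => (congrArg (Measure.map _) (h.mh_eq hM hq hA.1 i)).trans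
              (part1 hA.1 hc h𝒰 h hM hq i (nm i) (f2 i) (f3 i) (h6 i)
                ⟨K + 1, by positivity, hfew.mono fun u b => (b.2 i).1⟩)
            p2 := fun i i' => (congrArg (Measure.map _) (h.pm_eq hM hq hA.1 i i')).trans <|
              part2 hA.1 hc h𝒰 h hM hq i i' _
              (lim_prod (isCompact_Kc n B0 (3 * q)) 𝒰 _ _ (du S ν ω hu) ((K : ℝ) + 1)
                (h𝒰 (hfew.mono fun u b => ⟨b.1, (b.2 i).1, (b.2 i').1,
                  fun l hl => ((b.2 i).2 l hl).1, fun l hl => ((b.2 i').2 l hl).1⟩))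
                (nm i) (nm i') (f3 i) (f3 i')) (h7 i i') },
    part3 hA.1 hc h hM hq, fun i F => f3 i F F.continuous⟩
  filter_upwards [mem_ae_iff.2 (f2 i)] with d hd
  obtain ⟨b1, b2, b3⟩ := mem_Kc.1 hd.1
  exact ⟨b1, hd.2.1, hd.2.2, b2, b3⟩

end ECub.Tn
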